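import Mathlib

/-!
# The quaternion group of order eight and its powers: classes modulo the centre, squares, commutators
-/

set_option autoImplicit false

namespace Pool.Agent.Helper47.ZQ

open QuaternionGroup

/-- the group of order eight -/
abbrev Q8 : Type := QuaternionGroup 2

/-- the first coordinate of the class modulo the centre -/
def cx : Q8 → ZMod 2
  | QuaternionGroup.a i => ((i : ZMod (2 * 2)).val : ZMod 2)
  | QuaternionGroup.xa i => ((i : ZMod (2 * 2)).val : ZMod 2)

/-- the second coordinate of the class modulo the centre -/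
def cz : Q8 → ZMod 2
  | QuaternionGroup.a _ => 0
  | QuaternionGroup.xa _ => 1

/-- the central elements -/
def sgn (x : ZMod 2) : Q8 := QuaternionGroup.a (((2 * x.val : ℕ)) : ZMod (2 * 2))

/-- a lift of a class -/
def lft (x z : ZMod 2) : Q8 :=
  if z = 0 then QuaternionGroup.a ((x.val : ℕ) : ZMod (2 * 2))
  else QuaternionGroup.xa ((x.val : ℕ) : ZMod (2 * 2))

theorem cx_mul : ∀ g h : Q8, cx (g * h) = cx g + cx h := by decide
theorem cz_mul : ∀ g h : Q8, cz (g * h) = cz g + cz h := by decide
theorem cx_inv : ∀ g : Q8, cx g⁻¹ = cx g := by decide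
theorem cz_inv : ∀ g : Q8, cz g⁻¹ = cz g := by decide
theorem cx_lft : ∀ x z : ZMod 2, cx (lft x z) = x := by decide
theorem cz_lft : ∀ x z : ZMod 2, cz (lft x z) = z := by decide
theorem cx_sgn : ∀ x : ZMod 2, cx (sgn x) = 0 := by decide
theorem cz_sgn : ∀ x : ZMod 2, cz (sgn x) = 0 := by decide
theorem sgn_add : ∀ x y : ZMod 2, sgn (x + y) = sgn x * sgn y := by decide
theorem sgn_zero : sgn 0 = 1 := by decide
theorem sgn_one : sgn 1 = QuaternionGroup.a 2 := by decide
theorem sgn_inj : ∀ x y : ZMod 2, sgn x = sgn y → x = y := by decide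
theorem sgn_comm : ∀ (x : ZMod 2) (g : Q8), sgn x * g = g * sgn x := by decide
theorem eq_sgn : ∀ g : Q8, cx g = 0 → cz g = 0 → ∃ x, g = sgn x := by decide
theorem sq_eq : ∀ g : Q8, g * g = sgn (cx g + cz g + cx g * cz g) := by decide
theorem comm_eq : ∀ g h : Q8, g * h * g⁻¹ * h⁻¹ = sgn (cx g * cz h + cz g * cx h) := by decide

end Pool.Agent.Helper47.ZQ
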