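import Pool.Agent.Helper47.ZQ.Base
import Pool.Agent.Helper47.ZQ.Q8

/-!
# From the combinatorial core to subgroups of `Q₈ ^ n`
-/

set_option autoImplicit false

namespace Pool.Agent.Helper47.ZQ

open Module

/-! ## additivity -/

theorem xp_add (v w : ℕ → ZMod 2) (l : ℕ) : xp (v + w) l = xp v l + xp w l := by
  unfold xp
  split_ifs <;> (try simp only [Pi.add_apply]) <;> ring

theorem zp_add (v w : ℕ → ZMod 2) (l : ℕ) : zp (v + w) l = zp v l + zp w l := by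
  unfold zp
  split_ifs <;> (try simp only [Pi.add_apply]) <;> ring

theorem xp_zero (l : ℕ) : xp 0 l = 0 := by simp [xp]

theorem zp_zero (l : ℕ) : zp 0 l = 0 := by simp [zp]

/-- the group `Q₈ ^ n` -/
abbrev D (n : ℕ) : Type := Fin n → Q8

/-- the valid vectors -/
def Vsp (n : ℕ) (Br : Finset ℕ) : Submodule (ZMod 2) (ℕ → ZMod 2) where
  carrier := {v | ∀ i, v i ≠ 0 → Vl n Br i}
  zero_mem' := fun i hi => absurd rfl hi
  add_mem' := fun {v w} hv hw i hi => by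
    by_cases h : v i = 0
    · refine hw i fun h2 => hi ?_
      rw [Pi.add_apply, h, h2, add_zero]
    · exact hv i h
  smul_mem' := fun c v hv i hi => hv i fun h => hi (by rw [Pi.smul_apply, h, smul_zero])

/-- `g` has the class `v` in the coordinates sorted by `σ` -/
def Cl {n : ℕ} (σ : Equiv.Perm (Fin n)) (v : ℕ → ZMod 2) (g : D n) : Prop :=
  ∀ l : Fin n, cx (g (σ l)) = xp v l ∧ cz (g (σ l)) = zp v l

/-- the canonical element of class `v` -/
def gl {n : ℕ} (σ : Equiv.Perm (Fin n)) (v : ℕ → ZMod 2) : D n :=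
  fun i => lft (xp v (σ.symm i)) (zp v (σ.symm i))

theorem Cl_gl {n : ℕ} (σ : Equiv.Perm (Fin n)) (v : ℕ → ZMod 2) : Cl σ v (gl σ v) := by
  intro l
  simp only [gl, Equiv.symm_apply_apply]
  exact ⟨cx_lft _ _, cz_lft _ _⟩

theorem Cl.mul {n : ℕ} {σ : Equiv.Perm (Fin n)} {v w : ℕ → ZMod 2} {g h : D n} (hg : Cl σ v g)
    (hh : Cl σ w h) : Cl σ (v + w) (g * h) := by
  intro l
  rw [Pi.mul_apply, cx_mul, cz_mul, xp_add, zp_add, (hg l).1, (hg l).2, (hh l).1, (hh l).2]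
  exact ⟨rfl, rfl⟩

theorem Cl.inv {n : ℕ} {σ : Equiv.Perm (Fin n)} {v : ℕ → ZMod 2} {g : D n} (hg : Cl σ v g) :
    Cl σ v g⁻¹ := by
  intro l
  rw [Pi.inv_apply, cx_inv, cz_inv]
  exact hg l

theorem Cl.one {n : ℕ} (σ : Equiv.Perm (Fin n)) : Cl σ 0 (1 : D n) := by
  intro l
  rw [xp_zero, zp_zero]
  exact ⟨rfl, rfl⟩

/-- the group of the elements with a valid class -/
def DE (n : ℕ) (σ : Equiv.Perm (Fin n)) (Br : Finset ℕ) : Subgroup (D n) where
  carrier := {g | ∃ v ∈ Vsp n Br, Cl σ v g}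
  one_mem' := ⟨0, Submodule.zero_mem _, Cl.one σ⟩
  mul_mem' := by
    rintro g h ⟨v, hv, hg⟩ ⟨w, hw, hh⟩
    exact ⟨v + w, Submodule.add_mem _ hv hw, hg.mul hh⟩
  inv_mem' := by
    rintro g ⟨v, hv, hg⟩
    exact ⟨v, hv, hg.inv⟩

/-- the group of the elements of class zero -/
def ZD (n : ℕ) : Subgroup (D n) where
  carrier := {g | ∀ l, cx (g l) = 0 ∧ cz (g l) = 0}
  one_mem' := fun _ => ⟨rfl, rfl⟩
  mul_mem' := by
    intro g h hg hh l
    rw [Pi.mul_apply, cx_mul, cz_mul, (hg l).1, (hg l).2, (hh l).1, (hh l).2]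
    exact ⟨add_zero 0, add_zero 0⟩
  inv_mem' := by
    intro g hg l
    rw [Pi.inv_apply, cx_inv, cz_inv]
    exact hg l

/-- sign vectors -/
def sgD {n : ℕ} (ε : Fin n → ZMod 2) : D n := fun l => sgn (ε l)

theorem sgD_add {n : ℕ} (ε δ : Fin n → ZMod 2) : sgD (ε + δ) = sgD ε * sgD δ :=
  funext fun _ => sgn_add _ _

theorem sgD_zero {n : ℕ} : sgD (0 : Fin n → ZMod 2) = 1 := funext fun _ => sgn_zero

theorem sgD_inj {n : ℕ} {ε δ : Fin n → ZMod 2} (h : sgD ε = sgD δ) : ε = δ :=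
  funext fun l => sgn_inj _ _ (congrFun h l)

theorem sgD_mem {n : ℕ} (ε : Fin n → ZMod 2) : sgD ε ∈ ZD n := fun _ => ⟨cx_sgn _, cz_sgn _⟩

theorem sgD_comm {n : ℕ} (ε : Fin n → ZMod 2) (g : D n) : sgD ε * g = g * sgD ε :=
  funext fun _ => sgn_comm _ _

theorem sgD_inv {n : ℕ} (ε : Fin n → ZMod 2) : (sgD ε)⁻¹ = sgD ε := by
  apply inv_eq_of_mul_eq_one_right
  rw [← sgD_add]
  have : ε + ε = 0 := funext fun l => CharTwo.add_self_eq_zero (ε l)
  rw [this, sgD_zero]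

theorem exists_sgD {n : ℕ} {g : D n} (hg : g ∈ ZD n) : ∃ ε, g = sgD ε := by
  choose ε hε using fun l => eq_sgn (g l) (hg l).1 (hg l).2
  exact ⟨ε, funext hε⟩

theorem ZD_le_DE {n : ℕ} (σ : Equiv.Perm (Fin n)) (Br : Finset ℕ) : ZD n ≤ DE n σ Br := by
  intro g hg
  refine ⟨0, Submodule.zero_mem _, fun l => ?_⟩
  rw [xp_zero, zp_zero]
  exact hg _

/-- the square of an element of class `v` -/
theorem Cl.sq {n : ℕ} {σ : Equiv.Perm (Fin n)} {v : ℕ → ZMod 2} {g : D n} (hg : Cl σ v g) :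
    g * g = sgD (fun i => wt v (σ.symm i)) := by
  funext i
  obtain ⟨l, rfl⟩ := σ.surjective i
  rw [Pi.mul_apply, sq_eq, (hg l).1, (hg l).2]
  simp only [sgD, Equiv.symm_apply_apply]
  rfl

/-- the commutator -/
theorem Cl.comm {n : ℕ} {σ : Equiv.Perm (Fin n)} {v w : ℕ → ZMod 2} {g h : D n} (hg : Cl σ v g)
    (hh : Cl σ w h) : g * h * g⁻¹ * h⁻¹ =
      sgD (fun i => xp v (σ.symm i) * zp w (σ.symm i) + zp v (σ.symm i) * xp w (σ.symm i)) := by
  funext i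
  obtain ⟨l, rfl⟩ := σ.surjective i
  rw [Pi.mul_apply, Pi.mul_apply, Pi.mul_apply, Pi.inv_apply, Pi.inv_apply, comm_eq, (hg l).1,
    (hg l).2, (hh l).1, (hh l).2]
  simp only [sgD, Equiv.symm_apply_apply]

/-! ## functionals -/

/-- the values of a functional on the sorted unit vectors -/
noncomputable def LL {n : ℕ} (σ : Equiv.Perm (Fin n)) (lam : (Fin n → ZMod 2) →ₗ[ZMod 2] ZMod 2) :
    ℕ → ZMod 2 := fun l => if h : l < n then lam (Pi.single (σ ⟨l, h⟩) 1) else 0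

theorem lam_eq {n : ℕ} (σ : Equiv.Perm (Fin n)) (lam : (Fin n → ZMod 2) →ₗ[ZMod 2] ZMod 2)
    (f : ℕ → ZMod 2) : lam (fun i => f (σ.symm i)) = ∑ l ∈ Finset.range n, LL σ lam l * f l := by
  rw [LinearMap.pi_apply_eq_sum_univ lam, ← Fin.sum_univ_eq_sum_range (fun l => LL σ lam l * f l) n,
    ← Equiv.sum_comp σ]
  refine Finset.sum_congr rfl fun l _ => ?_
  have h1 : (fun j : Fin n => if σ l = j then (1 : ZMod 2) else 0) = Pi.single (σ l) 1 := by
    funext j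
    by_cases h : σ l = j
    · subst h
      simp
    · rw [if_neg h, Pi.single_eq_of_ne (Ne.symm h)]
  rw [h1, Equiv.symm_apply_apply, smul_eq_mul, mul_comm]
  congr 1
  simp [LL]

/-! ## counting -/

theorem quot_card {U : Type} [AddCommGroup U] (U' : AddSubgroup U) {S : Type} [Group S]
    (T : Subgroup S) [Finite (S ⧸ T)] (f : U → S) (hf : ∀ u v, (f u)⁻¹ * f v ∈ T → -u + v ∈ U') :
    Finite (U ⧸ U') ∧ Nat.card (U ⧸ U') ≤ T.index := by
  let F : U ⧸ U' → S ⧸ T := fun q => (f q.out : S ⧸ T)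
  have hF : Function.Injective F := by
    intro q r h
    have h1 := QuotientGroup.eq.1 h
    have h2 := hf _ _ h1
    have h3 : ((q.out : U) : U ⧸ U') = (r.out : U) := QuotientAddGroup.eq.2 h2
    rwa [QuotientAddGroup.out_eq', QuotientAddGroup.out_eq'] at h3
  exact ⟨Finite.of_injective F hF, Nat.card_le_card_of_injective F hF⟩

theorem rel_bound {G : Type} [Group G] (R S T : Subgroup G) {a b : ℕ} (hR : R.index ≤ a)
    (hR0 : R.index ≠ 0) (hT : T ≤ S ⊓ R) (h0 : T.relIndex (S ⊓ R) ≠ 0)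
    (hb : T.relIndex (S ⊓ R) ≤ b) : T.relIndex S ≤ b * a ∧ T.relIndex S ≠ 0 := by
  have h1 := Subgroup.relIndex_mul_relIndex T (S ⊓ R) S hT inf_le_left
  have h2 : (S ⊓ R).relIndex S = R.relIndex S := by
    rw [inf_comm]
    exact Subgroup.inf_relIndex_right R S
  have h5 : R.relIndex ⊤ ≠ 0 := by rwa [Subgroup.relIndex_top_right]
  have h3 : R.relIndex S ≤ a :=
    (Subgroup.relIndex_le_of_le_right (le_top : S ≤ ⊤) h5).trans (by
      rwa [Subgroup.relIndex_top_right])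
  have h4 : R.relIndex S ≠ 0 := fun h =>
    h5 (Subgroup.relIndex_eq_zero_of_le_right le_top h)
  rw [← h1, h2]
  exact ⟨Nat.mul_le_mul hb h3, Nat.mul_ne_zero h0 h4⟩

end Pool.Agent.Helper47.ZQ
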