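import Pool.Agent.Helper47.ZQ.Alg

/-!
# Subgroups of `Q₈ ^ n`: the algebraic part of the theorem
-/

set_option autoImplicit false

namespace Pool.Agent.Helper47.ZQ

open Module

/-- the elements whose image is a vector of signs -/
def Zf {n : ℕ} {P : Type} [Group P] (ψ : P →* D n) : Subgroup P := (ZD n).comap ψ

theorem exists_small {U : Type} [AddCommGroup U] [Module (ZMod 2) U] (hf : Finite U) {κ : ℕ}
    (hc : Nat.card U ≤ 2 ^ κ) :
    ∃ f : U →ₗ[ZMod 2] (Fin κ → ZMod 2), Function.Injective f := by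
  have : Fact (Nat.Prime 2) := ⟨Nat.prime_two⟩
  have hfd : FiniteDimensional (ZMod 2) U := inferInstance
  let b := Module.finBasis (ZMod 2) U
  have hr : finrank (ZMod 2) U ≤ κ := by
    have h1 := Module.natCard_eq_pow_finrank (K := ZMod 2) (V := U)
    rw [h1, Nat.card_zmod] at hc
    exact (Nat.pow_le_pow_iff_right (by norm_num)).1 hc
  let f : U →ₗ[ZMod 2] (Fin κ → ZMod 2) :=
    { toFun := fun x j => if h : (j : ℕ) < finrank (ZMod 2) U then b.equivFun x ⟨j, h⟩ else 0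
      map_add' := fun x y => by
        funext j
        simp only [map_add, Pi.add_apply]
        split_ifs <;> simp
      map_smul' := fun c x => by
        funext j
        simp only [map_smul, Pi.smul_apply, RingHom.id_apply]
        split_ifs <;> simp }
  refine ⟨f, fun x y h => b.equivFun.injective (funext fun i => ?_)⟩
  have h1 := congrFun h ⟨i, lt_of_lt_of_le i.2 hr⟩
  simpa [f] using h1

theorem KK_mono (κ : ℕ) {b b' : ℕ} (h : b ≤ b') : KK κ b ≤ KK κ b' := by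
  unfold KK
  gcongr

/-- the additive form of a sign -/
def bb (u : ℤˣ) : ZMod 2 := if u = 1 then 0 else 1

theorem bb_mul (u v : ℤˣ) : bb (u * v) = bb u + bb v := by
  rcases Int.units_eq_one_or u with rfl | rfl <;> rcases Int.units_eq_one_or v with rfl | rfl <;>
    decide

theorem bb_eq_one {u : ℤˣ} (h : bb u = 1) : u = -1 := by
  rcases Int.units_eq_one_or u with rfl | rfl
  · exact absurd h (by decide)
  · rfl

theorem bb_neg_one : bb (-1) = 1 := by decide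

section sets

variable {n : ℕ} {P : Type} [Group P] (ψ : P →* D n)

/-- the sign vectors in the image of `A` -/
def WA (A : Subgroup P) : Submodule (ZMod 2) (Fin n → ZMod 2) where
  carrier := {ε | ∃ p ∈ A, ψ p = sgD ε}
  zero_mem' := ⟨1, A.one_mem, by rw [map_one, sgD_zero]⟩
  add_mem' := by
    rintro ε δ ⟨p, hp, h1⟩ ⟨q, hq, h2⟩
    exact ⟨p * q, A.mul_mem hp hq, by rw [map_mul, h1, h2, sgD_add]⟩
  smul_mem' := by
    rintro c ε ⟨p, hp, h1⟩
    rcases (by decide : ∀ c : ZMod 2, c = 0 ∨ c = 1) c with rfl | rfl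
    · exact ⟨1, A.one_mem, by rw [map_one, zero_smul, sgD_zero]⟩
    · exact ⟨p, hp, by rw [one_smul, h1]⟩

/-- the valid vectors which are the classes of elements of `N'` -/
def EP (σ : Equiv.Perm (Fin n)) (Br : Finset ℕ) (N' : Subgroup P) :
    Submodule (ZMod 2) (Vsp n Br) where
  carrier := {v | ∃ p ∈ N', Cl σ v.1 (ψ p)}
  zero_mem' := ⟨1, N'.one_mem, by rw [map_one]; exact Cl.one σ⟩
  add_mem' := by
    rintro v w ⟨p, hp, h1⟩ ⟨q, hq, h2⟩
    exact ⟨p * q, N'.mul_mem hp hq, by rw [map_mul]; exact h1.mul h2⟩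
  smul_mem' := by
    rintro c v ⟨p, hp, h1⟩
    rcases (by decide : ∀ c : ZMod 2, c = 0 ∨ c = 1) c with rfl | rfl
    · exact ⟨1, N'.one_mem, by rw [map_one, zero_smul]; exact Cl.one σ⟩
    · exact ⟨p, hp, by rw [one_smul]; exact h1⟩

theorem neg_eq_fun {X : Type} (u : X → ZMod 2) : -u = u := funext fun _ => ZMod.neg_eq_self_mod_two _

theorem WA_card [Finite P] (hψ : Function.Injective ψ) {c e : ℕ} (hidx : ψ.range.index ≤ 2 ^ e)
    (A : Subgroup P) (hAZ : A ≤ Zf ψ) (hA : A.relIndex (Zf ψ) ≤ 2 ^ c) :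
    Finite ((Fin n → ZMod 2) ⧸ WA ψ A) ∧ Nat.card ((Fin n → ZMod 2) ⧸ WA ψ A) ≤ 2 ^ (c + e) := by
  have hfin : Finite (D n) := inferInstance
  have h1 : (Zf ψ).map ψ = ZD n ⊓ ψ.range := by
    rw [Zf, Subgroup.map_comap_eq, inf_comm]
  have h2 : (A.map ψ).relIndex (ZD n ⊓ ψ.range) = A.relIndex (Zf ψ) := by
    rw [← h1, Subgroup.relIndex_map_map_of_injective _ _ hψ]
  have h3 : A.map ψ ≤ ZD n ⊓ ψ.range := by
    rw [← h1]
    exact Subgroup.map_mono hAZ
  have h4 : A.relIndex (Zf ψ) ≠ 0 := Subgroup.index_ne_zero_of_finite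
  obtain ⟨h5, h6⟩ := rel_bound ψ.range (ZD n) (A.map ψ) (b := 2 ^ c) hidx
    Subgroup.index_ne_zero_of_finite h3 (by rwa [h2]) (by rwa [h2])
  obtain ⟨h7, h8⟩ := quot_card (WA ψ A).toAddSubgroup ((A.map ψ).subgroupOf (ZD n))
    (fun ε : Fin n → ZMod 2 => (⟨sgD ε, sgD_mem ε⟩ : ZD n)) (by
      intro u v h
      obtain ⟨p, hp, h9⟩ := h
      refine ⟨p, hp, ?_⟩
      rw [neg_eq_fun, sgD_add]
      rw [h9]
      show (sgD u)⁻¹ * sgD v = _
      rw [sgD_inv])
  refine ⟨h7, h8.trans ?_⟩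
  rw [pow_add]
  exact h5

theorem EP_card [Finite P] (hψ : Function.Injective ψ) {c e : ℕ} (hidx : ψ.range.index ≤ 2 ^ e)
    (σ : Equiv.Perm (Fin n)) (Br : Finset ℕ) (N' : Subgroup P)
    (hN : N' ≤ (DE n σ Br).comap ψ) (hA : N'.relIndex ((DE n σ Br).comap ψ) ≤ 2 ^ c) :
    Finite (Vsp n Br ⧸ EP ψ σ Br N') ∧ Nat.card (Vsp n Br ⧸ EP ψ σ Br N') ≤ 2 ^ (c + e) := by
  have hfin : Finite (D n) := inferInstance
  have h1 : ((DE n σ Br).comap ψ).map ψ = DE n σ Br ⊓ ψ.range := by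
    rw [Subgroup.map_comap_eq, inf_comm]
  have h2 : (N'.map ψ).relIndex (DE n σ Br ⊓ ψ.range) = N'.relIndex ((DE n σ Br).comap ψ) := by
    rw [← h1, Subgroup.relIndex_map_map_of_injective _ _ hψ]
  have h3 : N'.map ψ ≤ DE n σ Br ⊓ ψ.range := by
    rw [← h1]
    exact Subgroup.map_mono hN
  have h4 : N'.relIndex ((DE n σ Br).comap ψ) ≠ 0 := Subgroup.index_ne_zero_of_finite
  obtain ⟨h5, h6⟩ := rel_bound ψ.range (DE n σ Br) (N'.map ψ) (b := 2 ^ c) hidx
    Subgroup.index_ne_zero_of_finite h3 (by rwa [h2]) (by rwa [h2])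
  obtain ⟨h7, h8⟩ := quot_card (EP ψ σ Br N').toAddSubgroup ((N'.map ψ).subgroupOf (DE n σ Br))
    (fun v : Vsp n Br => (⟨gl σ v.1, v.1, v.2, Cl_gl σ v.1⟩ : DE n σ Br)) (by
      intro u v h
      obtain ⟨p, hp, h9⟩ := h
      refine ⟨p, hp, ?_⟩
      have h10 : ((-u + v : Vsp n Br) : ℕ → ZMod 2) = u.1 + v.1 := by
        show -u.1 + v.1 = _
        rw [neg_eq_fun]
      rw [h10, h9]
      exact (Cl_gl σ u.1).inv.mul (Cl_gl σ v.1))
  refine ⟨h7, h8.trans ?_⟩
  rw [pow_add]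
  exact h5

end sets

end Pool.Agent.Helper47.ZQ
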