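import Pool.Agent.Helper47.ZQ.Alg2

/-!
# Subgroups of `Q₈ ^ n` and their real representations
-/

set_option autoImplicit false

namespace Pool.Agent.Helper47.ZQ

open Module

section types

variable {n : ℕ} (W : Submodule (ZMod 2) (Fin n → ZMod 2)) {t : ℕ}
  (f : Fin n → Fin t) (σ : Equiv.Perm (Fin n))

/-- the positions of the breaks -/
noncomputable def Brk {n t : ℕ} (f : Fin n → Fin t) (σ : Equiv.Perm (Fin n)) : Finset ℕ :=
  open Classical in (Finset.range n).filter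
    (fun p => ∃ (h0 : p < n) (h : p + 1 < n), f (σ ⟨p, h0⟩) ≠ f (σ ⟨p + 1, h⟩))

theorem card_Brk (hm : Monotone (f ∘ σ)) : (Brk f σ).card ≤ t := by
  classical
  rcases Nat.eq_zero_or_pos t with rfl | ht
  · have : Brk f σ = ∅ := by
      refine Finset.eq_empty_of_forall_notMem fun p hp => ?_
      obtain ⟨_, h0, _, _⟩ := Finset.mem_filter.1 hp
      exact (f ⟨p, h0⟩).elim0
    rw [this]
    rfl
  have h1 : (Brk f σ).card ≤ (Finset.univ : Finset (Fin t)).card := by
    refine Finset.card_le_card_of_injOn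
      (fun p => if h : p + 1 < n then f (σ ⟨p + 1, h⟩) else ⟨0, ht⟩) (fun _ _ => Finset.mem_univ _) ?_
    intro p hp q hq hpq
    obtain ⟨_, hp0, hp1, hp2⟩ := Finset.mem_filter.1 hp
    obtain ⟨_, hq0, hq1, hq2⟩ := Finset.mem_filter.1 hq
    simp only [hp1, hq1, dif_pos] at hpq
    have key : ∀ p q : ℕ, ∀ (hp1 : p + 1 < n) (hq0 : q < n) (hq1 : q + 1 < n),
        f (σ ⟨q, hq0⟩) ≠ f (σ ⟨q + 1, hq1⟩) → p < q →
          f (σ ⟨p + 1, hp1⟩) < f (σ ⟨q + 1, hq1⟩) := by
      intro p q hp1 hq0 hq1 hne hlt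
      have h2 : f (σ ⟨p + 1, hp1⟩) ≤ f (σ ⟨q, hq0⟩) := hm (show (⟨p + 1, hp1⟩ : Fin n) ≤ ⟨q, hq0⟩ from
        Fin.mk_le_mk.2 hlt)
      have h3 : f (σ ⟨q, hq0⟩) ≤ f (σ ⟨q + 1, hq1⟩) := hm (show (⟨q, hq0⟩ : Fin n) ≤ ⟨q + 1, hq1⟩ from
        Fin.mk_le_mk.2 (Nat.le_succ q))
      exact lt_of_le_of_lt h2 (lt_of_le_of_ne h3 hne)
    rcases lt_trichotomy p q with h | h | h
    · exact absurd hpq (ne_of_lt (key p q hp1 hq0 hq1 hq2 h))
    · exact h
    · exact absurd hpq.symm (ne_of_lt (key q p hq1 hp0 hp1 hp2 h))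
  simpa using h1

theorem LL_const {lam : (Fin n → ZMod 2) →ₗ[ZMod 2] ZMod 2} (hlam : ∀ w ∈ W, lam w = 0)
    (hf : ∀ i j, f i = f j → (Pi.single i 1 - Pi.single j 1 : Fin n → ZMod 2) ∈ W)
    {p : ℕ} (hp : p + 1 < n) (hb : p ∉ Brk f σ) : LL σ lam p = LL σ lam (p + 1) := by
  classical
  have hp0 : p < n := by omega
  have h1 : f (σ ⟨p, hp0⟩) = f (σ ⟨p + 1, hp⟩) := by
    by_contra h
    exact hb (Finset.mem_filter.2 ⟨Finset.mem_range.2 hp0, hp0, hp, h⟩)
  have h2 := hlam _ (hf _ _ h1)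
  rw [map_sub, sub_eq_zero] at h2
  unfold LL
  rw [dif_pos hp0, dif_pos hp]
  exact h2

theorem LL_valid {lam : (Fin n → ZMod 2) →ₗ[ZMod 2] ZMod 2} (hlam : ∀ w ∈ W, lam w = 0)
    (hf : ∀ i j, f i = f j → (Pi.single i 1 - Pi.single j 1 : Fin n → ZMod 2) ∈ W)
    {v : ℕ → ZMod 2} (hv : v ∈ Vsp n (Brk f σ)) :
    ∀ i, v i ≠ 0 → i + 3 < n ∧ LL σ lam i = LL σ lam (i + 1) ∧
      LL σ lam (i + 1) = LL σ lam (i + 2) ∧ LL σ lam (i + 2) = LL σ lam (i + 3) := by
  intro i hi
  obtain ⟨h1, h2, h3, h4⟩ := hv i hi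
  exact ⟨h1, LL_const W f σ hlam hf (by omega) h2, LL_const W f σ hlam hf (by omega) h3,
    LL_const W f σ hlam hf (by omega) h4⟩

theorem sq_mem (hK : S_CONST)
    (hf : ∀ i j, f i = f j → (Pi.single i 1 - Pi.single j 1 : Fin n → ZMod 2) ∈ W)
    {v : ℕ → ZMod 2} (hv : v ∈ Vsp n (Brk f σ)) : (fun i => wt v (σ.symm i)) ∈ W := by
  rw [← Subspace.forall_mem_dualAnnihilator_apply_eq_zero_iff W]
  intro lam hlam
  rw [lam_eq σ lam (wt v)]
  exact (hK n (LL σ lam) v (LL_valid W f σ ((Submodule.mem_dualAnnihilator lam).1 hlam) hf hv)).1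

theorem comm_mem (hK : S_CONST)
    (hf : ∀ i j, f i = f j → (Pi.single i 1 - Pi.single j 1 : Fin n → ZMod 2) ∈ W)
    {v w : ℕ → ZMod 2} (hw : w ∈ Vsp n (Brk f σ)) :
    (fun i => xp v (σ.symm i) * zp w (σ.symm i) + zp v (σ.symm i) * xp w (σ.symm i)) ∈ W := by
  rw [← Subspace.forall_mem_dualAnnihilator_apply_eq_zero_iff W]
  intro lam hlam
  rw [lam_eq σ lam (fun l => xp v l * zp w l + zp v l * xp w l)]
  exact (hK n (LL σ lam) w (LL_valid W f σ ((Submodule.mem_dualAnnihilator lam).1 hlam) hf hw)).2 v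

end types

section edges

variable {n : ℕ} (σ : Equiv.Perm (Fin n))

/-- the sum of two neighbouring unit vectors -/
noncomputable def ed (p : ℕ) : Fin n → ZMod 2 :=
  fun i => (if ((σ.symm i : Fin n) : ℕ) = p then 1 else 0) +
    (if ((σ.symm i : Fin n) : ℕ) = p + 1 then 1 else 0)

theorem ed_eq {p : ℕ} (hp0 : p < n) (hp : p + 1 < n) :
    ed σ p = Pi.single (σ ⟨p, hp0⟩) 1 - Pi.single (σ ⟨p + 1, hp⟩) 1 := by
  classical
  funext i
  obtain ⟨l, rfl⟩ := σ.surjective i
  have h1 : ∀ (q : ℕ) (hq : q < n), (Pi.single (σ ⟨q, hq⟩) (1 : ZMod 2) : Fin n → ZMod 2) (σ l) =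
      if (l : ℕ) = q then 1 else 0 := by
    intro q hq
    by_cases h : (l : ℕ) = q
    · have : l = ⟨q, hq⟩ := Fin.ext h
      rw [this, Pi.single_eq_same, if_pos rfl]
    · rw [Pi.single_eq_of_ne (fun h2 => h (by
        have := σ.injective h2
        rw [this])), if_neg h]
  rw [Pi.sub_apply, h1 p hp0, h1 (p + 1) hp]
  unfold ed
  rw [Equiv.symm_apply_apply, sub_eq_add_neg, ZMod.neg_eq_self_mod_two]

/-- the space spanned by the edges in `Pp` -/
noncomputable def W0 (Pp : Finset ℕ) : Submodule (ZMod 2) (Fin n → ZMod 2) :=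
  Submodule.span (ZMod 2) (ed σ '' (Pp : Set ℕ))

theorem W0_card (Pp : Finset ℕ) (hP : ∀ p ∈ Pp, p + 1 < n) : 2 ^ Pp.card ≤ Nat.card (W0 σ Pp) := by
  classical
  have h1 : Nat.card (Pp → ZMod 2) = 2 ^ Pp.card := by
    rw [Nat.card_fun, Nat.card_zmod, Nat.card_eq_fintype_card, Fintype.card_coe]
  rw [← h1]
  let F : (Pp → ZMod 2) → W0 σ Pp := fun c => ⟨∑ p : Pp, c p • ed σ (p : ℕ),
    Submodule.sum_mem _ fun p _ => Submodule.smul_mem _ _ (Submodule.subset_span ⟨p, p.2, rfl⟩)⟩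
  refine Nat.card_le_card_of_injective F ?_
  intro c d h
  have h2 : ∑ p : Pp, c p • ed σ (p : ℕ) = ∑ p : Pp, d p • ed σ (p : ℕ) :=
    congrArg Subtype.val h
  -- the extended difference
  let x : ℕ → ZMod 2 := fun p => if hp : p ∈ Pp then c ⟨p, hp⟩ - d ⟨p, hp⟩ else 0
  have h3 : ∀ l : ℕ, (hl : l < n) → x l + (if 1 ≤ l then x (l - 1) else 0) = 0 := by
    intro l hl
    have h4 := congrFun h2 (σ ⟨l, hl⟩)
    simp only [Finset.sum_apply, Pi.smul_apply, smul_eq_mul] at h4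
    rw [← sub_eq_zero, ← Finset.sum_sub_distrib] at h4
    simp only [ed, Equiv.symm_apply_apply] at h4
    have h5 : ∑ p : Pp, (c p - d p) * (if l = (p : ℕ) then (1 : ZMod 2) else 0) = x l := by
      by_cases hl' : l ∈ Pp
      · rw [Finset.sum_eq_single (⟨l, hl'⟩ : Pp)]
        · rw [if_pos rfl, mul_one]
          simp only [x, dif_pos hl']
        · intro b _ hb
          rw [if_neg (fun h => hb (Subtype.ext h.symm)), mul_zero]
        · intro h
          exact absurd (Finset.mem_univ _) h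
      · simp only [x, dif_neg hl']
        refine Finset.sum_eq_zero fun b _ => ?_
        rw [if_neg (fun h => hl' (by rw [h]; exact b.2)), mul_zero]
    have h6 : ∑ p : Pp, (c p - d p) * (if l = (p : ℕ) + 1 then (1 : ZMod 2) else 0) =
        if 1 ≤ l then x (l - 1) else 0 := by
      by_cases hl1 : 1 ≤ l
      · rw [if_pos hl1]
        by_cases hl' : l - 1 ∈ Pp
        · rw [Finset.sum_eq_single (⟨l - 1, hl'⟩ : Pp)]
          · rw [if_pos (show l = l - 1 + 1 by omega), mul_one]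
            simp only [x, dif_pos hl']
          · intro b _ hb
            rw [if_neg (fun h => hb (Subtype.ext (by
              show (b : ℕ) = l - 1
              omega))), mul_zero]
          · intro h
            exact absurd (Finset.mem_univ _) h
        · simp only [x, dif_neg hl']
          refine Finset.sum_eq_zero fun b _ => ?_
          rw [if_neg (fun h => hl' (by
            have : l - 1 = (b : ℕ) := by omega
            rw [this]; exact b.2)), mul_zero]
      · rw [if_neg hl1]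
        refine Finset.sum_eq_zero fun b _ => ?_
        rw [if_neg (fun h => hl1 (by omega)), mul_zero]
    rw [← h5, ← h6, ← Finset.sum_add_distrib]
    refine Eq.trans (Finset.sum_congr rfl fun p _ => ?_) h4
    ring
  have h7 : ∀ l : ℕ, l < n → x l = 0 := by
    intro l
    induction l with
    | zero =>
      intro hl
      have := h3 0 hl
      simpa using this
    | succ l ih =>
      intro hl
      have h8 := h3 (l + 1) hl
      rw [if_pos (by omega), Nat.add_sub_cancel, ih (by omega), add_zero] at h8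
      exact h8
  funext p
  have h8 := h7 p (by have := hP p p.2; omega)
  simp only [x, dif_pos p.2] at h8
  exact sub_eq_zero.1 h8

end edges

end Pool.Agent.Helper47.ZQ
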