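import Pool.Agent.Helper47.ZQ.Alg3

/-!
# The algebraic theorem
-/

set_option autoImplicit false

namespace Pool.Agent.Helper47.ZQ

open Module

/-- **The algebraic part.** `A` is a subgroup of small index of the group of the sign vectors in
`P ≤ Q₈ ^ n`. There is a subgroup `N` of `P` with squares in `A` such that every real representation of
dimension `m`, `m + 4 K + 4 < 4 n`, of a subgroup of small index of `N` kills a sign vector which is
not constant. -/
theorem alg (hC : S_COMB) (hR : S_REP) (hK : S_CONST) {n c e : ℕ} {P : Type} [Group P] [Finite P]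
    (ψ : P →* D n) (hψ : Function.Injective ψ) (hidx : ψ.range.index ≤ 2 ^ e)
    (A : Subgroup P) (hAZ : A ≤ Zf ψ) (hA : A.relIndex (Zf ψ) ≤ 2 ^ c) :
    ∃ N : Subgroup P, A ≤ N ∧ (∀ g ∈ N, g ^ 2 ∈ A) ∧ ∀ N' : Subgroup P, A ≤ N' → N' ≤ N →
      N'.relIndex N ≤ 2 ^ c → ∀ (V : Type) [AddCommGroup V] [Module ℝ V] [FiniteDimensional ℝ V]
        (ρ : N' →* (V →ₗ[ℝ] V)), finrank ℝ V + 4 * KK (c + e) (2 ^ (c + e)) + 4 < 4 * n →
          ∃ p : N', ρ p = 1 ∧ (p : P) ∈ Zf ψ ∧ ∃ i j, ψ p i ≠ ψ p j := by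
  classical
  obtain ⟨hfin, hcard⟩ := WA_card ψ hψ hidx A hAZ hA
  set W := WA ψ A with hW
  let t := Nat.card ((Fin n → ZMod 2) ⧸ W)
  let eq : ((Fin n → ZMod 2) ⧸ W) ≃ Fin t := Finite.equivFin _
  let f : Fin n → Fin t := fun i => eq (W.mkQ (Pi.single i 1))
  have hf : ∀ i j, f i = f j → (Pi.single i 1 - Pi.single j 1 : Fin n → ZMod 2) ∈ W := by
    intro i j h
    have h1 := eq.injective h
    exact (Submodule.Quotient.eq W).1 h1
  let σ : Equiv.Perm (Fin n) := Tuple.sort f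
  have hm : Monotone (f ∘ σ) := Tuple.monotone_sort f
  have hBr : (Brk f σ).card ≤ 2 ^ (c + e) := (card_Brk f σ hm).trans hcard
  let N : Subgroup P := (DE n σ (Brk f σ)).comap ψ
  have hAN : A ≤ N := fun p hp => ZD_le_DE σ _ (hAZ hp)
  have hWA : ∀ {ε : Fin n → ZMod 2} {p : P}, ε ∈ W → ψ p = sgD ε → p ∈ A := by
    rintro ε p ⟨q, hq, h1⟩ h2
    have : p = q := hψ (by rw [h2, h1])
    rwa [this]
  have hsq : ∀ g ∈ N, g ^ 2 ∈ A := by
    rintro g ⟨v, hv, hg⟩
    exact hWA (sq_mem W f σ hK hf hv) (by rw [pow_two, map_mul, hg.sq])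
  refine ⟨N, hAN, hsq, ?_⟩
  intro N' hAN' hN'N hidx' V _ _ _ ρ hdim
  obtain ⟨hfin2, hcard2⟩ := EP_card ψ hψ hidx σ (Brk f σ) N' hN'N hidx'
  obtain ⟨φ1, hφ1⟩ := exists_small hfin2 hcard2
  obtain ⟨φ, hφ⟩ := LinearMap.exists_extend (φ1 ∘ₗ (EP ψ σ (Brk f σ) N').mkQ)
  have hφE : ∀ v (hv : v ∈ Vsp n (Brk f σ)), φ v = 0 → ∃ p ∈ N', Cl σ v (ψ p) := by
    intro v hv h0
    have h1 := LinearMap.congr_fun hφ ⟨v, hv⟩
    have h2 : φ1 ((EP ψ σ (Brk f σ) N').mkQ ⟨v, hv⟩) = 0 := by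
      have h3 : φ1 ((EP ψ σ (Brk f σ) N').mkQ ⟨v, hv⟩) = φ v := h1.symm
      rw [h3, h0]
    have h3 : (EP ψ σ (Brk f σ) N').mkQ ⟨v, hv⟩ = 0 := hφ1 (by rw [h2, map_zero])
    have h4 : (⟨v, hv⟩ : Vsp n (Brk f σ)) ∈ EP ψ σ (Brk f σ) N' := by
      rwa [Submodule.mkQ_apply, Submodule.Quotient.mk_eq_zero] at h3
    exact h4
  obtain ⟨Pp, hP1, hP2, hP3⟩ := hC (c + e) n (Brk f σ) φ
  -- the subgroups of `N'`
  let A' : Subgroup N' := A.subgroupOf N'
  have hW0 : W0 σ Pp ≤ W := by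
    rw [W0, Submodule.span_le]
    rintro _ ⟨p, hp, rfl⟩
    have hp1 := (hP1 p hp).1
    have hp0 : p < n := by omega
    rw [ed_eq σ hp0 hp1]
    refine hf _ _ ?_
    by_contra h
    exact (hP1 p hp).2 (Finset.mem_filter.2 ⟨Finset.mem_range.2 hp0, hp0, hp1, h⟩)
  let A0 : Subgroup N' :=
    { carrier := {q | ∃ ε ∈ W0 σ Pp, ψ (q : P) = sgD ε}
      one_mem' := ⟨0, Submodule.zero_mem _, by rw [sgD_zero]; exact map_one ψ⟩
      mul_mem' := by
        rintro p q ⟨ε, hε, h1⟩ ⟨δ, hδ, h2⟩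
        exact ⟨ε + δ, Submodule.add_mem _ hε hδ, by
          rw [sgD_add, ← h1, ← h2]; exact map_mul ψ _ _⟩
      inv_mem' := by
        rintro p ⟨ε, hε, h1⟩
        exact ⟨ε, hε, by rw [← sgD_inv, ← h1]; exact map_inv ψ _⟩ }
  have hA0 : A0 ≤ A' := by
    rintro q ⟨ε, hε, h1⟩
    exact hWA (hW0 hε) h1
  have hcent : ∀ z ∈ A, ∀ g : P, z * g = g * z := by
    intro z hz g
    obtain ⟨ε, hε⟩ := exists_sgD (hAZ hz)
    apply hψ
    rw [map_mul, map_mul, hε, sgD_comm]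
  have hexp : ∀ z ∈ A, z ^ 2 = 1 := by
    intro z hz
    obtain ⟨ε, hε⟩ := exists_sgD (hAZ hz)
    apply hψ
    rw [pow_two, map_mul, hε, map_one]
    nth_rewrite 1 [← sgD_inv]
    rw [inv_mul_cancel]
  have key := hR N' V ρ A' A0 (fun z hz => Subtype.ext (hexp z hz))
    (fun z hz g => Subtype.ext (hcent z hz g)) hA0 ?_
  · -- conclusion
    by_contra hcon
    push Not at hcon
    have hn : 0 < n := by omega
    have h1 : Nat.card (W0 σ Pp) ≤ Nat.card A0 := by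
      have hex : ∀ ε : W0 σ Pp, ∃ q : A0, ψ ((q : N') : P) = sgD ε.1 := by
        intro ε
        obtain ⟨p, hp, h2⟩ := hW0 ε.2
        exact ⟨⟨⟨p, hAN' hp⟩, ε.1, ε.2, h2⟩, h2⟩
      choose F hF using hex
      refine Nat.card_le_card_of_injective F fun ε δ h => ?_
      apply Subtype.ext
      apply sgD_inj
      rw [← hF, ← hF, h]
    have h2 : Nat.card (A0 ⊓ ρ.ker : Subgroup N') ≤ 2 := by
      have h3 : Nat.card (A0 ⊓ ρ.ker : Subgroup N') ≤ Nat.card (ZMod 2) := by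
        have hex : ∀ q : (A0 ⊓ ρ.ker : Subgroup N'), ∃ ε : Fin n → ZMod 2,
            ψ ((q : N') : P) = sgD ε := by
          rintro ⟨q, ⟨ε, _, h1⟩, _⟩
          exact ⟨ε, h1⟩
        choose F hF using hex
        refine Nat.card_le_card_of_injective (fun q => F q ⟨0, hn⟩) fun q r h => ?_
        apply Subtype.ext
        apply Subtype.ext
        apply hψ
        rw [hF, hF]
        have hc : ∀ (s : (A0 ⊓ ρ.ker : Subgroup N')) (i : Fin n), F s i = F s ⟨0, hn⟩ := by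
          intro s i
          have h4 : (s : N') ∈ ρ.ker := s.2.2
          have h5 := hcon (s : N') ((MonoidHom.mem_ker).1 h4) (by
            show ψ ((s : N') : P) ∈ ZD n
            rw [hF]
            exact sgD_mem _) i ⟨0, hn⟩
          rw [hF] at h5
          exact sgn_inj _ _ h5
        congr 1
        funext i
        rw [hc q i, hc r i]
        exact h
      rwa [Nat.card_zmod] at h3
    have h3 : 2 ^ Pp.card ≤ 2 ^ (1 + finrank ℝ V / 4) := by
      calc 2 ^ Pp.card ≤ Nat.card (W0 σ Pp) := W0_card σ Pp fun p hp => (hP1 p hp).1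
        _ ≤ Nat.card A0 := h1
        _ ≤ Nat.card (A0 ⊓ ρ.ker : Subgroup N') * 2 ^ (finrank ℝ V / 4) := key
        _ ≤ 2 * 2 ^ (finrank ℝ V / 4) := Nat.mul_le_mul_right _ h2
        _ = 2 ^ (1 + finrank ℝ V / 4) := by rw [pow_add, pow_one]
    have h4 : Pp.card ≤ 1 + finrank ℝ V / 4 := (Nat.pow_le_pow_iff_right (by norm_num)).1 h3
    have h5 := KK_mono (c + e) hBr
    omega
  · -- the characters
    intro χ hχ
    obtain ⟨z, ⟨ε, hε, hzε⟩, hz⟩ := hχ
    have hex : ∀ δ : W, ∃ q : A', ψ ((q : N') : P) = sgD δ.1 := by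
      rintro ⟨δ, p, hp, h1⟩
      exact ⟨⟨⟨p, hAN' hp⟩, hp⟩, h1⟩
    choose s hs using hex
    have hs_eq : ∀ (q : A') (δ : W), ψ ((q : N') : P) = sgD δ.1 → s δ = q := by
      intro q δ h
      apply Subtype.ext
      apply Subtype.ext
      apply hψ
      rw [hs, h]
    let lam1 : W →+ ZMod 2 :=
      { toFun := fun δ => bb (χ (s δ))
        map_zero' := by
          have : s 0 = 1 := hs_eq 1 0 (by
            show ψ 1 = sgD 0
            rw [map_one, sgD_zero])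
          rw [this, map_one]
          rfl
        map_add' := fun δ η => by
          have : s (δ + η) = s δ * s η := hs_eq _ _ (by
            show ψ (((s δ : N') : P) * ((s η : N') : P)) = sgD (δ.1 + η.1)
            rw [map_mul, hs, hs, sgD_add])
          rw [this, map_mul, bb_mul] }
    obtain ⟨lam, hlam⟩ := LinearMap.exists_extend (AddMonoidHom.toZModLinearMap 2 lam1)
    have hlam' : ∀ (q : A') (δ : Fin n → ZMod 2) (hδ : δ ∈ W), ψ ((q : N') : P) = sgD δ →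
        bb (χ q) = lam δ := by
      intro q δ hδ h
      have h1 := LinearMap.congr_fun hlam ⟨δ, hδ⟩
      have h2 : lam δ = bb (χ (s ⟨δ, hδ⟩)) := h1
      rw [h2, hs_eq q ⟨δ, hδ⟩ h]
    -- a jump
    have hjump : ∃ p ∈ Pp, LL σ lam p ≠ LL σ lam (p + 1) := by
      by_contra hcon
      push Not at hcon
      have h1 : ∀ x ∈ W0 σ Pp, lam x = 0 := by
        intro x hx
        have h2 : W0 σ Pp ≤ LinearMap.ker lam := by
          rw [W0, Submodule.span_le]
          rintro _ ⟨p, hp, rfl⟩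
          have hp1 := (hP1 p hp).1
          have hp0 : p < n := by omega
          show lam (ed σ p) = 0
          rw [ed_eq σ hp0 hp1, map_sub, sub_eq_zero]
          have h3 := hcon p hp
          unfold LL at h3
          rwa [dif_pos hp0, dif_pos hp1] at h3
        exact h2 hx
      have h2 := hlam' z ε (hW0 hε) hzε
      rw [h1 ε hε, hz, bb_neg_one] at h2
      exact absurd h2 (by decide)
    obtain ⟨p, hp, hpj⟩ := hjump
    obtain ⟨v, w, hv, hw, hφv, hφw, hqv, hqw, hbvw⟩ := hP3 (LL σ lam) p hp hpj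
    obtain ⟨g, hg, hgc⟩ := hφE v hv hφv
    obtain ⟨h, hh, hhc⟩ := hφE w hw hφw
    have e1 : ψ (g ^ 2) = sgD (fun i => wt v (σ.symm i)) := by rw [pow_two, map_mul, hgc.sq]
    have e2 : ψ (h ^ 2) = sgD (fun i => wt w (σ.symm i)) := by rw [pow_two, map_mul, hhc.sq]
    have e3 : ψ (g * h * g⁻¹ * h⁻¹) = sgD (fun i => xp v (σ.symm i) * zp w (σ.symm i) +
        zp v (σ.symm i) * xp w (σ.symm i)) := by
      rw [map_mul, map_mul, map_mul, map_inv, map_inv, hgc.comm hhc]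
    have m1 := sq_mem W f σ hK hf hv
    have m2 := sq_mem W f σ hK hf hw
    have m3 := comm_mem W f σ hK hf (v := v) hw
    refine ⟨⟨g, hg⟩, ⟨h, hh⟩, hWA m1 e1, hWA m2 e2, hWA m3 e3, ?_, ?_, ?_⟩
    · apply bb_eq_one
      rw [hlam' _ _ m1 e1, lam_eq σ lam (wt v)]
      exact hqv
    · apply bb_eq_one
      rw [hlam' _ _ m2 e2, lam_eq σ lam (wt w)]
      exact hqw
    · apply bb_eq_one
      rw [hlam' _ _ m3 e3, lam_eq σ lam (fun l => xp v l * zp w l + zp v l * xp w l)]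
      exact hbvw

end Pool.Agent.Helper47.ZQ
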