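import Mathlib

/-!
# Quaternionic lattices acting on closed manifolds: definitions and statements of the modules

The generator number `i` is `X Z Z X` at the positions `i, i+1, i+2, i+3` (`X = (1, 0)`,
`Z = (0, 1)` in `F₂²`). `v : ℕ → ZMod 2` is the sum of the generators `i` with `v i = 1`.
-/

set_option autoImplicit false

namespace Pool.Agent.Helper47.ZQ

open Module

/-- the `X`-part at the position `l` of the sum of the generators `i` with `v i = 1` -/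
def xp (v : ℕ → ZMod 2) (l : ℕ) : ZMod 2 := v l + (if 3 ≤ l then v (l - 3) else 0)

/-- the `Z`-part at the position `l` -/
def zp (v : ℕ → ZMod 2) (l : ℕ) : ZMod 2 :=
  (if 1 ≤ l then v (l - 1) else 0) + (if 2 ≤ l then v (l - 2) else 0)

/-- `1` if the entry at the position `l` is not zero -/
def wt (v : ℕ → ZMod 2) (l : ℕ) : ZMod 2 := xp v l + zp v l + xp v l * zp v l

/-- the quadratic form of `L` on the first `n` positions -/
def qf (n : ℕ) (L : ℕ → ZMod 2) (v : ℕ → ZMod 2) : ZMod 2 := ∑ l ∈ Finset.range n, L l * wt v l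

/-- the bilinear form of `L` on the first `n` positions -/
def bf (n : ℕ) (L : ℕ → ZMod 2) (v w : ℕ → ZMod 2) : ZMod 2 :=
  ∑ l ∈ Finset.range n, L l * (xp v l * zp w l + zp v l * xp w l)

/-- the valid generators: no break in `i, i+1, i+2`, and `i + 3 < n` -/
def Vl (n : ℕ) (Br : Finset ℕ) (i : ℕ) : Prop := i + 3 < n ∧ i ∉ Br ∧ i + 1 ∉ Br ∧ i + 2 ∉ Br

/-- the loss of dimension -/
def KK (κ b : ℕ) : ℕ := 7 + 7 * b + 15 * κ * (8 * κ + 22 + 7 * b)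

/-- **WIN.** If `L` jumps between `p` and `p + 1` then there is an elliptic plane spanned by elements
supported on the generators `p-3, …, p+1`. -/
def S_WIN : Prop := ∀ (n p : ℕ), 3 ≤ p → p + 4 < n → ∀ L : ℕ → ZMod 2, L p ≠ L (p + 1) →
  ∃ a b : ℕ → ZMod 2, (∀ i, (i + 3 < p ∨ p + 1 < i) → a i = 0 ∧ b i = 0) ∧
    qf n L a = 1 ∧ qf n L b = 1 ∧ bf n L a b = 1

/-- **CONST.** Generators on whose support `L` is constant are in the radical. -/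
def S_CONST : Prop := ∀ (n : ℕ) (L r : ℕ → ZMod 2),
  (∀ i, r i ≠ 0 → i + 3 < n ∧ L i = L (i + 1) ∧ L (i + 1) = L (i + 2) ∧ L (i + 2) = L (i + 3)) →
    qf n L r = 0 ∧ ∀ v : ℕ → ZMod 2, bf n L v r = 0

/-- **ISO.** A subspace of codimension `κ` of the sum of `k ≥ κ + 3` elliptic planes contains an
elliptic plane. -/
def S_ISO : Prop := ∀ (k κ : ℕ), κ + 3 ≤ k →
  ∀ φ : (Fin k → ZMod 2 × ZMod 2) →ₗ[ZMod 2] (Fin κ → ZMod 2),
    ∃ c d : Fin k → ZMod 2 × ZMod 2, φ c = 0 ∧ φ d = 0 ∧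
      ∑ j, ((c j).1 + (c j).2 + (c j).1 * (c j).2) = 1 ∧
      ∑ j, ((d j).1 + (d j).2 + (d j).1 * (d j).2) = 1 ∧
      ∑ j, ((c j).1 * (d j).2 + (c j).2 * (d j).1) = 1

/-- **GAM.** A finite set `Γ'` of at most `κ T` generators such that the values of `φ` on vectors
supported on a set `W` disjoint from `Γ'` are taken outside every set of at most `T` elements. -/
def S_GAM : Prop := ∀ (κ T : ℕ) (V : ℕ → Prop)
  (φ : (ℕ → ZMod 2) →ₗ[ZMod 2] (Fin κ → ZMod 2)),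
    ∃ Γ' : Finset ℕ, Γ'.card ≤ κ * T ∧ ∀ W : Finset ℕ, Disjoint W Γ' →
      ∀ Γ : Finset ℕ, Γ.card ≤ T → ∀ v : ℕ → ZMod 2, (∀ i, v i ≠ 0 → i ∈ W ∧ V i) →
        ∃ r : ℕ → ZMod 2, (∀ i, r i ≠ 0 → i ∉ Γ ∧ V i) ∧ φ r = φ v

/-- **COMB.** The combinatorial core. -/
def S_COMB : Prop := ∀ (κ n : ℕ) (Br : Finset ℕ)
  (φ : (ℕ → ZMod 2) →ₗ[ZMod 2] (Fin κ → ZMod 2)),
    ∃ P : Finset ℕ, (∀ p ∈ P, p + 1 < n ∧ p ∉ Br) ∧ n ≤ P.card + KK κ Br.card ∧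
      ∀ L : ℕ → ZMod 2, ∀ p ∈ P, L p ≠ L (p + 1) → ∃ v w : ℕ → ZMod 2,
        (∀ i, v i ≠ 0 → Vl n Br i) ∧ (∀ i, w i ≠ 0 → Vl n Br i) ∧ φ v = 0 ∧ φ w = 0 ∧
          qf n L v = 1 ∧ qf n L w = 1 ∧ bf n L v w = 1

/-- **REP.** Representations: `A` is a central subgroup of exponent two of the finite group `N`,
`A₀ ≤ A`, and for each character `χ` of `A` which is not trivial on `A₀` there are two elements `g`,
`h` of `N` with `χ(g²) = χ(h²) = χ([g, h]) = -1`. -/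
def S_REP : Prop := ∀ (N : Type) [Group N] [Finite N] (V : Type) [AddCommGroup V] [Module ℝ V]
  [FiniteDimensional ℝ V] (ρ : N →* (V →ₗ[ℝ] V)) (A A₀ : Subgroup N),
  (∀ z ∈ A, z ^ 2 = 1) → (∀ z ∈ A, ∀ g : N, z * g = g * z) → A₀ ≤ A →
  (∀ χ : A →* ℤˣ, (∃ z : A, (z : N) ∈ A₀ ∧ χ z = -1) →
    ∃ (g h : N) (hg : g ^ 2 ∈ A) (hh : h ^ 2 ∈ A) (hc : g * h * g⁻¹ * h⁻¹ ∈ A),
      χ ⟨g ^ 2, hg⟩ = -1 ∧ χ ⟨h ^ 2, hh⟩ = -1 ∧ χ ⟨g * h * g⁻¹ * h⁻¹, hc⟩ = -1) →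
  Nat.card A₀ ≤ Nat.card (A₀ ⊓ ρ.ker : Subgroup N) * 2 ^ (finrank ℝ V / 4)

end Pool.Agent.Helper47.ZQ
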