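import Pool.Agent.Helper47.ZQ.Diag

/-!
# Normal subgroups of the elementary group: from block matrices to all elementary matrices
-/

set_option autoImplicit false

namespace Pool.Agent.Helper47.ZQ

open Matrix Pool.Agent.X183.ZM

variable {O : Type} [Ring O] {n : ℕ}

/-- `E(N)`: `N` is a subgroup normalized by the elementary matrices -/
def ENorm (N : Subgroup (Matrix (Fin n) (Fin n) O)ˣ) : Prop :=
  ∀ g ∈ N, ∀ i j : Fin n, ∀ h : i ≠ j, ∀ x : O, El i j h x * g * (El i j h x)⁻¹ ∈ N

theorem El_inv {i j : Fin n} (h : i ≠ j) (x : O) : (El i j h x)⁻¹ = El i j h (-x) := by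
  apply inv_eq_of_mul_eq_one_right
  rw [← El_add, add_neg_cancel, El_zero]

theorem comm_l {N : Subgroup (Matrix (Fin n) (Fin n) O)ˣ} (hN : ENorm N) {i j k : Fin n}
    (h : i ≠ j) (h' : j ≠ k) (h'' : i ≠ k) {x : O} (y : O) (hx : El i j h x ∈ N) :
    El i k h'' (x * y) ∈ N := by
  have e := El_comm3 h h' h'' x y
  have e2 : El i k h'' (x * y) = El i j h x * (El j k h' y * El i j h x * (El j k h' y)⁻¹)⁻¹ := by
    have : El i k h'' (x * y) = El i j h x * El j k h' y * (El j k h' y * El i j h x)⁻¹ := by
      rw [e, mul_assoc, mul_inv_cancel, mul_one]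
    rw [this]
    group
  rw [e2]
  exact mul_mem hx (inv_mem (hN _ hx _ _ _ _))

theorem comm_r {N : Subgroup (Matrix (Fin n) (Fin n) O)ˣ} (hN : ENorm N) {i j k : Fin n}
    (h : i ≠ j) (h' : j ≠ k) (h'' : i ≠ k) (x : O) {y : O} (hy : El j k h' y ∈ N) :
    El i k h'' (x * y) ∈ N := by
  have e := El_comm3 h h' h'' x y
  have e2 : El i k h'' (x * y) = (El i j h x * El j k h' y * (El i j h x)⁻¹) *
      (El j k h' y)⁻¹ := by
    have : El i k h'' (x * y) = El i j h x * El j k h' y * (El j k h' y * El i j h x)⁻¹ := by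
      rw [e, mul_assoc, mul_inv_cancel, mul_one]
    rw [this]
    group
  rw [e2]
  exact mul_mem (hN _ hy _ _ _ _) (inv_mem hy)

/-- one elementary matrix gives those at all other places -/
theorem spread (hn : 3 ≤ n) {N : Subgroup (Matrix (Fin n) (Fin n) O)ˣ} (hN : ENorm N)
    {i j : Fin n} (h : i ≠ j) {x : O} (hx : El i j h x ∈ N) (k l : Fin n) (hkl : k ≠ l) :
    El k l hkl x ∈ N := by
  have row : ∀ {a b : Fin n} (hab : a ≠ b), El a b hab x ∈ N → ∀ {c : Fin n} (hac : a ≠ c),
      El a c hac x ∈ N := by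
    intro a b hab hh c hac
    rcases eq_or_ne b c with rfl | hbc
    · exact hh
    · have := comm_l hN hab hbc hac 1 hh
      rwa [mul_one] at this
  have col : ∀ {a b : Fin n} (hab : a ≠ b), El a b hab x ∈ N → ∀ {c : Fin n} (hcb : c ≠ b),
      El c b hcb x ∈ N := by
    intro a b hab hh c hcb
    rcases eq_or_ne c a with rfl | hca
    · exact hh
    · have := comm_r hN hca hab hcb 1 hh
      rwa [one_mul] at this
  obtain ⟨m, hmi, hmk⟩ : ∃ m : Fin n, m ≠ i ∧ m ≠ k := by
    by_contra hcon
    push Not at hcon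
    have h3 : (Finset.univ : Finset (Fin n)) ⊆ {i, k} := by
      intro m _
      by_cases hm : m = i
      · simp [hm]
      · simp [hcon m hm]
    have h4 := Finset.card_le_card h3
    rw [Finset.card_univ, Fintype.card_fin] at h4
    have h5 := Finset.card_le_two (a := i) (b := k)
    omega
  exact row hmk.symm (col hmi.symm (row h hx hmi.symm) hmk.symm) hkl

/-- the matrix `1 + E_ij` gives all elementary matrices -/
theorem all_of_one (hn : 3 ≤ n) {N : Subgroup (Matrix (Fin n) (Fin n) O)ˣ} (hN : ENorm N)
    {i j : Fin n} (h : i ≠ j) (hx : El i j h (1 : O) ∈ N) (k l : Fin n) (hkl : k ≠ l) (y : O) :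
    El k l hkl y ∈ N := by
  obtain ⟨m, hmk, hml⟩ : ∃ m : Fin n, m ≠ k ∧ m ≠ l := by
    by_contra hcon
    push Not at hcon
    have h3 : (Finset.univ : Finset (Fin n)) ⊆ {k, l} := by
      intro m _
      by_cases hm : m = k
      · simp [hm]
      · simp [hcon m hm]
    have h4 := Finset.card_le_card h3
    rw [Finset.card_univ, Fintype.card_fin] at h4
    have h5 := Finset.card_le_two (a := k) (b := l)
    omega
  have := comm_l hN hmk.symm hml hkl y (spread hn hN h hx k m hmk.symm)
  rwa [one_mul] at this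

/-- a diagonal sign matrix with both signs gives the elementary matrices with even entries -/
theorem even (u : QuaternionGroup 2 →* O) (hz : u (QuaternionGroup.a 2) = -1) (hn : 3 ≤ n)
    {N : Subgroup (Matrix (Fin n) (Fin n) O)ˣ} (hN : ENorm N) (ε : Fin n → ZMod 2)
    {i j : Fin n} (hε : ε i ≠ ε j) (hs : quatDiag u n (fun k => sgn (ε k)) ∈ N)
    (k l : Fin n) (hkl : k ≠ l) (x : O) : El k l hkl (2 * x) ∈ N := by
  have hij : i ≠ j := fun h => hε (by rw [h])
  refine spread hn hN hij ?_ k l hkl
  set s := quatDiag u n (fun k => sgn (ε k)) with hsd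
  have hv : ∀ e : ZMod 2, u (sgn e) = if e = 0 then 1 else -1 := by
    intro e
    have : e = 0 ∨ e = 1 := by
      revert e
      decide
    rcases this with rfl | rfl
    · rw [sgn_zero, map_one, if_pos rfl]
    · rw [sgn_one, hz, if_neg (by decide)]
  have hinv : ∀ e : ZMod 2, (sgn e)⁻¹ = sgn e := by decide
  have h1 : s * El i j hij x = El i j hij (-x) * s := by
    rw [hsd, quatDiag_El]
    congr 2
    show u (sgn (ε i)) * x * u (sgn (ε j))⁻¹ = -x
    rw [hinv, hv, hv]
    have h2 : (ε i = 0 ∧ ε j ≠ 0) ∨ (ε i ≠ 0 ∧ ε j = 0) := by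
      revert hε
      generalize ε i = e
      generalize ε j = f
      revert e f
      decide
    rcases h2 with ⟨h2, h3⟩ | ⟨h2, h3⟩
    · rw [if_pos h2, if_neg h3]
      simp
    · rw [if_neg h2, if_pos h3]
      simp
  -- `s e(x) s⁻¹ = e(-x)`, so `e(2x) = e(x) e(-x)⁻¹ = e(x) s e(x)⁻¹ s⁻¹`
  have h2 : El i j hij (2 * x) = (El i j hij x * s * (El i j hij x)⁻¹) * s⁻¹ := by
    have h3 : s * (El i j hij x)⁻¹ = El i j hij x * s := by
      rw [El_inv]
      have h4 := h1
      have : s * El i j hij (-x) = El i j hij x * s := by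
        have h5 : El i j hij x * s * El i j hij x = s := by
          have e1 : El i j hij x * s * El i j hij x = El i j hij x * (s * El i j hij x) := by
            rw [mul_assoc]
          rw [e1, h1, ← mul_assoc, ← El_add, add_neg_cancel, El_zero, one_mul]
        calc s * El i j hij (-x) = El i j hij x * s * El i j hij x * El i j hij (-x) := by rw [h5]
          _ = El i j hij x * s := by
            rw [mul_assoc (El i j hij x * s), ← El_add, add_neg_cancel, El_zero, mul_one]
      exact this
    rw [mul_assoc (El i j hij x) s, h3, ← mul_assoc, ← El_add, mul_assoc, mul_inv_cancel, mul_one,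
      two_mul]
  rw [h2]
  exact mul_mem (hN _ hs _ _ _ _) (inv_mem hs)

/-! ### Block matrices -/

/-- nonzero entries only in the rows `< a` and columns `≥ a` -/
def IsBl (a : ℕ) (B : Matrix (Fin n) (Fin n) O) : Prop :=
  ∀ i j, B i j ≠ 0 → (i : ℕ) < a ∧ a ≤ (j : ℕ)

theorem IsBl.mul {a : ℕ} {B C : Matrix (Fin n) (Fin n) O} (hB : IsBl a B) (hC : IsBl a C) :
    B * C = 0 := by
  ext i j
  rw [Matrix.mul_apply]
  apply Finset.sum_eq_zero
  intro k _
  by_contra h
  have h1 : B i k ≠ 0 := fun h0 => h (by rw [h0, zero_mul])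
  have h2 : C k j ≠ 0 := fun h0 => h (by rw [h0, mul_zero])
  have h3 := (hB _ _ h1).2
  have h4 := (hC _ _ h2).1
  omega

/-- the matrix `1 + B` -/
def UB {a : ℕ} (B : Matrix (Fin n) (Fin n) O) (hB : IsBl a B) : (Matrix (Fin n) (Fin n) O)ˣ where
  val := 1 + B
  inv := 1 - B
  val_inv := by
    rw [mul_sub, mul_one, add_mul, one_mul, hB.mul hB]
    abel
  inv_val := by
    rw [mul_add, mul_one, sub_mul, one_mul, hB.mul hB]
    abel

theorem UB_val {a : ℕ} (B : Matrix (Fin n) (Fin n) O) (hB : IsBl a B) :
    ((UB B hB : (Matrix (Fin n) (Fin n) O)ˣ) : Matrix (Fin n) (Fin n) O) = 1 + B := rfl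

theorem IsBl.add {a : ℕ} {B C : Matrix (Fin n) (Fin n) O} (hB : IsBl a B) (hC : IsBl a C) :
    IsBl a (B + C) := by
  intro i j h
  by_cases h1 : B i j = 0
  · apply hC
    intro h2
    apply h
    rw [Matrix.add_apply, h1, h2, add_zero]
  · exact hB i j h1

theorem UB_add {a : ℕ} {B C : Matrix (Fin n) (Fin n) O} (hB : IsBl a B) (hC : IsBl a C) :
    UB (B + C) (hB.add hC) = UB B hB * UB C hC := by
  apply Units.ext
  rw [Units.val_mul, UB_val, UB_val, UB_val, mul_add, mul_one, add_mul, one_mul, hB.mul hC]
  abel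

open scoped Classical in
/-- block matrices with entries in `T` are in the group generated by elementary matrices -/
theorem gen {a : ℕ} (Λ : Subgroup (Matrix (Fin n) (Fin n) O)ˣ) (T : Set O)
    (h0 : (0 : O) ∈ T) (h : ∀ i j, ∀ hij : i ≠ j, ∀ y ∈ T, El i j hij y ∈ Λ) :
    ∀ (m : ℕ) (B : Matrix (Fin n) (Fin n) O) (hB : IsBl a B), (∀ i j, B i j ∈ T) →
      (Finset.univ.filter (fun p : Fin n × Fin n => B p.1 p.2 ≠ 0)).card ≤ m → UB B hB ∈ Λ := by
  intro m
  induction m with
  | zero =>
    intro B hB hT hc
    have h1 : B = 0 := by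
      ext i j
      by_contra h2
      have h3 : (i, j) ∈ Finset.univ.filter (fun p : Fin n × Fin n => B p.1 p.2 ≠ 0) := by
        simp only [Finset.mem_filter, Finset.mem_univ, true_and]
        exact h2
      have := Finset.card_pos.2 ⟨_, h3⟩
      omega
    have h2 : UB B hB = 1 := by
      apply Units.ext
      rw [UB_val, h1]
      simp
    rw [h2]
    exact one_mem _
  | succ m ih =>
    intro B hB hT hc
    by_cases hB0 : ∃ i j, B i j ≠ 0
    · obtain ⟨i, j, hij⟩ := hB0
      obtain ⟨h1, h2⟩ := hB i j hij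
      have hne : i ≠ j := fun h => by
        rw [h] at h1
        omega
      have hS : IsBl a (single i j (B i j)) := by
        intro k l hkl
        rw [Matrix.single_apply] at hkl
        split_ifs at hkl with h3
        · rw [← h3.1, ← h3.2]
          exact ⟨h1, h2⟩
        · exact absurd rfl hkl
      have hval : ∀ k l, (B - single i j (B i j)) k l = if i = k ∧ j = l then 0 else B k l := by
        intro k l
        rw [Matrix.sub_apply, Matrix.single_apply]
        split_ifs with h3
        · rw [← h3.1, ← h3.2, sub_self]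
        · rw [sub_zero]
      have hB' : IsBl a (B - single i j (B i j)) := by
        intro k l hkl
        rw [hval] at hkl
        split_ifs at hkl with h3
        · exact absurd rfl hkl
        · exact hB k l hkl
      have e : UB B hB = El i j hne (B i j) * UB _ hB' := by
        apply Units.ext
        have h3 := congrArg Units.val (UB_add hS hB')
        rw [Units.val_mul] at h3 ⊢
        rw [UB_val] at h3 ⊢
        rw [add_sub_cancel] at h3
        exact h3
      rw [e]
      refine mul_mem (h _ _ _ _ (hT i j)) (ih _ hB' ?_ ?_)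
      · intro k l
        rw [hval]
        split_ifs
        · exact h0
        · exact hT k l
      · have h4 : (Finset.univ.filter (fun p : Fin n × Fin n =>
            (B - single i j (B i j)) p.1 p.2 ≠ 0)) ⊆
            (Finset.univ.filter (fun p : Fin n × Fin n => B p.1 p.2 ≠ 0)).erase (i, j) := by
          intro p hp
          simp only [Finset.mem_filter, Finset.mem_univ, true_and, Finset.mem_erase] at hp ⊢
          rw [hval] at hp
          split_ifs at hp with h5
          · exact absurd rfl hp
          · refine ⟨fun h6 => h5 ?_, hp⟩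
            rw [h6]
            exact ⟨rfl, rfl⟩
        have h5 := Finset.card_le_card h4
        rw [Finset.card_erase_of_mem (by
          simp only [Finset.mem_filter, Finset.mem_univ, true_and]
          exact hij)] at h5
        omega
    · push Not at hB0
      have h2 : UB B hB = 1 := by
        apply Units.ext
        rw [UB_val]
        have : B = 0 := by
          ext i j
          exact hB0 i j
        rw [this]
        simp
      rw [h2]
      exact one_mem _

theorem gen' {a : ℕ} (Λ : Subgroup (Matrix (Fin n) (Fin n) O)ˣ) (T : Set O)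
    (h0 : (0 : O) ∈ T) (h : ∀ i j, ∀ hij : i ≠ j, ∀ y ∈ T, El i j hij y ∈ Λ)
    (B : Matrix (Fin n) (Fin n) O) (hB : IsBl a B) (hT : ∀ i j, B i j ∈ T) : UB B hB ∈ Λ :=
  gen Λ T h0 h _ B hB hT le_rfl

/-- a block matrix with an entry `1` gives all elementary matrices -/
theorem all_of_block {a : ℕ} (hn : 3 ≤ n) (ha : 2 ≤ a) {N : Subgroup (Matrix (Fin n) (Fin n) O)ˣ}
    (hN : ENorm N) (B : Matrix (Fin n) (Fin n) O) (hB : IsBl a B) (hBN : UB B hB ∈ N)
    {k l : Fin n} (hk : (k : ℕ) < a) (hl : a ≤ (l : ℕ)) (h1 : B k l = 1) (i j : Fin n) (hij : i ≠ j)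
    (y : O) : El i j hij y ∈ N := by
  obtain ⟨p, hpk, hpa⟩ : ∃ p : Fin n, p ≠ k ∧ (p : ℕ) < a := by
    by_cases h0 : (k : ℕ) = 0
    · refine ⟨⟨1, by omega⟩, ?_, by show 1 < a; omega⟩
      intro h
      have := congrArg Fin.val h
      simp only at this
      omega
    · refine ⟨⟨0, by omega⟩, ?_, by show 0 < a; omega⟩
      intro h
      have := congrArg Fin.val h
      simp only at this
      omega
  have hpl : p ≠ l := fun h => by
    rw [h] at hpa
    omega
  have hkl : k ≠ l := fun h => by
    rw [h] at hk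
    omega
  -- first commutator
  have hpB : single p k (1 : O) * B = Matrix.of fun r c => if r = p then B k c else 0 := by
    ext r c
    rw [Matrix.of_apply]
    split_ifs with hr
    · rw [hr, Matrix.single_mul_apply_same, one_mul]
    · rw [Matrix.single_mul_apply_of_ne _ _ _ _ _ hr]
  have hPB : IsBl a (single p k (1 : O) * B) := by
    intro r c hrc
    rw [hpB, Matrix.of_apply] at hrc
    split_ifs at hrc with h2
    · rw [h2]
      exact ⟨hpa, (hB k c hrc).2⟩
    · exact absurd rfl hrc
  have hBp : B * single p k (1 : O) = 0 := by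
    ext r c
    rw [Matrix.zero_apply]
    rcases eq_or_ne c k with rfl | hc
    · rw [Matrix.mul_single_apply_same, mul_one]
      by_contra h2
      have := (hB r p h2).2
      omega
    · rw [Matrix.mul_single_apply_of_ne _ _ _ _ _ hc]
  have hCp : single p k (1 : O) * B * single p k (1 : O) = 0 := by
    rw [mul_assoc, hBp, mul_zero]
  have e1 : El p k hpk (1 : O) * UB B hB * (El p k hpk (1 : O))⁻¹ = UB _ hPB * UB B hB := by
    rw [mul_inv_eq_iff_eq_mul]
    apply Units.ext
    rw [← UB_add hPB hB, Units.val_mul, Units.val_mul, UB_val, UB_val, El_val]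
    simp only [mul_add, add_mul, mul_one, one_mul, hBp, hCp, add_zero]
    abel
  have hY : UB _ hPB ∈ N := by
    have h2 := hN _ hBN p k hpk 1
    rw [e1] at h2
    exact (Subgroup.mul_mem_cancel_right N hBN).1 h2
  -- second commutator
  have t1 : single l k (1 : O) * (single p k (1 : O) * B) = 0 := by
    rw [← mul_assoc, Matrix.single_mul_single_of_ne _ _ _ _ hpk.symm, zero_mul]
  have t2 : single p k (1 : O) * (single p k (1 : O) * B) = 0 := by
    rw [← mul_assoc, Matrix.single_mul_single_of_ne _ _ _ _ hpk.symm, zero_mul]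
  have t3 : single p k (1 : O) * single l k (1 : O) = 0 :=
    Matrix.single_mul_single_of_ne _ _ _ _ hkl _
  have t4 : single p k (1 : O) * B * single l k (1 : O) = single p k 1 := by
    rw [Matrix.single_mul_mul_single, h1, one_mul, one_mul]
  have e2 : El l k hkl.symm (1 : O) * UB _ hPB * (El l k hkl.symm (1 : O))⁻¹ =
      El p k hpk (-1) * UB _ hPB := by
    rw [mul_inv_eq_iff_eq_mul]
    apply Units.ext
    rw [Units.val_mul, Units.val_mul, Units.val_mul, UB_val, El_val, El_val, sn]
    simp only [mul_add, add_mul, mul_one, one_mul, neg_mul, t1, t2, t3, t4, add_zero, neg_zero]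
    abel
  have h2 := hN _ hY l k hkl.symm 1
  rw [e2] at h2
  have h3 := (Subgroup.mul_mem_cancel_right N hY).1 h2
  have h4 := inv_mem h3
  rw [El_inv, neg_neg] at h4
  exact all_of_one hn hN hpk h4 i j hij y

end Pool.Agent.Helper47.ZQ
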