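import Pool.Agent.Helper47.ZQ.Base

/-!
# The module COMB: the combinatorial core
-/

set_option autoImplicit false

namespace Pool.Agent.Helper47.ZQ.Comb

open Module Pool.Agent.Helper47.ZQ

theorem xp_add (v w : ℕ → ZMod 2) (l : ℕ) : xp (v + w) l = xp v l + xp w l := by
  unfold xp
  split_ifs <;> (try simp only [Pi.add_apply]) <;> ring

theorem zp_add (v w : ℕ → ZMod 2) (l : ℕ) : zp (v + w) l = zp v l + zp w l := by
  unfold zp
  split_ifs <;> (try simp only [Pi.add_apply]) <;> ring

theorem xp_smul (c : ZMod 2) (v : ℕ → ZMod 2) (l : ℕ) : xp (c • v) l = c * xp v l := by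
  unfold xp
  split_ifs <;> (try simp only [Pi.smul_apply, smul_eq_mul]) <;> ring

theorem zp_smul (c : ZMod 2) (v : ℕ → ZMod 2) (l : ℕ) : zp (c • v) l = c * zp v l := by
  unfold zp
  split_ifs <;> (try simp only [Pi.smul_apply, smul_eq_mul]) <;> ring

variable (n : ℕ) (L : ℕ → ZMod 2)

theorem qf_add (v w : ℕ → ZMod 2) : qf n L (v + w) = qf n L v + qf n L w + bf n L v w := by
  unfold qf bf
  rw [← Finset.sum_add_distrib, ← Finset.sum_add_distrib]
  refine Finset.sum_congr rfl fun l _ => ?_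
  unfold wt
  rw [xp_add, zp_add]
  ring

theorem bf_add_left (v v' w : ℕ → ZMod 2) : bf n L (v + v') w = bf n L v w + bf n L v' w := by
  unfold bf
  rw [← Finset.sum_add_distrib]
  refine Finset.sum_congr rfl fun l _ => ?_
  rw [xp_add, zp_add]
  ring

theorem bf_comm (v w : ℕ → ZMod 2) : bf n L v w = bf n L w v := by
  unfold bf
  refine Finset.sum_congr rfl fun l _ => ?_
  ring

theorem bf_add_right (v w w' : ℕ → ZMod 2) : bf n L v (w + w') = bf n L v w + bf n L v w' := by
  rw [bf_comm, bf_add_left, bf_comm n L w v, bf_comm n L w' v]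

theorem bf_smul_left (c : ZMod 2) (v w : ℕ → ZMod 2) : bf n L (c • v) w = c * bf n L v w := by
  unfold bf
  rw [Finset.mul_sum]
  refine Finset.sum_congr rfl fun l _ => ?_
  rw [xp_smul, zp_smul]
  ring

theorem bf_smul_right (c : ZMod 2) (v w : ℕ → ZMod 2) : bf n L v (c • w) = c * bf n L v w := by
  rw [bf_comm, bf_smul_left, bf_comm n L w v]

theorem bf_self (v : ℕ → ZMod 2) : bf n L v v = 0 := by
  unfold bf
  refine Finset.sum_eq_zero fun l _ => ?_
  have h : xp v l * zp v l + zp v l * xp v l = 0 := by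
    rw [mul_comm (zp v l)]
    exact CharTwo.add_self_eq_zero _
  rw [h, mul_zero]

theorem qf_zero : qf n L 0 = 0 := by
  have h := qf_add n L 0 0
  rw [add_zero, bf_self, add_zero] at h
  have h2 : qf n L 0 + qf n L 0 = 0 := CharTwo.add_self_eq_zero _
  rw [h2] at h
  exact h

theorem zmod2 (c : ZMod 2) : c = 0 ∨ c = 1 := by
  revert c
  decide

theorem qf_smul (c : ZMod 2) (v : ℕ → ZMod 2) : qf n L (c • v) = c * qf n L v := by
  rcases zmod2 c with rfl | rfl
  · rw [zero_smul, zero_mul, qf_zero]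
  · rw [one_smul, one_mul]

theorem bf_zero_left (w : ℕ → ZMod 2) : bf n L 0 w = 0 := by
  have h := bf_smul_left n L 0 0 w
  rwa [zero_smul, zero_mul] at h

theorem bf_sum_left {ι : Type} [DecidableEq ι] (s : Finset ι) (u : ι → ℕ → ZMod 2) (w : ℕ → ZMod 2) :
    bf n L (∑ j ∈ s, u j) w = ∑ j ∈ s, bf n L (u j) w := by
  induction s using Finset.induction_on with
  | empty => rw [Finset.sum_empty, Finset.sum_empty, bf_zero_left]
  | insert a s ha ih => rw [Finset.sum_insert ha, Finset.sum_insert ha, bf_add_left, ih]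

theorem bf_sum_right {ι : Type} [DecidableEq ι] (s : Finset ι) (u : ι → ℕ → ZMod 2) (w : ℕ → ZMod 2) :
    bf n L w (∑ j ∈ s, u j) = ∑ j ∈ s, bf n L w (u j) := by
  rw [bf_comm, bf_sum_left]
  exact Finset.sum_congr rfl fun j _ => bf_comm n L _ _

theorem qf_sum {ι : Type} [DecidableEq ι] (s : Finset ι) (u : ι → ℕ → ZMod 2)
    (h : ∀ i j, i ≠ j → bf n L (u i) (u j) = 0) :
    qf n L (∑ j ∈ s, u j) = ∑ j ∈ s, qf n L (u j) := by
  induction s using Finset.induction_on with
  | empty => rw [Finset.sum_empty, Finset.sum_empty, qf_zero]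
  | insert a s ha ih =>
    rw [Finset.sum_insert ha, Finset.sum_insert ha, qf_add, ih, bf_sum_right]
    rw [Finset.sum_eq_zero fun j hj => h a j (by rintro rfl; exact ha hj), add_zero]

/-- elements with distant supports are orthogonal -/
theorem bf_far (v w : ℕ → ZMod 2) (p q : ℕ) (hpq : p + 8 ≤ q)
    (hv : ∀ i, (i + 3 < p ∨ p + 1 < i) → v i = 0) (hw : ∀ i, (i + 3 < q ∨ q + 1 < i) → w i = 0) :
    bf n L v w = 0 := by
  unfold bf
  refine Finset.sum_eq_zero fun l _ => ?_
  by_cases hl : l ≤ p + 4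
  · have h1 : xp w l = 0 := by
      unfold xp
      rw [hw l (Or.inl (by omega))]
      split_ifs with h
      · rw [hw (l - 3) (Or.inl (by omega)), add_zero]
      · rw [add_zero]
    have h2 : zp w l = 0 := by
      unfold zp
      split_ifs with h h'
      · rw [hw (l - 1) (Or.inl (by omega)), hw (l - 2) (Or.inl (by omega)), add_zero]
      · rw [hw (l - 1) (Or.inl (by omega)), add_zero]
      · rw [hw (l - 2) (Or.inl (by omega)), add_zero]
      · rw [add_zero]
    rw [h1, h2]
    ring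
  · have h1 : xp v l = 0 := by
      unfold xp
      rw [hv l (Or.inr (by omega))]
      split_ifs with h
      · rw [hv (l - 3) (Or.inr (by omega)), add_zero]
      · rw [add_zero]
    have h2 : zp v l = 0 := by
      unfold zp
      split_ifs with h h'
      · rw [hv (l - 1) (Or.inr (by omega)), hv (l - 2) (Or.inr (by omega)), add_zero]
      · rw [hv (l - 1) (Or.inr (by omega)), add_zero]
      · rw [hv (l - 2) (Or.inr (by omega)), add_zero]
      · rw [add_zero]
    rw [h1, h2]
    ring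

/-! ### Counting -/

theorem card_near (x a b : ℕ) : (Finset.Icc (x - a) (x + b)).card ≤ a + b + 1 := by
  rw [Nat.card_Icc]
  omega

/-- no break near `p` -/
def Fr (Br : Finset ℕ) (p : ℕ) : Prop := ∀ x ∈ Br, ¬ (p ≤ x + 3 ∧ x ≤ p + 3)

open Classical in
theorem card_P (n : ℕ) (Br Γ : Finset ℕ) :
    n ≤ ((Finset.range n).filter fun p => 3 ≤ p ∧ p + 4 < n ∧ Fr Br p ∧
      ∀ g ∈ Γ, ¬ (p ≤ g + 3 ∧ g ≤ p + 1)).card + (7 + 7 * Br.card + 5 * Γ.card) := by
  set P := (Finset.range n).filter fun p => 3 ≤ p ∧ p + 4 < n ∧ Fr Br p ∧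
      ∀ g ∈ Γ, ¬ (p ≤ g + 3 ∧ g ≤ p + 1) with hP
  have hsub : Finset.range n ⊆ P ∪ (Finset.range 3 ∪ (Finset.Icc (n - 4) (n - 1) ∪
      ((Br.biUnion fun x => Finset.Icc (x - 3) (x + 3)) ∪
        (Γ.biUnion fun x => Finset.Icc (x - 1) (x + 3))))) := by
    intro p hp
    rw [Finset.mem_range] at hp
    by_contra hcon
    simp only [Finset.mem_union, not_or] at hcon
    obtain ⟨h1, h2, h3, h4, h5⟩ := hcon
    apply h1
    rw [hP, Finset.mem_filter]
    rw [Finset.mem_range, not_lt] at h2
    rw [Finset.mem_Icc, not_and, not_le] at h3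
    refine ⟨Finset.mem_range.2 hp, h2, ?_, ?_, ?_⟩
    · by_contra h6
      have := h3 (by omega)
      omega
    · rintro x hx ⟨h6, h7⟩
      apply h4
      rw [Finset.mem_biUnion]
      exact ⟨x, hx, Finset.mem_Icc.2 ⟨by omega, by omega⟩⟩
    · rintro x hx ⟨h6, h7⟩
      apply h5
      rw [Finset.mem_biUnion]
      exact ⟨x, hx, Finset.mem_Icc.2 ⟨by omega, by omega⟩⟩
  have h0 := Finset.card_le_card hsub
  rw [Finset.card_range] at h0
  have e1 := Finset.card_union_le P (Finset.range 3 ∪ (Finset.Icc (n - 4) (n - 1) ∪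
      ((Br.biUnion fun x => Finset.Icc (x - 3) (x + 3)) ∪
        (Γ.biUnion fun x => Finset.Icc (x - 1) (x + 3)))))
  have e2 := Finset.card_union_le (Finset.range 3) (Finset.Icc (n - 4) (n - 1) ∪
      ((Br.biUnion fun x => Finset.Icc (x - 3) (x + 3)) ∪
        (Γ.biUnion fun x => Finset.Icc (x - 1) (x + 3))))
  have e3 := Finset.card_union_le (Finset.Icc (n - 4) (n - 1))
      ((Br.biUnion fun x => Finset.Icc (x - 3) (x + 3)) ∪
        (Γ.biUnion fun x => Finset.Icc (x - 1) (x + 3)))
  have e4 := Finset.card_union_le (Br.biUnion fun x => Finset.Icc (x - 3) (x + 3))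
        (Γ.biUnion fun x => Finset.Icc (x - 1) (x + 3))
  have e5 : (Br.biUnion fun x => Finset.Icc (x - 3) (x + 3)).card ≤ Br.card * 7 :=
    Finset.card_biUnion_le_card_mul _ _ _ fun x _ => card_near x 3 3
  have e6 : (Γ.biUnion fun x => Finset.Icc (x - 1) (x + 3)).card ≤ Γ.card * 5 :=
    Finset.card_biUnion_le_card_mul _ _ _ fun x _ => card_near x 1 3
  have e7 : (Finset.Icc (n - 4) (n - 1)).card ≤ 4 := by
    rw [Nat.card_Icc]
    omega
  rw [Finset.card_range] at e2
  omega

/-- `L` is not constant on the support of the generator `i` -/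
def Act (L : ℕ → ZMod 2) (i : ℕ) : Prop :=
  ¬ (L i = L (i + 1) ∧ L (i + 1) = L (i + 2) ∧ L (i + 2) = L (i + 3))

open Classical in
/-- many active generators give many good jumps -/
theorem card_jumps (n : ℕ) (Br : Finset ℕ) (L : ℕ → ZMod 2) (κ : ℕ)
    (h : 3 * (8 * κ + 22 + 7 * Br.card) <
      ((Finset.range n).filter fun i => Vl n Br i ∧ Act L i).card) :
    8 * (κ + 2) < ((Finset.range n).filter fun q => L q ≠ L (q + 1) ∧ 3 ≤ q ∧ q + 4 < n ∧
      Fr Br q).card := by
  set A := (Finset.range n).filter fun i => Vl n Br i ∧ Act L i with hA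
  set Jm := (Finset.range (n - 1)).filter fun q => L q ≠ L (q + 1) with hJ
  set G := (Finset.range n).filter fun q => L q ≠ L (q + 1) ∧ 3 ≤ q ∧ q + 4 < n ∧ Fr Br q with hG
  have h1 : A ⊆ Jm.biUnion fun q => Finset.Icc (q - 2) (q + 0) := by
    intro i hi
    rw [hA, Finset.mem_filter] at hi
    obtain ⟨-, ⟨h2, -⟩, h3⟩ := hi
    rw [Finset.mem_biUnion]
    by_cases ha : L i = L (i + 1)
    · by_cases hb : L (i + 1) = L (i + 2)
      · have hc : L (i + 2) ≠ L (i + 3) := fun hc => h3 ⟨ha, hb, hc⟩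
        refine ⟨i + 2, ?_, Finset.mem_Icc.2 ⟨by omega, by omega⟩⟩
        rw [hJ, Finset.mem_filter]
        exact ⟨Finset.mem_range.2 (by omega), hc⟩
      · refine ⟨i + 1, ?_, Finset.mem_Icc.2 ⟨by omega, by omega⟩⟩
        rw [hJ, Finset.mem_filter]
        exact ⟨Finset.mem_range.2 (by omega), hb⟩
    · refine ⟨i, ?_, Finset.mem_Icc.2 ⟨by omega, by omega⟩⟩
      rw [hJ, Finset.mem_filter]
      exact ⟨Finset.mem_range.2 (by omega), ha⟩
  have h2 : A.card ≤ Jm.card * 3 := (Finset.card_le_card h1).trans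
    (Finset.card_biUnion_le_card_mul _ _ _ fun x _ => card_near x 2 0)
  have h3 : Jm ⊆ G ∪ (Finset.range 3 ∪ (Finset.Icc (n - 4) (n - 2) ∪
      (Br.biUnion fun x => Finset.Icc (x - 3) (x + 3)))) := by
    intro q hq
    rw [hJ, Finset.mem_filter, Finset.mem_range] at hq
    by_contra hcon
    simp only [Finset.mem_union, not_or] at hcon
    obtain ⟨c1, c2, c3, c4⟩ := hcon
    apply c1
    rw [hG, Finset.mem_filter]
    rw [Finset.mem_range, not_lt] at c2
    rw [Finset.mem_Icc, not_and, not_le] at c3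
    refine ⟨Finset.mem_range.2 (by omega), hq.2, c2, ?_, ?_⟩
    · by_contra h6
      have := c3 (by omega)
      omega
    · rintro x hx ⟨h6, h7⟩
      apply c4
      rw [Finset.mem_biUnion]
      exact ⟨x, hx, Finset.mem_Icc.2 ⟨by omega, by omega⟩⟩
  have h0 := Finset.card_le_card h3
  have e1 := Finset.card_union_le G (Finset.range 3 ∪ (Finset.Icc (n - 4) (n - 2) ∪
      (Br.biUnion fun x => Finset.Icc (x - 3) (x + 3))))
  have e2 := Finset.card_union_le (Finset.range 3) (Finset.Icc (n - 4) (n - 2) ∪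
      (Br.biUnion fun x => Finset.Icc (x - 3) (x + 3)))
  have e3 := Finset.card_union_le (Finset.Icc (n - 4) (n - 2))
      (Br.biUnion fun x => Finset.Icc (x - 3) (x + 3))
  have e5 : (Br.biUnion fun x => Finset.Icc (x - 3) (x + 3)).card ≤ Br.card * 7 :=
    Finset.card_biUnion_le_card_mul _ _ _ fun x _ => card_near x 3 3
  have e7 : (Finset.Icc (n - 4) (n - 2)).card ≤ 3 := by
    rw [Nat.card_Icc]
    omega
  rw [Finset.card_range] at e2
  omega

/-- the windows of a good jump consist of valid generators -/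
theorem vl_window {n : ℕ} {Br : Finset ℕ} {q : ℕ} (hq : q + 4 < n) (hF : Fr Br q) {i : ℕ}
    (h1 : q ≤ i + 3) (h2 : i ≤ q + 1) : Vl n Br i := by
  refine ⟨by omega, fun h => ?_, fun h => ?_, fun h => ?_⟩
  · exact hF _ h ⟨by omega, by omega⟩
  · exact hF _ h ⟨by omega, by omega⟩
  · exact hF _ h ⟨by omega, by omega⟩

end Pool.Agent.Helper47.ZQ.Comb

namespace Pool.Agent.Helper47.ZQ

open Module Comb

/-- **COMB** -/
theorem comb (h1 : S_WIN) (h2 : S_CONST) (h3 : S_ISO) (h4 : S_GAM) : S_COMB := by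
  classical
  intro κ n Br φ
  obtain ⟨Γ', hΓ', hgam⟩ := h4 κ (3 * (8 * κ + 22 + 7 * Br.card)) (Vl n Br) φ
  refine ⟨(Finset.range n).filter fun p => 3 ≤ p ∧ p + 4 < n ∧ Fr Br p ∧
      ∀ g ∈ Γ', ¬ (p ≤ g + 3 ∧ g ≤ p + 1), fun p hp => ?_, ?_, ?_⟩
  · rw [Finset.mem_filter] at hp
    refine ⟨by omega, fun h => hp.2.2.2.1 p h ⟨by omega, by omega⟩⟩
  · have h5 := card_P n Br Γ'
    have h6 : 7 + 7 * Br.card + 5 * Γ'.card ≤ KK κ Br.card := by
      unfold KK
      have h7 : 5 * Γ'.card ≤ 5 * (κ * (3 * (8 * κ + 22 + 7 * Br.card))) :=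
        Nat.mul_le_mul_left 5 hΓ'
      have h8 : 5 * (κ * (3 * (8 * κ + 22 + 7 * Br.card))) =
          15 * κ * (8 * κ + 22 + 7 * Br.card) := by ring
      omega
    omega
  · intro L p hp hL
    rw [Finset.mem_filter] at hp
    obtain ⟨-, hp3, hpn, hpF, hpΓ⟩ := hp
    by_cases hcase : ((Finset.range n).filter fun i => Vl n Br i ∧ Act L i).card ≤
        3 * (8 * κ + 22 + 7 * Br.card)
    · -- few active generators
      obtain ⟨a, b, hab, ha, hb, hab1⟩ := h1 n p hp3 hpn L hL
      set W : Finset ℕ := Finset.Icc (p - 3) (p + 1) with hW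
      have hdis : Disjoint W Γ' := by
        rw [Finset.disjoint_left]
        intro g hg hg'
        rw [hW, Finset.mem_Icc] at hg
        exact hpΓ g hg' ⟨by omega, by omega⟩
      have hsup : ∀ v : ℕ → ZMod 2, (∀ i, (i + 3 < p ∨ p + 1 < i) → v i = 0) →
          ∀ i, v i ≠ 0 → i ∈ W ∧ Vl n Br i := by
        intro v hv i hi
        have h5 : ¬ (i + 3 < p ∨ p + 1 < i) := fun h => hi (hv i h)
        rw [not_or, not_lt, not_lt] at h5
        exact ⟨Finset.mem_Icc.2 ⟨by omega, h5.2⟩, vl_window hpn hpF h5.1 h5.2⟩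
      have hsa := hsup a fun i hi => (hab i hi).1
      have hsb := hsup b fun i hi => (hab i hi).2
      obtain ⟨r, hr, hφr⟩ := hgam W hdis _ hcase a hsa
      obtain ⟨s, hs, hφs⟩ := hgam W hdis _ hcase b hsb
      have hconst : ∀ t : ℕ → ZMod 2,
          (∀ i, t i ≠ 0 → i ∉ ((Finset.range n).filter fun i => Vl n Br i ∧ Act L i) ∧ Vl n Br i) →
          qf n L t = 0 ∧ ∀ v : ℕ → ZMod 2, bf n L v t = 0 := by
        intro t ht
        refine h2 n L t fun i hi => ?_
        obtain ⟨h5, h6⟩ := ht i hi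
        refine ⟨h6.1, ?_⟩
        by_contra h7
        apply h5
        rw [Finset.mem_filter]
        have h8 := h6.1
        exact ⟨Finset.mem_range.2 (by omega), h6, h7⟩
      obtain ⟨hr0, hr1⟩ := hconst r hr
      obtain ⟨hs0, hs1⟩ := hconst s hs
      have hval : ∀ u t : ℕ → ZMod 2, (∀ i, u i ≠ 0 → i ∈ W ∧ Vl n Br i) →
          (∀ i, t i ≠ 0 → i ∉ ((Finset.range n).filter fun i => Vl n Br i ∧ Act L i) ∧ Vl n Br i) →
          ∀ i, (u + t) i ≠ 0 → Vl n Br i := by
        intro u t hu ht i hi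
        by_cases hui : u i = 0
        · refine (ht i fun h => hi ?_).2
          rw [Pi.add_apply, hui, h, add_zero]
        · exact (hu i hui).2
      refine ⟨a + r, b + s, hval a r hsa hr, hval b s hsb hs, ?_, ?_, ?_, ?_, ?_⟩
      · rw [map_add, hφr]
        funext x
        exact CharTwo.add_self_eq_zero _
      · rw [map_add, hφs]
        funext x
        exact CharTwo.add_self_eq_zero _
      · rw [qf_add, hr0, hr1, ha]
        simp
      · rw [qf_add, hs0, hs1, hb]
        simp
      · rw [bf_add_left, bf_add_right, bf_add_right, hs1, hs1, bf_comm n L r b, hr1, hab1]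
        simp
    · -- many active generators
      rw [not_le] at hcase
      have hG := card_jumps n Br L κ hcase
      set G := (Finset.range n).filter fun q => L q ≠ L (q + 1) ∧ 3 ≤ q ∧ q + 4 < n ∧ Fr Br q
        with hGdef
      obtain ⟨y, -, hy⟩ := Finset.exists_lt_card_fiber_of_mul_lt_card_of_maps_to
        (s := G) (t := Finset.range 8) (f := fun q => q % 8) (n := κ + 2)
        (fun q _ => Finset.mem_range.2 (Nat.mod_lt _ (by norm_num)))
        (by rw [Finset.card_range]; exact hG)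
      obtain ⟨S, hS1, hS2⟩ := Finset.exists_subset_card_eq (show κ + 3 ≤
        (G.filter fun q => q % 8 = y).card from hy)
      set q : Fin (κ + 3) → ℕ := fun j => S.orderEmbOfFin hS2 j with hq
      have hqS : ∀ j, q j ∈ G ∧ q j % 8 = y := by
        intro j
        have h5 := hS1 (S.orderEmbOfFin_mem hS2 j)
        rw [Finset.mem_filter] at h5
        exact h5
      have hqG : ∀ j, L (q j) ≠ L (q j + 1) ∧ 3 ≤ q j ∧ q j + 4 < n ∧ Fr Br (q j) := by
        intro j
        have h5 := (hqS j).1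
        rw [hGdef, Finset.mem_filter] at h5
        exact h5.2
      have hqinj : ∀ i j, i ≠ j → q i ≠ q j := by
        intro i j hij h
        exact hij ((S.orderEmbOfFin hS2).injective h)
      choose a b hab ha hb hab1 using fun j => h1 n (q j) (hqG j).2.1 (hqG j).2.2.1 L (hqG j).1
      -- orthogonality
      have hfar : ∀ i j, i ≠ j → ∀ v w : ℕ → ZMod 2,
          (∀ l, (l + 3 < q i ∨ q i + 1 < l) → v l = 0) →
          (∀ l, (l + 3 < q j ∨ q j + 1 < l) → w l = 0) → bf n L v w = 0 := by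
        intro i j hij v w hv hw
        have h5 := hqinj i j hij
        have h6 := (hqS i).2
        have h7 := (hqS j).2
        rcases Nat.lt_or_gt_of_ne h5 with h8 | h8
        · exact bf_far n L v w (q i) (q j) (by omega) hv hw
        · rw [bf_comm]
          exact bf_far n L w v (q j) (q i) (by omega) hw hv
      set U : Fin (κ + 3) → ZMod 2 × ZMod 2 → ℕ → ZMod 2 := fun j c => c.1 • a j + c.2 • b j
        with hU
      have hUs : ∀ j c l, (l + 3 < q j ∨ q j + 1 < l) → U j c l = 0 := by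
        intro j c l hl
        obtain ⟨h5, h6⟩ := hab j l hl
        simp [hU, h5, h6]
      have hUq : ∀ j c, qf n L (U j c) = c.1 + c.2 + c.1 * c.2 := by
        intro j c
        simp only [hU]
        rw [qf_add, qf_smul, qf_smul, bf_smul_left, bf_smul_right, ha, hb, hab1]
        ring
      have hUb : ∀ j c d, bf n L (U j c) (U j d) = c.1 * d.2 + c.2 * d.1 := by
        intro j c d
        simp only [hU]
        rw [bf_add_left, bf_add_right, bf_add_right, bf_smul_left, bf_smul_left, bf_smul_left,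
          bf_smul_left, bf_smul_right, bf_smul_right, bf_smul_right, bf_smul_right, bf_self,
          bf_self, bf_comm n L (b j) (a j), hab1]
        ring
      let Ψ : (Fin (κ + 3) → ZMod 2 × ZMod 2) →ₗ[ZMod 2] (ℕ → ZMod 2) :=
        { toFun := fun c => ∑ j, U j (c j)
          map_add' := fun c d => by
            rw [← Finset.sum_add_distrib]
            refine Finset.sum_congr rfl fun j _ => ?_
            simp only [hU, Pi.add_apply, Prod.fst_add, Prod.snd_add, add_smul]
            abel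
          map_smul' := fun t c => by
            rw [RingHom.id_apply, Finset.smul_sum]
            refine Finset.sum_congr rfl fun j _ => ?_
            simp only [hU, Pi.smul_apply, Prod.smul_fst, Prod.smul_snd, smul_eq_mul, smul_add,
              mul_smul] }
      have hΨ : ∀ c, Ψ c = ∑ j, U j (c j) := fun c => rfl
      obtain ⟨c, d, hc, hd, hqc, hqd, hcd⟩ := h3 (κ + 3) κ le_rfl (φ.comp Ψ)
      have hΨq : ∀ c, qf n L (Ψ c) = ∑ j, ((c j).1 + (c j).2 + (c j).1 * (c j).2) := by
        intro c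
        rw [hΨ, qf_sum n L _ _ fun i j hij => hfar i j hij _ _ (hUs i _) (hUs j _)]
        exact Finset.sum_congr rfl fun j _ => hUq j _
      have hΨb : bf n L (Ψ c) (Ψ d) = ∑ j, ((c j).1 * (d j).2 + (c j).2 * (d j).1) := by
        rw [hΨ, hΨ, bf_sum_left]
        refine Finset.sum_congr rfl fun j _ => ?_
        rw [bf_sum_right, Finset.sum_eq_single j, hUb]
        · intro i _ hij
          exact hfar j i (Ne.symm hij) _ _ (hUs j _) (hUs i _)
        · intro h
          exact absurd (Finset.mem_univ j) h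
      have hval : ∀ c : Fin (κ + 3) → ZMod 2 × ZMod 2, ∀ i, Ψ c i ≠ 0 → Vl n Br i := by
        intro c i hi
        by_contra hcon
        apply hi
        rw [hΨ, Finset.sum_apply]
        refine Finset.sum_eq_zero fun j _ => hUs j _ i ?_
        by_contra h5
        rw [not_or, not_lt, not_lt] at h5
        exact hcon (vl_window (hqG j).2.2.1 (hqG j).2.2.2 h5.1 h5.2)
      exact ⟨Ψ c, Ψ d, hval c, hval d, hc, hd, by rw [hΨq]; exact hqc, by rw [hΨq]; exact hqd,
        by rw [hΨb]; exact hcd⟩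

end Pool.Agent.Helper47.ZQ
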