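import Pool.Agent.Helper47.ZQ.Base

/-!
# Generators on whose support `L` is constant are in the radical
-/

set_option autoImplicit false

namespace Pool.Agent.Helper47.ZQ

open Module

/-- the generator number `i` -/
def constE (i : ℕ) : ℕ → ZMod 2 := fun l => if l = i then 1 else 0

theorem const_xp_add (a b : ℕ → ZMod 2) (l : ℕ) : xp (a + b) l = xp a l + xp b l := by
  unfold xp
  by_cases h : 3 ≤ l
  · simp only [h, if_true, Pi.add_apply]; ring
  · simp only [h, if_false, Pi.add_apply]; ring

theorem const_zp_add (a b : ℕ → ZMod 2) (l : ℕ) : zp (a + b) l = zp a l + zp b l := by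
  unfold zp
  by_cases h : 1 ≤ l <;> by_cases h' : 2 ≤ l <;>
    simp only [h, h', if_true, if_false, Pi.add_apply] <;> ring

theorem const_bf_add (n : ℕ) (L v a b : ℕ → ZMod 2) :
    bf n L v (a + b) = bf n L v a + bf n L v b := by
  unfold bf
  rw [← Finset.sum_add_distrib]
  refine Finset.sum_congr rfl fun l _ => ?_
  rw [const_xp_add, const_zp_add]
  ring

theorem const_qf_add (n : ℕ) (L a b : ℕ → ZMod 2) :
    qf n L (a + b) = qf n L a + qf n L b + bf n L a b := by
  unfold qf bf wt
  rw [← Finset.sum_add_distrib, ← Finset.sum_add_distrib]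
  refine Finset.sum_congr rfl fun l _ => ?_
  rw [const_xp_add, const_zp_add]
  ring

theorem const_xp_E (i l : ℕ) :
    xp (constE i) l = (if l = i then 1 else 0) + (if l = i + 3 then 1 else 0) := by
  unfold xp constE
  congr 1
  by_cases h : 3 ≤ l
  · rw [if_pos h]
    by_cases h' : l = i + 3
    · rw [if_pos h', if_pos (by omega)]
    · rw [if_neg h', if_neg (by omega)]
  · rw [if_neg h, if_neg (by omega)]

theorem const_zp_E (i l : ℕ) :
    zp (constE i) l = (if l = i + 1 then 1 else 0) + (if l = i + 2 then 1 else 0) := by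
  unfold zp constE
  congr 1
  · by_cases h : 1 ≤ l
    · rw [if_pos h]
      by_cases h' : l = i + 1
      · rw [if_pos h', if_pos (by omega)]
      · rw [if_neg h', if_neg (by omega)]
    · rw [if_neg h, if_neg (by omega)]
  · by_cases h : 2 ≤ l
    · rw [if_pos h]
      by_cases h' : l = i + 2
      · rw [if_pos h', if_pos (by omega)]
      · rw [if_neg h', if_neg (by omega)]
    · rw [if_neg h, if_neg (by omega)]

theorem const_sum (n j : ℕ) (hj : j < n) (f : ℕ → ZMod 2) :
    ∑ l ∈ Finset.range n, f l * (if l = j then 1 else 0) = f j := by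
  simp [hj]

theorem const_two (x : ZMod 2) : x + x = 0 := by
  revert x; decide

theorem const_bf_E (n : ℕ) (L v : ℕ → ZMod 2) (i : ℕ) (hi : i + 3 < n)
    (h1 : L i = L (i + 1)) (h2 : L (i + 1) = L (i + 2)) (h3 : L (i + 2) = L (i + 3)) :
    bf n L v (constE i) = 0 := by
  unfold bf
  have e : ∀ l, L l * (xp v l * zp (constE i) l + zp v l * xp (constE i) l) =
      (L l * xp v l) * (if l = i + 1 then 1 else 0) +
      (L l * xp v l) * (if l = i + 2 then 1 else 0) +
      (L l * zp v l) * (if l = i then 1 else 0) +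
      (L l * zp v l) * (if l = i + 3 then 1 else 0) := by
    intro l
    rw [const_xp_E, const_zp_E]
    ring
  rw [Finset.sum_congr rfl fun l _ => e l, Finset.sum_add_distrib, Finset.sum_add_distrib,
    Finset.sum_add_distrib, const_sum n (i + 1) (by omega), const_sum n (i + 2) (by omega),
    const_sum n i (by omega), const_sum n (i + 3) (by omega), ← h3, ← h2, ← h1]
  have hx : xp v (i + 1) + xp v (i + 2) + zp v i + zp v (i + 3) = 0 := by
    unfold xp zp
    have a1 : i + 1 - 3 = i - 2 := by omega
    have a2 : i + 2 - 3 = i - 1 := by omega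
    have a3 : i + 3 - 1 = i + 2 := by omega
    have a4 : i + 3 - 2 = i + 1 := by omega
    rw [a1, a2, a3, a4, if_pos (show 1 ≤ i + 3 by omega), if_pos (show 2 ≤ i + 3 by omega)]
    have b1 : (3 ≤ i + 1) = (2 ≤ i) := by
      apply propext; omega
    have b2 : (3 ≤ i + 2) = (1 ≤ i) := by
      apply propext; omega
    simp only [b1, b2]
    generalize (if 2 ≤ i then v (i - 2) else 0) = s
    generalize (if 1 ≤ i then v (i - 1) else 0) = t
    generalize v (i + 1) = a
    generalize v (i + 2) = b
    revert a b s t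
    decide
  calc L i * xp v (i + 1) + L i * xp v (i + 2) + L i * zp v i + L i * zp v (i + 3) =
      L i * (xp v (i + 1) + xp v (i + 2) + zp v i + zp v (i + 3)) := by ring
    _ = 0 := by rw [hx, mul_zero]

theorem const_qf_E (n : ℕ) (L : ℕ → ZMod 2) (i : ℕ) (hi : i + 3 < n)
    (h1 : L i = L (i + 1)) (h2 : L (i + 1) = L (i + 2)) (h3 : L (i + 2) = L (i + 3)) :
    qf n L (constE i) = 0 := by
  unfold qf
  have e : ∀ l, L l * wt (constE i) l =
      L l * (if l = i then 1 else 0) + L l * (if l = i + 1 then 1 else 0) +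
      L l * (if l = i + 2 then 1 else 0) + L l * (if l = i + 3 then 1 else 0) := by
    intro l
    unfold wt
    rw [const_xp_E, const_zp_E]
    have hp : ((if l = i then (1 : ZMod 2) else 0) + (if l = i + 3 then 1 else 0)) *
        ((if l = i + 1 then (1 : ZMod 2) else 0) + (if l = i + 2 then 1 else 0)) = 0 := by
      by_cases c0 : l = i
      · rw [if_neg (show ¬ l = i + 1 by omega), if_neg (show ¬ l = i + 2 by omega)]; simp
      · by_cases c3 : l = i + 3
        · rw [if_neg (show ¬ l = i + 1 by omega), if_neg (show ¬ l = i + 2 by omega)]; simp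
        · rw [if_neg c0, if_neg c3]; simp
    rw [hp]
    ring
  rw [Finset.sum_congr rfl fun l _ => e l, Finset.sum_add_distrib, Finset.sum_add_distrib,
    Finset.sum_add_distrib, const_sum n (i + 1) (by omega), const_sum n (i + 2) (by omega),
    const_sum n i (by omega), const_sum n (i + 3) (by omega), ← h3, ← h2, ← h1]
  generalize L i = a
  revert a
  decide

theorem const_set (n : ℕ) (L : ℕ → ZMod 2) (s : Finset ℕ)
    (h : ∀ i ∈ s, i + 3 < n ∧ L i = L (i + 1) ∧ L (i + 1) = L (i + 2) ∧
      L (i + 2) = L (i + 3)) :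
    qf n L (∑ i ∈ s, constE i) = 0 ∧ ∀ v, bf n L v (∑ i ∈ s, constE i) = 0 := by
  classical
  induction s using Finset.induction_on with
  | empty =>
    have h0 : ∀ l, xp (0 : ℕ → ZMod 2) l = 0 := fun l => by simp [xp]
    have h0' : ∀ l, zp (0 : ℕ → ZMod 2) l = 0 := fun l => by simp [zp]
    rw [Finset.sum_empty]
    refine ⟨?_, fun v => ?_⟩
    · unfold qf wt
      exact Finset.sum_eq_zero fun l _ => by rw [h0, h0']; ring
    · unfold bf
      exact Finset.sum_eq_zero fun l _ => by rw [h0, h0']; ring
  | insert a s ha ih =>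
    obtain ⟨g1, g2, g3, g4⟩ := h a (Finset.mem_insert_self a s)
    obtain ⟨i1, i2⟩ := ih fun i hi => h i (Finset.mem_insert_of_mem hi)
    rw [Finset.sum_insert ha]
    refine ⟨?_, fun v => ?_⟩
    · rw [const_qf_add, const_qf_E n L a g1 g2 g3 g4, i1, i2]; ring
    · rw [const_bf_add, const_bf_E n L v a g1 g2 g3 g4, i2]; ring

theorem const : S_CONST := by
  intro n L r h
  classical
  have hr : r = ∑ i ∈ (Finset.range n).filter (fun i => r i ≠ 0), constE i := by
    funext l
    rw [Finset.sum_apply]
    unfold constE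
    by_cases hl : r l = 0
    · rw [hl]
      refine (Finset.sum_eq_zero fun i hi => ?_).symm
      rw [if_neg]
      rintro rfl
      exact (Finset.mem_filter.1 hi).2 hl
    · have hl1 : r l = 1 := by
        revert hl
        generalize r l = a
        revert a
        decide
      have hm : l ∈ (Finset.range n).filter (fun i => r i ≠ 0) := by
        rw [Finset.mem_filter, Finset.mem_range]
        exact ⟨by have := (h l hl).1; omega, hl⟩
      rw [Finset.sum_ite_eq, if_pos hm, hl1]
  have hs := const_set n L ((Finset.range n).filter (fun i => r i ≠ 0))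
    fun i hi => h i (Finset.mem_filter.1 hi).2
  rw [← hr] at hs
  exact hs

end Pool.Agent.Helper47.ZQ
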