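import Pool.Agent.Helper47.ZQ.Base

/-!
# Module GAM (helper18)
-/

set_option autoImplicit false

namespace Pool.Agent.Helper47.ZQ

open Module

/-- the vectors supported on `V` outside `Γ` -/
def gamS (V : ℕ → Prop) (Γ : Finset ℕ) : Submodule (ZMod 2) (ℕ → ZMod 2) where
  carrier := {v | ∀ i, v i ≠ 0 → i ∉ Γ ∧ V i}
  add_mem' := by
    intro a b ha hb i hi
    by_cases h : a i = 0
    · exact hb i (fun h' => hi (by simp [h, h']))
    · exact ha i h
  zero_mem' := by intro i hi; exact absurd rfl hi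
  smul_mem' := by
    intro c a ha i hi
    exact ha i (fun h => hi (by simp [h]))

theorem gam : S_GAM := by
  intro κ T V φ
  let J : Finset ℕ → Submodule (ZMod 2) (Fin κ → ZMod 2) := fun Γ => (gamS V Γ).map φ
  have hmono : ∀ Γ Γ' : Finset ℕ, Γ ⊆ Γ' → J Γ' ≤ J Γ := by
    intro Γ Γ' h
    apply Submodule.map_mono
    intro v hv i hi
    exact ⟨fun h' => (hv i hi).1 (h h'), (hv i hi).2⟩
  have key : ∀ j : ℕ, (∃ Γ' : Finset ℕ, Γ'.card ≤ κ * T ∧ ∀ Γ : Finset ℕ, Γ.card ≤ T → J Γ' ≤ J Γ) ∨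
      (∃ Γ' : Finset ℕ, Γ'.card ≤ j * T ∧ finrank (ZMod 2) (J Γ') + j ≤ κ) := by
    intro j
    induction j with
    | zero =>
      right
      refine ⟨∅, by simp, ?_⟩
      have := Submodule.finrank_le (J ∅)
      simpa using this
    | succ j ih =>
      rcases ih with h | ⟨Γ', hc, hf⟩
      · exact Or.inl h
      · by_cases hg : ∀ Γ : Finset ℕ, Γ.card ≤ T → J Γ' ≤ J Γ
        · left
          exact ⟨Γ', hc.trans (Nat.mul_le_mul_right T (by omega)), hg⟩
        · right
          push Not at hg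
          obtain ⟨Γ, hΓ, hn⟩ := hg
          refine ⟨Γ' ∪ Γ, ?_, ?_⟩
          · calc (Γ' ∪ Γ).card ≤ Γ'.card + Γ.card := Finset.card_union_le _ _
              _ ≤ j * T + T := by omega
              _ = (j + 1) * T := by ring
          · have hlt : J (Γ' ∪ Γ) < J Γ' := by
              refine lt_of_le_of_ne (hmono _ _ Finset.subset_union_left) ?_
              intro he
              exact hn (he ▸ hmono _ _ Finset.subset_union_right)
            have := Submodule.finrank_lt_finrank_of_lt hlt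
            omega
  rcases key (κ + 1) with ⟨Γ', hc, hg⟩ | ⟨Γ', -, hf⟩
  · refine ⟨Γ', hc, ?_⟩
    intro W hW Γ hΓ v hv
    have hmem : v ∈ gamS V Γ' := fun i hi =>
      ⟨fun h' => Finset.disjoint_left.1 hW (hv i hi).1 h', (hv i hi).2⟩
    obtain ⟨r, hr, hrv⟩ := hg Γ hΓ (Submodule.mem_map_of_mem hmem)
    exact ⟨r, hr, hrv⟩
  · omega

end Pool.Agent.Helper47.ZQ
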