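import Pool.Agent.Helper47.ZQ.Base

/-!
# Module ISO (helper67): elliptic planes in subspaces of small codimension
-/

set_option autoImplicit false

namespace Pool.Agent.Helper47.ZQ

open Module

namespace IsoM

/-- the space -/
abbrev VV (k : ℕ) : Type := Fin k → ZMod 2 × ZMod 2

/-- the quadratic form -/
def q {k : ℕ} (c : VV k) : ZMod 2 := ∑ j, ((c j).1 + (c j).2 + (c j).1 * (c j).2)

/-- the bilinear form -/
def b {k : ℕ} (c d : VV k) : ZMod 2 := ∑ j, ((c j).1 * (d j).2 + (c j).2 * (d j).1)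

/-- the bilinear form, as a bilinear map -/
def B (k : ℕ) : LinearMap.BilinForm (ZMod 2) (VV k) :=
  LinearMap.mk₂ (ZMod 2) b
    (fun c c' d => by
      unfold b
      rw [← Finset.sum_add_distrib]
      refine Finset.sum_congr rfl fun j _ => ?_
      simp only [Pi.add_apply, Prod.fst_add, Prod.snd_add]
      ring)
    (fun a c d => by
      unfold b
      rw [smul_eq_mul, Finset.mul_sum]
      refine Finset.sum_congr rfl fun j _ => ?_
      simp only [Pi.smul_apply, Prod.smul_fst, Prod.smul_snd, smul_eq_mul]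
      ring)
    (fun c d d' => by
      unfold b
      rw [← Finset.sum_add_distrib]
      refine Finset.sum_congr rfl fun j _ => ?_
      simp only [Pi.add_apply, Prod.fst_add, Prod.snd_add]
      ring)
    (fun a c d => by
      unfold b
      rw [smul_eq_mul, Finset.mul_sum]
      refine Finset.sum_congr rfl fun j _ => ?_
      simp only [Pi.smul_apply, Prod.smul_fst, Prod.smul_snd, smul_eq_mul]
      ring)

lemma B_apply {k : ℕ} (c d : VV k) : B k c d = b c d := rfl

lemma b_comm {k : ℕ} (c d : VV k) : b c d = b d c := by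
  unfold b
  exact Finset.sum_congr rfl fun j _ => by ring

lemma two_zero (x : ZMod 2) : x + x = 0 := CharTwo.add_self_eq_zero x

lemma b_self {k : ℕ} (c : VV k) : b c c = 0 := by
  unfold b
  refine Finset.sum_eq_zero fun j _ => ?_
  rw [mul_comm, two_zero]

lemma q_add {k : ℕ} (c d : VV k) : q (c + d) = q c + q d + b c d := by
  unfold q b
  rw [← Finset.sum_add_distrib, ← Finset.sum_add_distrib]
  refine Finset.sum_congr rfl fun j _ => ?_
  simp only [Pi.add_apply, Prod.fst_add, Prod.snd_add]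
  ring

lemma b_add {k : ℕ} (c d d' : VV k) : b c (d + d') = b c d + b c d' := (B k c).map_add d d'

lemma b_single1 {k : ℕ} (c : VV k) (j : Fin k) : b c (Pi.single j (1, 0)) = (c j).2 := by
  unfold b
  rw [Finset.sum_eq_single j]
  · simp
  · intro i _ hi
    rw [Pi.single_eq_of_ne hi]
    simp
  · intro h
    exact absurd (Finset.mem_univ j) h

lemma b_single2 {k : ℕ} (c : VV k) (j : Fin k) : b c (Pi.single j (0, 1)) = (c j).1 := by
  unfold b
  rw [Finset.sum_eq_single j]
  · simp
  · intro i _ hi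
    rw [Pi.single_eq_of_ne hi]
    simp
  · intro h
    exact absurd (Finset.mem_univ j) h

lemma nondeg (k : ℕ) : (B k).Nondegenerate := by
  have h1 : ∀ c : VV k, (∀ d, B k c d = 0) → c = 0 := by
    intro c h
    funext j
    have h2 := h (Pi.single j (1, 0))
    have h3 := h (Pi.single j (0, 1))
    rw [B_apply, b_single1] at h2
    rw [B_apply, b_single2] at h3
    exact Prod.ext h3 h2
  refine ⟨h1, fun c h => h1 c fun d => ?_⟩
  rw [B_apply, b_comm]
  exact h d

lemma finrank_VV (k : ℕ) : finrank (ZMod 2) (VV k) = 2 * k := by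
  rw [finrank_pi_fintype]
  simp
  ring

/-- totally isotropic subspaces are small -/
lemma isotropic {k : ℕ} (S : Submodule (ZMod 2) (VV k)) (h : ∀ x ∈ S, ∀ y ∈ S, b x y = 0) :
    finrank (ZMod 2) S ≤ k := by
  have h1 : S ≤ (B k).orthogonal S := by
    intro y hy x hx
    exact h x hx y hy
  have h2 := Submodule.finrank_mono h1
  rw [LinearMap.BilinForm.finrank_orthogonal (nondeg k), finrank_VV] at h2
  omega

lemma exists_b {k : ℕ} (S : Submodule (ZMod 2) (VV k)) (h : k < finrank (ZMod 2) S) :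
    ∃ x ∈ S, ∃ y ∈ S, b x y = 1 := by
  by_contra hcon
  push Not at hcon
  refine absurd (isotropic S fun x hx y hy => ?_) (not_le.2 h)
  have h1 := hcon x hx y hy
  generalize b x y = t at h1
  revert h1
  revert t
  decide

lemma exists_q {k : ℕ} (S : Submodule (ZMod 2) (VV k)) (h : k < finrank (ZMod 2) S) :
    ∃ z ∈ S, q z = 1 := by
  by_contra hcon
  push Not at hcon
  have h0 : ∀ z ∈ S, q z = 0 := by
    intro z hz
    have h1 := hcon z hz
    generalize q z = t at h1
    revert h1
    revert t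
    decide
  obtain ⟨x, hx, y, hy, h1⟩ := exists_b S h
  have h2 := q_add x y
  rw [h0 x hx, h0 y hy, h0 _ (S.add_mem hx hy), h1] at h2
  revert h2
  decide

lemma ker_large {k m : ℕ} {M : Type} [AddCommGroup M] [Module (ZMod 2) M]
    [FiniteDimensional (ZMod 2) M] (hM : finrank (ZMod 2) M = m) (ψ : VV k →ₗ[ZMod 2] M)
    (h : m < k) : k < finrank (ZMod 2) (LinearMap.ker ψ) := by
  have h1 := LinearMap.finrank_range_add_finrank_ker ψ
  have h2 := Submodule.finrank_le (LinearMap.range ψ)
  rw [finrank_VV] at h1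
  omega

end IsoM

open IsoM in
theorem iso : S_ISO := by
  intro k κ hk φ
  have hφ : k < finrank (ZMod 2) (LinearMap.ker φ) :=
    ker_large (m := κ) (by simp) φ (by omega)
  obtain ⟨x, hx, y, hy, hxy⟩ := exists_b _ hφ
  suffices h : ∃ c ∈ LinearMap.ker φ, ∃ d ∈ LinearMap.ker φ, q c = 1 ∧ q d = 1 ∧ b c d = 1 by
    obtain ⟨c, hc, d, hd, h1, h2, h3⟩ := h
    exact ⟨c, d, hc, hd, h1, h2, h3⟩
  -- the hyperbolic case
  have hyp : ∀ x ∈ LinearMap.ker φ, ∀ y ∈ LinearMap.ker φ, b x y = 1 → q x = 1 → q y = 0 →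
      ∃ c ∈ LinearMap.ker φ, ∃ d ∈ LinearMap.ker φ, q c = 1 ∧ q d = 1 ∧ b c d = 1 := by
    intro x hx y hy hxy hqx hqy
    set ψ : VV k →ₗ[ZMod 2] ((Fin κ → ZMod 2) × (ZMod 2 × ZMod 2)) :=
      φ.prod ((B k x).prod (B k y)) with hψ
    have h1 : k < finrank (ZMod 2) (LinearMap.ker ψ) :=
      ker_large (m := κ + 2) (by simp) ψ (by omega)
    obtain ⟨z, hz, hqz⟩ := exists_q _ h1
    rw [LinearMap.mem_ker, hψ] at hz
    have hz1 : φ z = 0 := congrArg Prod.fst hz
    have hz2 : b x z = 0 := congrArg (fun t => t.2.1) hz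
    have hz3 : b y z = 0 := congrArg (fun t => t.2.2) hz
    refine ⟨x, hx, y + z, Submodule.add_mem _ hy (LinearMap.mem_ker.2 hz1), hqx, ?_, ?_⟩
    · rw [q_add, hqy, hqz, hz3]
      decide
    · rw [b_add, hxy, hz2]
      decide
  have hadd := q_add x y
  rw [hxy] at hadd
  have h01 : ∀ t : ZMod 2, t = 0 ∨ t = 1 := by decide
  rcases h01 (q x) with h1 | h1
  · rcases h01 (q y) with h2 | h2
    · refine hyp (x + y) (Submodule.add_mem _ hx hy) y hy ?_ ?_ h2
      · rw [b_comm, b_add, b_self, b_comm, hxy]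
        decide
      · rw [hadd, h1, h2]
        decide
    · exact hyp y hy x hx (by rw [b_comm]; exact hxy) h2 h1
  · rcases h01 (q y) with h2 | h2
    · exact hyp x hx y hy hxy h1 h2
    · exact ⟨x, hx, y, hy, h1, h2, hxy⟩

end Pool.Agent.Helper47.ZQ
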