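import Pool.Graph.R_seed8.H185.ZM.Iso

/-!
# The isotropy representation of a finite group acting on a connected manifold, not nec. faithfully
-/

set_option autoImplicit false

namespace Pool.Agent.Helper47.ZQ

open scoped Manifold ContDiff Topology
open Module Pool.Agent.H185.ZM

variable {E : Type} [NormedAddCommGroup E] [NormedSpace ℝ E] [FiniteDimensional ℝ E]
  {M : Type} [TopologicalSpace M] [ChartedSpace E M] [IsManifold 𝓘(ℝ, E) ∞ M]

/-- The isotropy representation: its kernel acts trivially. -/
theorem exists_isotropy_ker [CompactSpace M] [T2Space M] [PreconnectedSpace M] {P : Type} [Group P]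
    [Finite P] {a : P → M → M} (ha : SmoothAction E a)
    (x : M) (Q : Subgroup P) (hQ : ∀ q ∈ Q, a q x = x) :
    ∃ (V : Type) (_ : AddCommGroup V) (_ : Module ℝ V) (_ : FiniteDimensional ℝ V)
      (ρ : Q →* (V →ₗ[ℝ] V)), finrank ℝ V = finrank ℝ E ∧
        ∀ q : Q, ρ q = 1 → ∀ y, a q y = y := by
  obtain ⟨W, _, _, _, F, T, h⟩ := exists_equi ha
  let ρ : Q →* (TS E F x →ₗ[ℝ] TS E F x) :=
    { toFun := fun q => ((T q : W →ₗ[ℝ] W)).restrict
        (fun v hv => h.T_mem ha (hQ q q.2) hv)
      map_one' := by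
        ext v
        exact h.one v
      map_mul' := fun p q => by
        ext v
        exact h.mul p q v }
  refine ⟨TS E F x, inferInstance, inferInstance, inferInstance, ρ, h.finrank_TS x, ?_⟩
  intro q hq y
  apply h.trivial_of_fix ha (hQ q q.2)
  intro v hv
  have h1 : ρ q ⟨v, hv⟩ = ⟨v, hv⟩ := by rw [hq]; rfl
  exact congrArg Subtype.val h1

end Pool.Agent.Helper47.ZQ
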