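import Pool.Agent.Helper47.ZQ.Base

/-!
# REP: real representations and quaternion pairs (helper86 for helper47)
-/

set_option autoImplicit false

namespace Pool.Agent.Helper47.ZQ

open Module

namespace RepAux

variable {N : Type} [Group N] {V : Type} [AddCommGroup V] [Module ℝ V]

/-- a common eigenvector -/
lemma exists_eigen (ρ : N →* (V →ₗ[ℝ] V)) (A : Subgroup N)
    (h2 : ∀ z ∈ A, z ^ 2 = 1) (hc : ∀ z ∈ A, ∀ g : N, z * g = g * z) (z : N)
    (v₀ : V) (hv₀ : v₀ ≠ 0) (hz : ρ z v₀ = -v₀) (T : Finset N) (hT : ∀ a ∈ T, a ∈ A) :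
    ∃ v : V, v ≠ 0 ∧ ρ z v = -v ∧ ∀ a ∈ T, ρ a v = v ∨ ρ a v = -v := by
  classical
  induction T using Finset.induction_on with
  | empty => exact ⟨v₀, hv₀, hz, by simp⟩
  | insert b T hb ih =>
    obtain ⟨v, hv, hzv, hTv⟩ := ih (fun a ha => hT a (Finset.mem_insert_of_mem ha))
    have hbA : b ∈ A := hT b (Finset.mem_insert_self b T)
    have hbb : ∀ w : V, ρ b (ρ b w) = w := by
      intro w
      rw [← Module.End.mul_apply, ← map_mul, ← pow_two, h2 b hbA, map_one, Module.End.one_apply]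
    have hcomm : ∀ g : N, ∀ w : V, ρ g (ρ b w) = ρ b (ρ g w) := by
      intro g w
      rw [← Module.End.mul_apply, ← Module.End.mul_apply, ← map_mul, ← map_mul, hc b hbA g]
    by_cases hs : v + ρ b v = 0
    · refine ⟨v, hv, hzv, ?_⟩
      intro a ha
      rcases Finset.mem_insert.1 ha with rfl | ha
      · exact Or.inr (eq_neg_of_add_eq_zero_right hs)
      · exact hTv a ha
    · refine ⟨v + ρ b v, hs, ?_, ?_⟩
      · rw [map_add, hcomm, hzv, map_neg, neg_add]
      · intro a ha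
        rcases Finset.mem_insert.1 ha with rfl | ha
        · left
          rw [map_add, hbb, add_comm]
        · rcases hTv a ha with h | h
          · left; rw [map_add, hcomm, h]
          · right; rw [map_add, hcomm, h, map_neg, neg_add]

/-- a quaternion pair forces dimension at least four -/
lemma four_le [FiniteDimensional ℝ V] (I J : V →ₗ[ℝ] V) (v : V) (hv : v ≠ 0)
    (hI : ∀ w, I (I w) = -w) (hJ : ∀ w, J (J w) = -w) (hIJ : ∀ w, I (J w) = -J (I w)) :
    4 ≤ finrank ℝ V := by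
  have hli : LinearIndependent ℝ ![v, I v, J v, I (J v)] := by
    rw [Fintype.linearIndependent_iff]
    intro c hc
    simp only [Fin.sum_univ_four, Matrix.cons_val_zero, Matrix.cons_val_one,
      Matrix.cons_val] at hc
    set x := c 0
    set y := c 1
    set z := c 2
    set t := c 3
    set w : V := x • v + y • I v + z • J v + t • I (J v) with hw
    have hJI : ∀ w, J (I w) = -I (J w) := by
      intro w; rw [hIJ, neg_neg]
    have h1 : x • w - y • I w - z • J w - t • I (J w) = (x ^ 2 + y ^ 2 + z ^ 2 + t ^ 2) • v := by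
      rw [hw]
      simp only [map_add, map_smul, hI, hJ, hJI, map_neg, smul_add, smul_neg, neg_neg]
      module
    rw [hc] at h1
    simp only [map_zero, smul_zero, sub_zero] at h1
    have h2 : x ^ 2 + y ^ 2 + z ^ 2 + t ^ 2 = 0 := by
      rcases smul_eq_zero.1 h1.symm with h | h
      · exact h
      · exact absurd h hv
    have hx : x = 0 := by nlinarith [sq_nonneg x, sq_nonneg y, sq_nonneg z, sq_nonneg t]
    have hy : y = 0 := by nlinarith [sq_nonneg x, sq_nonneg y, sq_nonneg z, sq_nonneg t]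
    have hz : z = 0 := by nlinarith [sq_nonneg x, sq_nonneg y, sq_nonneg z, sq_nonneg t]
    have ht : t = 0 := by nlinarith [sq_nonneg x, sq_nonneg y, sq_nonneg z, sq_nonneg t]
    intro i
    fin_cases i
    · exact hx
    · exact hy
    · exact hz
    · exact ht
  simpa using hli.fintype_card_le_finrank

/-- restriction of a representation to an invariant subspace -/
noncomputable def restr (ρ : N →* (V →ₗ[ℝ] V)) (W : Submodule ℝ V)
    (hW : ∀ g : N, ∀ x ∈ W, ρ g x ∈ W) : N →* (W →ₗ[ℝ] W) where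
  toFun g := (ρ g).restrict (hW g)
  map_one' := by
    ext x
    simp [LinearMap.restrict_apply]
  map_mul' g h := by
    ext x
    simp [LinearMap.restrict_apply]

lemma restr_apply (ρ : N →* (V →ₗ[ℝ] V)) (W : Submodule ℝ V)
    (hW : ∀ g : N, ∀ x ∈ W, ρ g x ∈ W) (g : N) (x : W) :
    ((restr ρ W hW g x : W) : V) = ρ g x := rfl

lemma step [Finite N] [FiniteDimensional ℝ V] (ρ : N →* (V →ₗ[ℝ] V)) (A A₀ : Subgroup N)
    (h2 : ∀ z ∈ A, z ^ 2 = 1) (hc : ∀ z ∈ A, ∀ g : N, z * g = g * z) (hle : A₀ ≤ A)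
    (hq : ∀ χ : A →* ℤˣ, (∃ z : A, (z : N) ∈ A₀ ∧ χ z = -1) →
      ∃ (g h : N) (hg : g ^ 2 ∈ A) (hh : h ^ 2 ∈ A) (hc : g * h * g⁻¹ * h⁻¹ ∈ A),
        χ ⟨g ^ 2, hg⟩ = -1 ∧ χ ⟨h ^ 2, hh⟩ = -1 ∧ χ ⟨g * h * g⁻¹ * h⁻¹, hc⟩ = -1)
    (z : N) (hz : z ∈ A₀) (hρ : ρ z ≠ 1) :
    ∃ (W : Submodule ℝ V) (hW : ∀ g : N, ∀ x ∈ W, ρ g x ∈ W),
      finrank ℝ W + 4 ≤ finrank ℝ V ∧
      Nat.card (A₀ ⊓ (restr ρ W hW).ker : Subgroup N) ≤
        2 * Nat.card (A₀ ⊓ ρ.ker : Subgroup N) := by
  classical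
  have := Fintype.ofFinite N
  have := Fintype.ofFinite A
  -- a vector in the `-1` eigenspace of `z`
  have hzA : z ∈ A := hle hz
  have hzz : ∀ w : V, ρ z (ρ z w) = w := by
    intro w
    rw [← Module.End.mul_apply, ← map_mul, ← pow_two, h2 z hzA, map_one, Module.End.one_apply]
  obtain ⟨u, hu⟩ : ∃ u : V, ρ z u ≠ u := by
    by_contra hcon
    push Not at hcon
    exact hρ (LinearMap.ext hcon)
  obtain ⟨v, hv, hzv, hTv⟩ := exists_eigen ρ A h2 hc z (u - ρ z u) (sub_ne_zero.2 (Ne.symm hu))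
    (by rw [map_sub, hzz]; abel) (Finset.univ.filter (fun a => a ∈ A)) (by simp)
  have hTv' : ∀ a ∈ A, ρ a v = v ∨ ρ a v = -v := fun a ha => hTv a (by simpa using ha)
  have hneg : -v ≠ v := by
    intro h
    apply hv
    have : (2 : ℝ) • v = 0 := by rw [two_smul]; nth_rewrite 1 [← h]; exact neg_add_cancel v
    rcases smul_eq_zero.1 this with h' | h'
    · norm_num at h'
    · exact h'
  -- the character
  let f : A → ℤˣ := fun a => if ρ (a : N) v = v then 1 else -1
  have hf : ∀ a : A, ρ (a : N) v = ((f a : ℤ) : ℝ) • v := by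
    intro a
    by_cases h : ρ (a : N) v = v
    · simp [f, h]
    · have h' : ρ (a : N) v = -v := (hTv' a a.2).resolve_left h
      simp only [f, h, if_false]
      rw [h']
      simp
  have hinj : ∀ s t : ℤˣ, ((s : ℤ) : ℝ) • v = ((t : ℤ) : ℝ) • v → s = t := by
    intro s t h
    have h1 : (((s : ℤ) : ℝ) - ((t : ℤ) : ℝ)) • v = 0 := by rw [sub_smul, h, sub_self]
    rcases smul_eq_zero.1 h1 with h' | h'
    · have h3 : ((s : ℤ) : ℝ) = ((t : ℤ) : ℝ) := sub_eq_zero.1 h'
      exact Units.ext (by exact_mod_cast h3)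
    · exact absurd h' hv
  let χ : A →* ℤˣ :=
    { toFun := f
      map_one' := by simp [f]
      map_mul' := by
        intro a b
        apply hinj
        rw [← hf]
        push_cast
        rw [map_mul, Module.End.mul_apply, hf b, map_smul, hf a, smul_smul, mul_comm] }
  have hχ : ∀ a : A, ρ (a : N) v = ((χ a : ℤ) : ℝ) • v := hf
  have hχz : χ ⟨z, hzA⟩ = -1 := by
    apply hinj
    rw [← hχ]
    simp [hzv]
  -- the isotypic part
  let V' : Submodule ℝ V :=
    { carrier := {w | ∀ a : A, ρ (a : N) w = ((χ a : ℤ) : ℝ) • w}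
      add_mem' := by
        intro x y hx hy a
        rw [map_add, hx a, hy a, smul_add]
      zero_mem' := by intro a; simp
      smul_mem' := by
        intro c x hx a
        rw [map_smul, hx a, smul_comm] }
  have hV' : ∀ w : V, w ∈ V' ↔ ∀ a : A, ρ (a : N) w = ((χ a : ℤ) : ℝ) • w := fun w => Iff.rfl
  have hV'inv : ∀ g : N, ∀ x ∈ V', ρ g x ∈ V' := by
    intro g x hx a
    rw [← Module.End.mul_apply, ← map_mul, hc a a.2 g, map_mul, Module.End.mul_apply, hx a,
      map_smul]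
  have hsq : ∀ s : ℤˣ, ((s : ℤ) : ℝ) * ((s : ℤ) : ℝ) = 1 := by
    intro s
    rcases Int.units_eq_one_or s with rfl | rfl <;> simp
  -- the projection
  let e : V →ₗ[ℝ] V := ((Nat.card A : ℝ)⁻¹) • ∑ a : A, ((χ a : ℤ) : ℝ) • ρ (a : N)
  have he : ∀ w : V, e w = ((Nat.card A : ℝ)⁻¹) • ∑ a : A, ((χ a : ℤ) : ℝ) • ρ (a : N) w := by
    intro w
    simp [e, LinearMap.sum_apply]
  have hcard : (Nat.card A : ℝ) ≠ 0 := by
    exact_mod_cast Nat.card_pos.ne'
  have hcomm : ∀ g : N, ∀ w : V, e (ρ g w) = ρ g (e w) := by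
    intro g w
    rw [he, he, map_smul, map_sum]
    congr 1
    refine Finset.sum_congr rfl ?_
    intro a _
    rw [map_smul, ← Module.End.mul_apply, ← Module.End.mul_apply, ← map_mul, ← map_mul,
      hc a a.2 g]
  have hmem : ∀ w : V, e w ∈ V' := by
    intro w b
    rw [he, map_smul, map_sum, smul_comm]
    congr 1
    rw [Finset.smul_sum]
    refine Fintype.sum_equiv (Equiv.mulLeft b) _ _ ?_
    intro a
    rw [map_smul, ← Module.End.mul_apply, ← map_mul]
    simp only [Equiv.coe_mulLeft, map_mul, Subgroup.coe_mul, Units.val_mul, Int.cast_mul]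
    rw [smul_smul, ← mul_assoc, hsq, one_mul]
  have hid : ∀ w ∈ V', e w = w := by
    intro w hw
    rw [he]
    have : ∀ a ∈ (Finset.univ : Finset A), ((χ a : ℤ) : ℝ) • ρ (a : N) w = w := by
      intro a _
      rw [hw a, smul_smul, hsq, one_smul]
    rw [Finset.sum_congr rfl this, Finset.sum_const, Finset.card_univ, ← Nat.card_eq_fintype_card,
      ← Nat.cast_smul_eq_nsmul ℝ, smul_smul, inv_mul_cancel₀ hcard, one_smul]
  have hproj : LinearMap.IsProj V' e := ⟨hmem, hid⟩
  have hcompl : IsCompl V' (LinearMap.ker e) := hproj.isCompl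
  have hW : ∀ g : N, ∀ x ∈ LinearMap.ker e, ρ g x ∈ LinearMap.ker e := by
    intro g x hx
    rw [LinearMap.mem_ker] at hx ⊢
    rw [hcomm, hx, map_zero]
  refine ⟨LinearMap.ker e, hW, ?_, ?_⟩
  · -- dimensions
    obtain ⟨g, h, hg, hh, hgh, h1, h3, h4⟩ := hq χ ⟨⟨z, hzA⟩, hz, hχz⟩
    have hfour : 4 ≤ finrank ℝ V' := by
      refine four_le (restr ρ V' hV'inv g) (restr ρ V' hV'inv h) ⟨v, hχ⟩ ?_ ?_ ?_ ?_
      · intro h0
        exact hv (congrArg Subtype.val h0)
      · intro w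
        apply Subtype.ext
        rw [restr_apply, restr_apply, ← Module.End.mul_apply, ← map_mul, ← pow_two]
        have := (hV' _).1 w.2 ⟨g ^ 2, hg⟩
        rw [h1] at this
        simpa using this
      · intro w
        apply Subtype.ext
        rw [restr_apply, restr_apply, ← Module.End.mul_apply, ← map_mul, ← pow_two]
        have := (hV' _).1 w.2 ⟨h ^ 2, hh⟩
        rw [h3] at this
        simpa using this
      · intro w
        apply Subtype.ext
        rw [restr_apply, restr_apply, Submodule.coe_neg, restr_apply, restr_apply,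
          ← Module.End.mul_apply, ← Module.End.mul_apply, ← map_mul, ← map_mul]
        have h5 : g * h = (g * h * g⁻¹ * h⁻¹) * (h * g) := by group
        rw [h5, map_mul, Module.End.mul_apply]
        have := (hV' _).1 (hV'inv (h * g) w w.2) ⟨g * h * g⁻¹ * h⁻¹, hgh⟩
        rw [h4] at this
        simpa using this
    have := Submodule.finrank_add_eq_of_isCompl hcompl
    omega
  · -- orders
    set B : Subgroup N := A₀ ⊓ (restr ρ (LinearMap.ker e) hW).ker with hB
    have hBA : B ≤ A := le_trans inf_le_left hle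
    let ψ : B →* ℤˣ := χ.comp (Subgroup.inclusion hBA)
    have hker : Nat.card ψ.ker ≤ Nat.card (A₀ ⊓ ρ.ker : Subgroup N) := by
      have hm : ∀ b : ψ.ker, ((b : B) : N) ∈ (A₀ ⊓ ρ.ker : Subgroup N) := by
        intro b
        refine Subgroup.mem_inf.2 ⟨(Subgroup.mem_inf.1 (b : B).2).1, ?_⟩
        rw [MonoidHom.mem_ker]
        have hb1 : (restr ρ (LinearMap.ker e) hW) ((b : B) : N) = 1 :=
          (Subgroup.mem_inf.1 (b : B).2).2
        have hb2 : χ ⟨((b : B) : N), hBA (b : B).2⟩ = 1 := b.2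
        apply LinearMap.ext
        intro w
        have hw : w = e w + (w - e w) := by abel
        have hk : w - e w ∈ LinearMap.ker e := by
          rw [LinearMap.mem_ker, map_sub, hid _ (hmem w), sub_self]
        have hk1 : ρ ((b : B) : N) (w - e w) = w - e w := by
          have := congrArg (fun F => ((F ⟨w - e w, hk⟩ : LinearMap.ker e) : V)) hb1
          simpa [restr_apply] using this
        have hk2 : ρ ((b : B) : N) (e w) = e w := by
          have := (hV' _).1 (hmem w) ⟨((b : B) : N), hBA (b : B).2⟩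
          rw [hb2] at this
          simpa using this
        rw [hw, map_add, hk1, hk2, Module.End.one_apply]
      refine Nat.card_le_card_of_injective
        (fun b : ψ.ker => (⟨((b : B) : N), hm b⟩ : (A₀ ⊓ ρ.ker : Subgroup N))) ?_
      intro a b hab
      have := congrArg Subtype.val hab
      exact Subtype.ext (Subtype.ext this)
    have hidx : ψ.ker.index ≤ 2 := by
      rw [Subgroup.index_ker]
      calc Nat.card ψ.range ≤ Nat.card ℤˣ :=
            Nat.card_le_card_of_injective _ Subtype.val_injective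
        _ = 2 := by simp
    calc Nat.card B = Nat.card ψ.ker * ψ.ker.index := (Subgroup.card_mul_index _).symm
      _ ≤ Nat.card (A₀ ⊓ ρ.ker : Subgroup N) * 2 := Nat.mul_le_mul hker hidx
      _ = _ := mul_comm _ _

end RepAux

/-- the bound for the orders -/
theorem rep_aux (N : Type) [Group N] [Finite N] (A A₀ : Subgroup N)
    (h2 : ∀ z ∈ A, z ^ 2 = 1) (hc : ∀ z ∈ A, ∀ g : N, z * g = g * z) (hle : A₀ ≤ A)
    (hq : ∀ χ : A →* ℤˣ, (∃ z : A, (z : N) ∈ A₀ ∧ χ z = -1) →
      ∃ (g h : N) (hg : g ^ 2 ∈ A) (hh : h ^ 2 ∈ A) (hc : g * h * g⁻¹ * h⁻¹ ∈ A),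
        χ ⟨g ^ 2, hg⟩ = -1 ∧ χ ⟨h ^ 2, hh⟩ = -1 ∧ χ ⟨g * h * g⁻¹ * h⁻¹, hc⟩ = -1) (n : ℕ) :
    ∀ (V : Type) [AddCommGroup V] [Module ℝ V] [FiniteDimensional ℝ V] (ρ : N →* (V →ₗ[ℝ] V)),
      finrank ℝ V = n →
        Nat.card A₀ ≤ Nat.card (A₀ ⊓ ρ.ker : Subgroup N) * 2 ^ (finrank ℝ V / 4) := by
  induction n using Nat.strong_induction_on with
  | _ n ih =>
    intro V _ _ _ ρ hn
    by_cases hall : ∀ z ∈ A₀, ρ z = 1
    · have h1 : A₀ ⊓ ρ.ker = A₀ := inf_eq_left.2 (fun z hz => (MonoidHom.mem_ker).2 (hall z hz))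
      rw [h1]
      exact Nat.le_mul_of_pos_right _ (by positivity)
    · push Not at hall
      obtain ⟨z, hz, hρ⟩ := hall
      obtain ⟨W, hW, hfin, hcard⟩ := RepAux.step ρ A A₀ h2 hc hle hq z hz hρ
      have h3 := ih (finrank ℝ W) (by omega) W (RepAux.restr ρ W hW) rfl
      calc Nat.card A₀ ≤ Nat.card (A₀ ⊓ (RepAux.restr ρ W hW).ker : Subgroup N) *
            2 ^ (finrank ℝ W / 4) := h3
        _ ≤ (2 * Nat.card (A₀ ⊓ ρ.ker : Subgroup N)) * 2 ^ (finrank ℝ W / 4) :=
            Nat.mul_le_mul_right _ hcard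
        _ = Nat.card (A₀ ⊓ ρ.ker : Subgroup N) * 2 ^ (finrank ℝ W / 4 + 1) := by ring
        _ ≤ Nat.card (A₀ ⊓ ρ.ker : Subgroup N) * 2 ^ (finrank ℝ V / 4) := by
            refine Nat.mul_le_mul_left _ (Nat.pow_le_pow_right (by norm_num) ?_)
            omega

theorem rep : S_REP := by
  intro N _ _ V _ _ _ ρ A A₀ h2 hc hle hq
  exact rep_aux N A A₀ h2 hc hle hq _ V ρ rfl

end Pool.Agent.Helper47.ZQ
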