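import Pool.Graph.R_pool_sql_team_seeded_b677cdb8.E8helper2.ZB.Pos4

/-!
# Two steps of isotropy groups for finite groups acting on finite posets
-/

set_option autoImplicit false

namespace Pool.Agent.Helper47.ZQ

open Module Pool.Agent.Helper381 Pool.Agent.E8helper2.ZB

/-- a central subgroup as a commutative group -/
@[reducible] def centComm {G : Type} [Group G] (Z : Subgroup G)
    (h : ∀ z ∈ Z, ∀ g : G, z * g = g * z) : CommGroup Z :=
  { (inferInstance : Group Z) with
    mul_comm := fun a b => Subtype.ext (h a a.2 b) }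

/-- a group of exponent two as a commutative group -/
@[reducible] def expComm {G : Type} [Group G] (h : ∀ g : G, g ^ 2 = 1) : CommGroup G :=
  { (inferInstance : Group G) with
    mul_comm := fun a b => by
      have h1 : ∀ g : G, g⁻¹ = g := fun g => by
        have := h g
        rw [pow_two] at this
        exact inv_eq_of_mul_eq_one_right this
      calc a * b = (a * b)⁻¹ := (h1 _).symm
        _ = b⁻¹ * a⁻¹ := mul_inv_rev a b
        _ = b * a := by rw [h1, h1] }

theorem card_stab_quot' {N X : Type} [Group N] [Finite N] [MulAction N X] (A : Subgroup N)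
    [A.Normal] (x : X)
    (act : MulAction (N ⧸ A) X) (hact : ∀ (g : N) (x : X), (g : N ⧸ A) • x = g • x) :
    Nat.card (MulAction.stabilizer N x) = Nat.card (MulAction.stabilizer (N ⧸ A) x) * Nat.card A := by
  have h1 : MulAction.stabilizer N x =
      (MulAction.stabilizer (N ⧸ A) x).comap (QuotientGroup.mk' A) := by
    ext g
    rw [Subgroup.mem_comap, MulAction.mem_stabilizer_iff, MulAction.mem_stabilizer_iff]
    rw [← hact g x]
    rfl
  rw [h1]
  have h2 := Subgroup.card_mul_index (MulAction.stabilizer (N ⧸ A) x)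
  have h3 := Subgroup.card_mul_index ((MulAction.stabilizer (N ⧸ A) x).comap (QuotientGroup.mk' A))
  rw [Subgroup.index_comap_of_surjective _ (QuotientGroup.mk'_surjective A)] at h3
  have h4 := Subgroup.card_eq_card_quotient_mul_card_subgroup A
  rw [h4, ← h2] at h3
  have h5 : (MulAction.stabilizer (N ⧸ A) x).index ≠ 0 := Subgroup.index_ne_zero_of_finite
  apply Nat.eq_of_mul_eq_mul_right (Nat.pos_of_ne_zero h5)
  rw [h3]
  ring

/-- The two-step statement for posets: `B` is the total mod `2` Betti number. -/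
theorem pt (G : Type) [Group G] [Finite G] (Z : Subgroup G) (hZ2 : ∀ z ∈ Z, z ^ 2 = 1)
    (hZc : ∀ z ∈ Z, ∀ g : G, z * g = g * z) (P : Type)
    [PartialOrder P] [MulAction G P] (Q : Set P) (hQ : Q.Finite) (hne : Q.Nonempty)
    (hmono : ∀ g : G, StrictMono (fun x : P => g • x)) (hmem : ∀ (g : G), ∀ x ∈ Q, g • x ∈ Q)
    (B : ℕ) (hB : haveI : Fact (Nat.Prime 2) := ⟨Nat.prime_two⟩
      B = ∑ n ∈ Finset.range Q.ncard, finrank (ZMod 2) (OrdCoh (ZMod 2) Q n)) :
    ∃ A : Subgroup G, A ≤ Z ∧ A.relIndex Z ∣ 2 ^ (B - 1) ∧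
      ∀ N : Subgroup G, A ≤ N → (∀ g ∈ N, g ^ 2 ∈ A) →
        ∃ x ∈ Q, ∃ N' : Subgroup G, A ≤ N' ∧ N' ≤ N ∧ N'.relIndex N ∣ 2 ^ (B - 1) ∧
          ∀ g ∈ N', g • x = x := by
  classical
  have : Fact (Nat.Prime 2) := ⟨Nat.prime_two⟩
  let _ : CommGroup Z := centComm Z hZc
  obtain ⟨x, hx, h1⟩ := pos 2 Z (fun g => Subtype.ext (hZ2 g g.2)) P Q hQ hne
    (fun g => hmono (g : G)) (fun g => hmem (g : G))
  rw [← hB] at h1
  let A : Subgroup G := (MulAction.stabilizer Z x).map Z.subtype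
  have hA : ∀ g : G, g ∈ A ↔ g ∈ Z ∧ g • x = x := by
    intro g
    constructor
    · rintro ⟨a, ha, rfl⟩
      exact ⟨a.2, ha⟩
    · rintro ⟨h2, h3⟩
      exact ⟨⟨g, h2⟩, h3, rfl⟩
  have hAZ : A ≤ Z := fun g hg => ((hA g).1 hg).1
  have hcA : Nat.card A = Nat.card (MulAction.stabilizer Z x) :=
    (Nat.card_congr ((MulAction.stabilizer Z x).equivMapOfInjective Z.subtype
      Z.subtype_injective).toEquiv).symm
  have e3 : A.relIndex Z ∣ 2 ^ (B - 1) := by
    have e4 := Subgroup.card_mul_index (A.subgroupOf Z)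
    have e5 : Nat.card (A.subgroupOf Z) = Nat.card A :=
      Nat.card_congr (Subgroup.subgroupOfEquivOfLe hAZ).toEquiv
    rw [← e4, e5, hcA] at h1
    exact Nat.dvd_of_mul_dvd_mul_left Nat.card_pos h1
  refine ⟨A, hAZ, e3, fun N hAN hN => ?_⟩
  -- the fixed poset
  have := Fintype.ofFinite A
  let gs : List (P → P) := (Finset.univ : Finset A).toList.map (fun (a : A) (y : P) => (a : G) • y)
  have hgs : ∀ g ∈ gs, ∃ a ∈ A, g = fun y => a • y := by
    intro g hg
    obtain ⟨a, _, rfl⟩ := List.mem_map.1 hg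
    exact ⟨a, a.2, rfl⟩
  have hgs' : ∀ a ∈ A, (fun y : P => a • y) ∈ gs := by
    intro a ha
    exact List.mem_map.2 ⟨⟨a, ha⟩, by simp, rfl⟩
  have hgood : GoodList Q gs := by
    refine ⟨?_, ?_, ?_, ?_⟩
    · intro g hg
      obtain ⟨a, _, rfl⟩ := hgs g hg
      exact hmono a
    · intro g hg y
      obtain ⟨a, ha, rfl⟩ := hgs g hg
      show a • a • y = y
      rw [← mul_smul, ← pow_two, hZ2 a (hAZ ha), one_smul]
    · intro g hg y hy
      obtain ⟨a, _, rfl⟩ := hgs g hg
      exact hmem a y hy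
    · intro g hg g' hg' y
      obtain ⟨a, ha, rfl⟩ := hgs g hg
      obtain ⟨a', _, rfl⟩ := hgs g' hg'
      show a • a' • y = a' • a • y
      rw [← mul_smul, ← mul_smul, hZc a (hAZ ha)]
  have hfix : ∀ y, y ∈ fixS Q gs ↔ y ∈ Q ∧ ∀ a ∈ A, a • y = y := by
    intro y
    constructor
    · rintro ⟨h2, h3⟩
      exact ⟨h2, fun a ha => h3 _ (hgs' a ha)⟩
    · rintro ⟨h2, h3⟩
      refine ⟨h2, fun g hg => ?_⟩
      obtain ⟨a, ha, rfl⟩ := hgs g hg
      exact h3 a ha
  have hβ := smith_list hQ gs hgood Q.ncard le_rfl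
  have hxf : x ∈ fixS Q gs := (hfix x).2 ⟨hx, fun a ha => ((hA a).1 ha).2⟩
  have hQ' : (fixS Q gs).Finite := hQ.subset (fixS_subset _ _)
  have hfin : ∀ n, Finite (Ch (fixS Q gs) n) := finite_Ch hQ'
  have hmem' : ∀ (g : G), ∀ y ∈ fixS Q gs, g • y ∈ fixS Q gs := by
    intro g y hy
    rw [hfix] at hy ⊢
    refine ⟨hmem g y hy.1, fun a ha => ?_⟩
    rw [← mul_smul, hZc a (hAZ ha), mul_smul, hy.2 a ha]
  -- the groups
  let A' : Subgroup N := A.subgroupOf N
  have hnorm : A'.Normal := ⟨fun a ha g => by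
    have ha' : (a : G) ∈ A := ha
    show (g : G) * a * (g : G)⁻¹ ∈ A
    rw [← hZc a (hAZ ha'), mul_inv_cancel_right]
    exact ha'⟩
  let actN : ∀ n, MulAction N (Ch (fixS Q gs) n) := fun n =>
    { smul := fun g c => ⟨fun i => (g : G) • c.1 i, (hmono (g : G)).comp c.2.1,
        fun i => hmem' _ _ (c.2.2 i)⟩
      one_smul := fun c => Subtype.ext (funext fun i => one_smul G _)
      mul_smul := fun g h c => Subtype.ext (funext fun i => mul_smul (g : G) (h : G) _) }
  have htriv : ∀ n, ∀ a ∈ A', ∀ c : Ch (fixS Q gs) n, a • c = c := by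
    intro n a ha c
    apply Subtype.ext
    funext i
    exact ((hfix _).1 (c.2.2 i)).2 a ha
  have hsq : ∀ g : N ⧸ A', g ^ 2 = 1 := by
    intro g
    obtain ⟨g, rfl⟩ := QuotientGroup.mk_surjective g
    rw [← QuotientGroup.mk_pow, QuotientGroup.eq_one_iff]
    exact hN g g.2
  let ψ : ∀ n, N ⧸ A' →* Equiv.Perm (Ch (fixS Q gs) n) := fun n =>
    QuotientGroup.lift A' (MulAction.toPermHom N (Ch (fixS Q gs) n)) (fun a ha => by
      ext c : 1
      exact htriv n a ha c)
  let _ : CommGroup (N ⧸ A') := expComm hsq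
  let actQ : ∀ n, MulAction (N ⧸ A') (Ch (fixS Q gs) n) := fun n =>
    MulAction.compHom _ (ψ n)
  have hactQ : ∀ n (g : N) (c : Ch (fixS Q gs) n), (g : N ⧸ A') • c = g • c := fun n g c => rfl
  have hsm : StrictMono (fun _ : Fin 1 => x) := Subsingleton.strictMono _
  obtain ⟨q, σ, h2⟩ := semiG (p := 2) (C := Ch (fixS Q gs)) (cface (Q := fixS Q gs))
    (fun n i j c hij => cface_cface n i j c hij) (G := N ⧸ A') hsq (by
      intro n i g c
      obtain ⟨g, rfl⟩ := QuotientGroup.mk_surjective g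
      rfl) ⟨fun _ => x, hsm, fun _ => hxf⟩ Q.ncard
    (fun q hq => isEmpty_Ch hQ' q ((Set.ncard_le_ncard (fixS_subset _ _) hQ).trans hq))
  have h2' : Nat.card (N ⧸ A') ∣ Nat.card (MulAction.stabilizer (N ⧸ A') σ) * 2 ^ (B - 1) :=
    h2.trans (mul_dvd_mul_left _ (pow_dvd_pow 2 (Nat.sub_le_sub_right (hβ.trans hB.ge) 1)))
  have h3 : Nat.card N ∣ Nat.card (MulAction.stabilizer N σ) * 2 ^ (B - 1) := by
    rw [card_stab_quot' A' σ (actQ q) (hactQ q),
      Subgroup.card_eq_card_quotient_mul_card_subgroup A']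
    obtain ⟨t, ht⟩ := h2'
    exact ⟨t, by rw [mul_right_comm, ht]; ring⟩
  refine ⟨σ.1 0, ((hfix _).1 (σ.2.2 0)).1, (MulAction.stabilizer N σ).map N.subtype, ?_, ?_, ?_, ?_⟩
  · intro a ha
    exact ⟨⟨a, hAN ha⟩, htriv q _ ha σ, rfl⟩
  · rintro _ ⟨g, _, rfl⟩
    exact g.2
  · have e6 : ((MulAction.stabilizer N σ).map N.subtype).subgroupOf N = MulAction.stabilizer N σ := by
      ext g
      rw [Subgroup.mem_subgroupOf]
      constructor
      · rintro ⟨g', hg', h⟩
        have : g' = g := Subtype.ext h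
        rwa [← this]
      · intro h
        exact ⟨g, h, rfl⟩
    show (((MulAction.stabilizer N σ).map N.subtype).subgroupOf N).index ∣ _
    rw [e6]
    have e7 := Subgroup.card_mul_index (MulAction.stabilizer N σ)
    rw [← e7] at h3
    exact Nat.dvd_of_mul_dvd_mul_left Nat.card_pos h3
  · rintro _ ⟨g, hg, rfl⟩
    exact congrArg (fun c : Ch (fixS Q gs) q => c.1 0) hg

end Pool.Agent.Helper47.ZQ
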