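import Pool.Graph.R_pool_sql_team_seeded_b677cdb8.E8helper86.ZB.Man
import Pool.Agent.Helper47.ZQ.Pt

/-!
# Two steps of isotropy groups for finite groups acting smoothly on closed manifolds
-/

set_option autoImplicit false

namespace Pool.Agent.Helper47.ZQ

open Metric Set Module Pool.Agent.Helper381 Pool.Agent.H185.ZM Pool.Agent.E8helper2.ZB
open Pool.Agent.E8helper86.ZB
open scoped Manifold ContDiff

section

variable {M : Type} {E : Type} [MetricSpace M] [NormedAddCommGroup E] [NormedSpace ℝ E]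
  {R : ℝ}

theorem top_geo (G : Geo M E R) [CompactSpace M] [Nonempty M] {P : Type} [Group P] [Finite P]
    (a : P →* (M ≃ᵢ M)) (Z : Subgroup P) (hZ2 : ∀ z ∈ Z, z ^ 2 = 1)
    (hZc : ∀ z ∈ Z, ∀ g : P, z * g = g * z) :
    ∃ A : Subgroup P, A ≤ Z ∧
      A.relIndex Z ∣ 2 ^ ((haveI : Fact (Nat.Prime 2) := ⟨Nat.prime_two⟩;
        (totalBetti (ZMod 2) M).toNat) - 1) ∧
      ∀ N : Subgroup P, A ≤ N → (∀ g ∈ N, g ^ 2 ∈ A) →
        ∃ (x : M) (N' : Subgroup P), A ≤ N' ∧ N' ≤ N ∧
          N'.relIndex N ∣ 2 ^ ((haveI : Fact (Nat.Prime 2) := ⟨Nat.prime_two⟩;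
            (totalBetti (ZMod 2) M).toNat) - 1) ∧ ∀ g ∈ N', a g x = x := by
  classical
  have : Fact (Nat.Prime 2) := ⟨Nat.prime_two⟩
  have hR := G.Rpos
  obtain ⟨F, hF, hFa⟩ := exists_invariant_net a (R / 4) (by linarith)
  have hρR : 4 * (R / 4) ≤ R := by linarith
  set ρ := R / 4 with hρ
  have hQ := Fam_finite F ρ
  letI act : MulAction P (Set M) :=
    { smul := fun p C => a p '' C
      one_smul := fun C => by
        show a 1 '' C = C
        rw [map_one]
        exact Set.image_id C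
      mul_smul := fun p q C => by
        show a (p * q) '' C = a p '' (a q '' C)
        rw [map_mul, Set.image_image]
        rfl }
  have hsm : ∀ p : P, StrictMono (fun C : Set M => p • C) := fun p =>
    (a p).injective.image_strictMono
  have hmem : ∀ (p : P), ∀ C ∈ Fam F ρ, p • C ∈ Fam F ρ := fun p C hC =>
    image_Fam F ρ (a p) (hFa p) hC
  -- total Betti number
  have e1 : ∀ n, finrank (ZMod 2) (SingCoh (ZMod 2) M n) =
      finrank (ZMod 2) (OrdCoh (ZMod 2) (Fam F ρ) n) := by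
    intro n
    obtain ⟨e⟩ := G.nerve hρR hF (ZMod 2) n
    exact LinearEquiv.finrank_eq e
  have hB := totalBetti_eq (Fam F ρ).ncard (G.betti_finite (ZMod 2)).1 (fun n hn => by
    rw [e1]
    exact ordcoh_top hQ (ZMod 2) n hn)
  have h3 : (totalBetti (ZMod 2) M).toNat =
      ∑ n ∈ Finset.range (Fam F ρ).ncard, finrank (ZMod 2) (OrdCoh (ZMod 2) (Fam F ρ) n) := by
    rw [hB, ENat.toNat_natCast]
    exact Finset.sum_congr rfl fun n _ => e1 n
  obtain ⟨A, hAZ, hA, hN⟩ := pt P Z hZ2 hZc (Set M) (Fam F ρ) hQ (fam_nonempty hF) hsm hmem _ h3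
  refine ⟨A, hAZ, hA, fun N hAN hsq => ?_⟩
  obtain ⟨C, hC, N', h4, h5, h6, h7⟩ := hN N hAN hsq
  obtain ⟨y, _, hy⟩ := G.fam_fixed hρR hC
  exact ⟨y, N', h4, h5, h6, fun g hg => hy (a g) (hFa g) (h7 g hg)⟩

end

section

variable {E : Type} [NormedAddCommGroup E] [NormedSpace ℝ E] [FiniteDimensional ℝ E]
  {M : Type} [TopologicalSpace M] [ChartedSpace E M] [IsManifold 𝓘(ℝ, E) ∞ M]

/-- the total mod `2` Betti number minus one -/
noncomputable def b2 (M : Type) [TopologicalSpace M] : ℕ :=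
  haveI : Fact (Nat.Prime 2) := ⟨Nat.prime_two⟩
  (totalBetti (ZMod 2) M).toNat - 1

/-- **Two steps for smooth actions.** -/
theorem top [CompactSpace M] [T2Space M] [ConnectedSpace M] {P : Type} [Group P]
    [Finite P] {a : P → M → M} (ha : SmoothAction E a) (Z : Subgroup P) (hZ2 : ∀ z ∈ Z, z ^ 2 = 1)
    (hZc : ∀ z ∈ Z, ∀ g : P, z * g = g * z) :
    ∃ A : Subgroup P, A ≤ Z ∧ A.relIndex Z ∣ 2 ^ b2 M ∧
      ∀ N : Subgroup P, A ≤ N → (∀ g ∈ N, g ^ 2 ∈ A) →
        ∃ (x : M) (N' : Subgroup P), A ≤ N' ∧ N' ≤ N ∧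
          N'.relIndex N ∣ 2 ^ b2 M ∧ ∀ g ∈ N', a g x = x := by
  obtain ⟨W, _, _, _, F, T, hF⟩ := exists_equi ha
  let g := hF.metric
  obtain ⟨R, G⟩ := Q145.TN.exists_geo g
  let _ := Q145.TN.mS g
  let b : P →* (M ≃ᵢ M) :=
    { toFun := fun p =>
        { toFun := a p
          invFun := a p⁻¹
          left_inv := fun x => by rw [← ha.mul, inv_mul_cancel, ha.one]
          right_inv := fun x => by rw [← ha.mul, mul_inv_cancel, ha.one]
          isometry_toFun := fun x y => by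
            show (Q145.TN.mS g).toPseudoMetricSpace.toPseudoEMetricSpace.edist _ _ =
              (Q145.TN.mS g).toPseudoMetricSpace.toPseudoEMetricSpace.edist _ _
            rw [Q145.TN.edist_mS, Q145.TN.edist_mS]
            exact hF.dist_eq ha p x y }
      map_one' := by
        ext x
        exact ha.one x
      map_mul' := fun p q => by
        ext x
        exact ha.mul p q x }
  have : Nonempty M := inferInstance
  exact top_geo G b Z hZ2 hZc

end

end Pool.Agent.Helper47.ZQ
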