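import Pool.Agent.Helper47.ZQ.Base

/-!
# Module WIN: an elliptic plane at every jump
-/

set_option autoImplicit false

namespace Pool.Agent.Helper47.ZQ

namespace WinAux

/-- the vector with the entries `l` from `q` on -/
def sh (q : ℕ) (l : List (ZMod 2)) (i : ℕ) : ZMod 2 := if q ≤ i then l.getD (i - q) 0 else 0

theorem sh_add (q : ℕ) (l : List (ZMod 2)) (j : ℕ) : sh q l (q + j) = sh 0 l j := by
  unfold sh
  rw [if_pos (Nat.le_add_right _ _), if_pos (Nat.zero_le _), Nat.add_sub_cancel_left, Nat.sub_zero]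

theorem sh_lt {q : ℕ} (l : List (ZMod 2)) {i : ℕ} (h : i < q) : sh q l i = 0 :=
  if_neg (not_le.2 h)

theorem sh_ge {q : ℕ} {l : List (ZMod 2)} (hl : l.length = 5) {i : ℕ} (h : q + 5 ≤ i) :
    sh q l i = 0 := by
  unfold sh
  rw [if_pos (by omega)]
  exact List.getD_eq_default _ _ (by omega)

theorem sub_add (q : ℕ) (l : List (ZMod 2)) (j c : ℕ) :
    (if c ≤ q + j then sh q l (q + j - c) else 0) = if c ≤ j then sh 0 l (j - c) else 0 := by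
  by_cases h : c ≤ j
  · rw [if_pos h, if_pos (by omega), show q + j - c = q + (j - c) by omega, sh_add]
  · rw [if_neg h]
    split_ifs with h2
    · exact sh_lt l (by omega)
    · rfl

theorem xp_add (q : ℕ) (l : List (ZMod 2)) (j : ℕ) : xp (sh q l) (q + j) = xp (sh 0 l) j := by
  unfold xp
  rw [sh_add, sub_add]

theorem zp_add (q : ℕ) (l : List (ZMod 2)) (j : ℕ) : zp (sh q l) (q + j) = zp (sh 0 l) j := by
  unfold zp
  rw [sub_add, sub_add]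

theorem xp_lt {q : ℕ} (l : List (ZMod 2)) {i : ℕ} (h : i < q) : xp (sh q l) i = 0 := by
  unfold xp
  rw [sh_lt l h]
  split_ifs
  · rw [sh_lt l (by omega), add_zero]
  · rw [add_zero]

theorem zp_lt {q : ℕ} (l : List (ZMod 2)) {i : ℕ} (h : i < q) : zp (sh q l) i = 0 := by
  unfold zp
  rw [sh_lt l (i := i - 1) (by omega), sh_lt l (i := i - 2) (by omega)]
  simp

theorem xp_ge {l : List (ZMod 2)} (hl : l.length = 5) {i : ℕ} (h : 8 ≤ i) :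
    xp (sh 0 l) i = 0 := by
  unfold xp
  rw [sh_ge hl (by omega), sh_ge hl (by omega)]
  simp

theorem zp_ge {l : List (ZMod 2)} (hl : l.length = 5) {i : ℕ} (h : 8 ≤ i) :
    zp (sh 0 l) i = 0 := by
  unfold zp
  rw [sh_ge hl (by omega), sh_ge hl (by omega)]
  simp

/-- restriction of a sum to the window -/
theorem sum_win {q n : ℕ} (hn : q + 8 ≤ n) (L f g : ℕ → ZMod 2) (h1 : ∀ i, i < q → f i = 0)
    (h2 : ∀ j, f (q + j) = g j) (h3 : ∀ j, 8 ≤ j → g j = 0) :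
    ∑ l ∈ Finset.range n, L l * f l = ∑ j ∈ Finset.range 8, L (q + j) * g j := by
  obtain ⟨m, rfl⟩ : ∃ m, n = q + (8 + m) := ⟨n - (q + 8), by omega⟩
  rw [Finset.sum_range_add, Finset.sum_range_add]
  have e1 : ∑ l ∈ Finset.range q, L l * f l = 0 :=
    Finset.sum_eq_zero fun i hi => by rw [h1 i (Finset.mem_range.1 hi), mul_zero]
  have e2 : ∑ j ∈ Finset.range m, L (q + (8 + j)) * f (q + (8 + j)) = 0 :=
    Finset.sum_eq_zero fun i _ => by rw [h2, h3 _ (Nat.le_add_right _ _), mul_zero]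
  rw [e1, e2, zero_add, add_zero]
  exact Finset.sum_congr rfl fun j _ => by rw [h2]

theorem qf_win {q n : ℕ} (hn : q + 8 ≤ n) (L : ℕ → ZMod 2) {l : List (ZMod 2)}
    (hl : l.length = 5) :
    qf n L (sh q l) = ∑ j ∈ Finset.range 8, L (q + j) * wt (sh 0 l) j := by
  refine sum_win hn L _ _ (fun i hi => ?_) (fun j => ?_) (fun j hj => ?_)
  · unfold wt
    rw [xp_lt l hi, zp_lt l hi]
    simp
  · unfold wt
    rw [xp_add, zp_add]
  · unfold wt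
    rw [xp_ge hl hj, zp_ge hl hj]
    simp

theorem bf_win {q n : ℕ} (hn : q + 8 ≤ n) (L : ℕ → ZMod 2) {l m : List (ZMod 2)}
    (hl : l.length = 5) :
    bf n L (sh q l) (sh q m) = ∑ j ∈ Finset.range 8, L (q + j) *
      (xp (sh 0 l) j * zp (sh 0 m) j + zp (sh 0 l) j * xp (sh 0 m) j) := by
  refine sum_win hn L _ _ (fun i hi => ?_) (fun j => ?_) (fun j hj => ?_)
  · rw [xp_lt l hi, zp_lt l hi]
    simp
  · rw [xp_add, zp_add, xp_add, zp_add]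
  · rw [xp_ge hl hj, zp_ge hl hj]
    simp

/-- the ten pairs -/
def prs : List (List (ZMod 2) × List (ZMod 2)) :=
  [([0, 0, 0, 1, 0], [0, 0, 1, 0, 1]), ([0, 0, 0, 1, 1], [0, 1, 0, 0, 0]),
   ([0, 0, 1, 0, 0], [0, 1, 0, 1, 0]), ([0, 0, 1, 1, 0], [0, 1, 0, 0, 1]),
   ([0, 1, 1, 0, 1], [1, 0, 0, 0, 0]), ([0, 1, 1, 0, 1], [1, 0, 0, 1, 0]),
   ([0, 0, 0, 0, 1], [1, 0, 1, 1, 0]), ([0, 0, 0, 1, 1], [1, 1, 0, 0, 0]),
   ([0, 0, 1, 0, 1], [0, 1, 0, 0, 1]), ([0, 0, 1, 0, 1], [0, 1, 0, 1, 1])]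

theorem prs_len : ∀ c ∈ prs, c.1.length = 5 ∧ c.2.length = 5 := by decide

theorem check : ∀ l0 l1 l2 l3 l4 l5 l6 l7 : ZMod 2, l3 ≠ l4 → ∃ c ∈ prs,
    (l0 * wt (sh 0 c.1) 0 + l1 * wt (sh 0 c.1) 1 + l2 * wt (sh 0 c.1) 2 + l3 * wt (sh 0 c.1) 3 +
      l4 * wt (sh 0 c.1) 4 + l5 * wt (sh 0 c.1) 5 + l6 * wt (sh 0 c.1) 6 +
      l7 * wt (sh 0 c.1) 7 = 1) ∧
    (l0 * wt (sh 0 c.2) 0 + l1 * wt (sh 0 c.2) 1 + l2 * wt (sh 0 c.2) 2 + l3 * wt (sh 0 c.2) 3 +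
      l4 * wt (sh 0 c.2) 4 + l5 * wt (sh 0 c.2) 5 + l6 * wt (sh 0 c.2) 6 +
      l7 * wt (sh 0 c.2) 7 = 1) ∧
    (l0 * (xp (sh 0 c.1) 0 * zp (sh 0 c.2) 0 + zp (sh 0 c.1) 0 * xp (sh 0 c.2) 0) +
      l1 * (xp (sh 0 c.1) 1 * zp (sh 0 c.2) 1 + zp (sh 0 c.1) 1 * xp (sh 0 c.2) 1) +
      l2 * (xp (sh 0 c.1) 2 * zp (sh 0 c.2) 2 + zp (sh 0 c.1) 2 * xp (sh 0 c.2) 2) +
      l3 * (xp (sh 0 c.1) 3 * zp (sh 0 c.2) 3 + zp (sh 0 c.1) 3 * xp (sh 0 c.2) 3) +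
      l4 * (xp (sh 0 c.1) 4 * zp (sh 0 c.2) 4 + zp (sh 0 c.1) 4 * xp (sh 0 c.2) 4) +
      l5 * (xp (sh 0 c.1) 5 * zp (sh 0 c.2) 5 + zp (sh 0 c.1) 5 * xp (sh 0 c.2) 5) +
      l6 * (xp (sh 0 c.1) 6 * zp (sh 0 c.2) 6 + zp (sh 0 c.1) 6 * xp (sh 0 c.2) 6) +
      l7 * (xp (sh 0 c.1) 7 * zp (sh 0 c.2) 7 + zp (sh 0 c.1) 7 * xp (sh 0 c.2) 7) = 1) := by
  decide +kernel

end WinAux

open WinAux in
theorem win : S_WIN := by
  intro n p hp hn L hL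
  obtain ⟨q, rfl⟩ : ∃ q, p = q + 3 := ⟨p - 3, by omega⟩
  have hq : q + 8 ≤ n := by omega
  obtain ⟨c, hc, h1, h2, h3⟩ := check (L (q + 0)) (L (q + 1)) (L (q + 2)) (L (q + 3)) (L (q + 4))
    (L (q + 5)) (L (q + 6)) (L (q + 7)) hL
  obtain ⟨hl1, hl2⟩ := prs_len c hc
  refine ⟨sh q c.1, sh q c.2, ?_, ?_, ?_, ?_⟩
  · rintro i (h | h)
    · exact ⟨sh_lt _ (by omega), sh_lt _ (by omega)⟩
    · exact ⟨sh_ge hl1 (by omega), sh_ge hl2 (by omega)⟩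
  · rw [qf_win hq L hl1]
    simp only [Finset.sum_range_succ, Finset.sum_range_zero, zero_add]
    exact h1
  · rw [qf_win hq L hl2]
    simp only [Finset.sum_range_succ, Finset.sum_range_zero, zero_add]
    exact h2
  · rw [bf_win hq L hl1]
    simp only [Finset.sum_range_succ, Finset.sum_range_zero, zero_add]
    exact h3

end Pool.Agent.Helper47.ZQ
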