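import Pool.Agent.Helper47.ZQ.Alg4
import Pool.Agent.Helper47.ZQ.Top
import Pool.Agent.Helper47.ZQ.Isr
import Pool.Agent.Helper47.ZQ.Win
import Pool.Agent.Helper47.ZQ.Const
import Pool.Agent.Helper47.ZQ.Iso
import Pool.Agent.Helper47.ZQ.Gam
import Pool.Agent.Helper47.ZQ.Comb
import Pool.Agent.Helper47.ZQ.Rep

/-!
# Large subgroups of `Q₈ ^ n` acting on closed manifolds
-/

set_option autoImplicit false

namespace Pool.Agent.Helper47.ZQ

open Module Pool.Agent.H185.ZM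
open scoped Manifold ContDiff

/-- the constant of the theorem: `K(κ) = 7 + 7 2^κ + 15 κ (8 κ + 22 + 7 2^κ)` -/
def K (κ : ℕ) : ℕ := KK κ (2 ^ κ)

variable {E : Type} [NormedAddCommGroup E] [NormedSpace ℝ E] [FiniteDimensional ℝ E]
  {M : Type} [TopologicalSpace M] [ChartedSpace E M] [IsManifold 𝓘(ℝ, E) ∞ M]

/-- **Core.** A group `P` isomorphic to a subgroup of index at most `2 ^ e` of `Q₈ ^ n` acts smoothly
on the closed connected manifold `M`. If `dim M + 4 K(B - 1 + e) + 4 < 4 n` then a nonconstant sign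
vector acts trivially. -/
theorem core [CompactSpace M] [T2Space M] [ConnectedSpace M] {n e : ℕ} {P : Type} [Group P]
    [Finite P] (ψ : P →* D n) (hψ : Function.Injective ψ) (hidx : ψ.range.index ≤ 2 ^ e)
    {a : P → M → M} (ha : SmoothAction E a)
    (hdim : finrank ℝ E + 4 * K (b2 M + e) + 4 < 4 * n) :
    ∃ p : P, (∀ x, a p x = x) ∧ p ∈ Zf ψ ∧ ∃ i j, ψ p i ≠ ψ p j := by
  have hZ2 : ∀ z ∈ Zf ψ, z ^ 2 = 1 := by
    intro z hz
    obtain ⟨ε, hε⟩ := exists_sgD hz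
    apply hψ
    rw [pow_two, map_mul, hε, map_one]
    nth_rewrite 1 [← sgD_inv]
    rw [inv_mul_cancel]
  have hZc : ∀ z ∈ Zf ψ, ∀ g : P, z * g = g * z := by
    intro z hz g
    obtain ⟨ε, hε⟩ := exists_sgD hz
    apply hψ
    rw [map_mul, map_mul, hε, sgD_comm]
  obtain ⟨A, hAZ, hA, hN⟩ := top ha (Zf ψ) hZ2 hZc
  have hpos : 0 < 2 ^ b2 M := by positivity
  obtain ⟨N, hAN, hsq, hfin⟩ := alg (comb win const iso gam) rep const (c := b2 M) (e := e) ψ hψ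
    hidx A hAZ (Nat.le_of_dvd hpos hA)
  obtain ⟨x, N', h1, h2, h3, h4⟩ := hN N hAN hsq
  obtain ⟨V, _, _, _, ρ, hV, hρ⟩ := exists_isotropy_ker ha x N' h4
  obtain ⟨p, hp1, hp2, hp3⟩ := hfin N' h1 h2 (Nat.le_of_dvd hpos h3) V ρ (by
    rw [hV]
    exact hdim)
  exact ⟨p, hρ p hp1, hp2, hp3⟩

end Pool.Agent.Helper47.ZQ
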