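import Pool.Graph.R_pool_sql_team_seeded_64922ed1.X183.ZM.Grp
import Pool.Agent.Helper47.ZQ.Q8

/-!
# Diagonal matrices with entries in the quaternion group and elementary matrices
-/

set_option autoImplicit false

namespace Pool.Agent.Helper47.ZQ

open Matrix Pool.Agent.X183.ZM

variable {O : Type} [Ring O]

/-- the diagonal matrices with entries in the quaternion group of order eight -/
def quatDiag (u : QuaternionGroup 2 →* O) (n : ℕ) :
    (Fin n → QuaternionGroup 2) →* (Matrix (Fin n) (Fin n) O)ˣ :=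
  MonoidHom.toHomUnits
    { toFun := fun q => diagonal (fun i => u (q i))
      map_one' := by
        show diagonal (fun i : Fin n => u ((1 : Fin n → QuaternionGroup 2) i)) = 1
        simp only [Pi.one_apply, map_one]
        exact diagonal_one
      map_mul' := fun p q => by
        show diagonal (fun i => u ((p * q) i)) = diagonal (fun i => u (p i)) *
          diagonal (fun i => u (q i))
        rw [diagonal_mul_diagonal]
        simp only [Pi.mul_apply, map_mul] }

theorem quatDiag_coe (u : QuaternionGroup 2 →* O) (n : ℕ) (q : Fin n → QuaternionGroup 2) :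
    ((quatDiag u n q : (Matrix (Fin n) (Fin n) O)ˣ) : Matrix (Fin n) (Fin n) O) =
      diagonal (fun i => u (q i)) := rfl

/-- the group generated by the elementary matrices -/
def EL (n : ℕ) (O : Type) [Ring O] : Subgroup (Matrix (Fin n) (Fin n) O)ˣ :=
  Subgroup.closure {g | ∃ i j, ∃ h : i ≠ j, ∃ x : O, g = El i j h x}

theorem El_mem {n : ℕ} {i j : Fin n} (h : i ≠ j) (x : O) : El i j h x ∈ EL n O :=
  Subgroup.subset_closure ⟨i, j, h, x, rfl⟩

theorem sn {n : ℕ} (i j : Fin n) (x : O) : single i j (-x) = -(single i j x) := by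
  ext a b
  rw [Matrix.neg_apply, Matrix.single_apply, Matrix.single_apply]
  split_ifs <;> simp

/-- `w E_ij - w' E_ji + (1 - E_ii - E_jj)` -/
theorem wh1 {n : ℕ} {i j : Fin n} (h : i ≠ j) {w w' : O} (h1 : w * w' = 1) (h2 : w' * w = 1) :
    ((El i j h w * El j i h.symm (-w') * El i j h w : (Matrix (Fin n) (Fin n) O)ˣ) :
      Matrix (Fin n) (Fin n) O) =
      1 - single i i 1 - single j j 1 + single i j w - single j i w' := by
  simp only [Units.val_mul, El_val, mul_add, add_mul, mul_one, one_mul,
    Matrix.single_mul_single_same, Matrix.single_mul_single_of_ne _ _ _ _ h,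
    Matrix.single_mul_single_of_ne _ _ _ _ h.symm, mul_neg, neg_mul, h1, h2, add_zero, zero_mul,
    sn]
  abel

theorem wh2 {n : ℕ} {i j : Fin n} (h : i ≠ j) {w w' : O} :
    (1 - single i i 1 - single j j 1 + single i j w - single j i w' : Matrix (Fin n) (Fin n) O) *
      (1 - single i i 1 - single j j 1 + single i j (-1) - single j i (-1)) =
      1 - single i i 1 - single j j 1 + single i i w + single j j w' := by
  simp only [mul_add, add_mul, mul_sub, sub_mul, mul_one, one_mul,
    Matrix.single_mul_single_same, Matrix.single_mul_single_of_ne _ _ _ _ h,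
    Matrix.single_mul_single_of_ne _ _ _ _ h.symm, mul_neg, neg_mul, add_zero, zero_mul,
    sn]
  abel

/-- Whitehead's lemma: `diag(w at i, w⁻¹ at j)` is in the elementary group -/
theorem wh (u : QuaternionGroup 2 →* O) {n : ℕ} {i j : Fin n} (h : i ≠ j) (g : QuaternionGroup 2) :
    quatDiag u n (Pi.mulSingle i g * Pi.mulSingle j g⁻¹) ∈ EL n O := by
  have h1 : u g * u g⁻¹ = 1 := by rw [← map_mul, mul_inv_cancel, map_one]
  have h2 : u g⁻¹ * u g = 1 := by rw [← map_mul, inv_mul_cancel, map_one]
  have key : quatDiag u n (Pi.mulSingle i g * Pi.mulSingle j g⁻¹) =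
      (El i j h (u g) * El j i h.symm (-(u g⁻¹)) * El i j h (u g)) *
      (El i j h (-1) * El j i h.symm (-(-1)) * El i j h (-1)) := by
    apply Units.ext
    rw [Units.val_mul, wh1 h h1 h2, wh1 h (by simp) (by simp), wh2 h, quatDiag_coe]
    ext a b
    rcases eq_or_ne a b with rfl | hab
    · rw [diagonal_apply_eq]
      rcases eq_or_ne a i with rfl | hai
      · simp [Matrix.single_apply, h, h.symm]
      · rcases eq_or_ne a j with rfl | haj
        · simp [Matrix.single_apply, h, h.symm]
        · simp [Matrix.single_apply, hai, haj, hai.symm, haj.symm]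
    · rw [diagonal_apply_ne _ hab]
      have e1 : ∀ (k : Fin n) (x : O), single k k x a b = 0 := by
        intro k x
        rw [Matrix.single_apply, if_neg]
        rintro ⟨rfl, rfl⟩
        exact hab rfl
      simp [e1, Matrix.one_apply_ne hab]
  rw [key]
  exact mul_mem (mul_mem (mul_mem (El_mem _ _) (El_mem _ _)) (El_mem _ _))
    (mul_mem (mul_mem (El_mem _ _) (El_mem _ _)) (El_mem _ _))

/-- the diagonal matrices and the elementary matrices -/
theorem quatDiag_El (u : QuaternionGroup 2 →* O) {n : ℕ} (q : Fin n → QuaternionGroup 2)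
    {i j : Fin n} (h : i ≠ j) (x : O) :
    quatDiag u n q * El i j h x = El i j h (u (q i) * x * u (q j)⁻¹) * quatDiag u n q := by
  apply Units.ext
  rw [Units.val_mul, Units.val_mul, El_val, El_val, quatDiag_coe, mul_add, add_mul, mul_one,
    one_mul]
  congr 1
  ext a b
  rw [Matrix.diagonal_mul, Matrix.mul_diagonal]
  simp only [Matrix.single_apply]
  split_ifs with h
  · rw [h.1, h.2, mul_assoc, mul_assoc, ← map_mul, inv_mul_cancel, map_one, mul_one]
  · simp

/-- A subgroup of `Q₈ ^ n` containing the elements `(g at i, g⁻¹ at j)` has index at most four. -/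
theorem idx_le {n : ℕ} (hn : 2 ≤ n) (H : Subgroup (Fin n → QuaternionGroup 2))
    (hH : ∀ i j : Fin n, i ≠ j → ∀ g, Pi.mulSingle i g * Pi.mulSingle j g⁻¹ ∈ H) :
    H.index ≤ 2 ^ 2 := by
  classical
  let i0 : Fin n := ⟨0, by omega⟩
  let j0 : Fin n := ⟨1, by omega⟩
  have hij : i0 ≠ j0 := by
    intro h
    have := congrArg Fin.val h
    simp [i0, j0] at this
  have hm : (Pi.mulSingle i0 (QuaternionGroup.a 2) : Fin n → QuaternionGroup 2) ∈ H := by
    have e : (Pi.mulSingle i0 (QuaternionGroup.a 2) : Fin n → QuaternionGroup 2) =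
        (Pi.mulSingle i0 (QuaternionGroup.a 1) * Pi.mulSingle j0 (QuaternionGroup.a 1)⁻¹) *
        (Pi.mulSingle i0 (QuaternionGroup.xa 0) * Pi.mulSingle j0 (QuaternionGroup.xa 0)⁻¹) *
        (Pi.mulSingle i0 (QuaternionGroup.xa 0 * QuaternionGroup.a 1)⁻¹ *
          Pi.mulSingle j0 ((QuaternionGroup.xa 0 * QuaternionGroup.a 1)⁻¹)⁻¹) := by
      funext k
      simp only [Pi.mul_apply]
      rcases eq_or_ne k i0 with rfl | h1
      · rw [Pi.mulSingle_eq_same, Pi.mulSingle_eq_same, Pi.mulSingle_eq_same,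
          Pi.mulSingle_eq_same, Pi.mulSingle_eq_of_ne hij, Pi.mulSingle_eq_of_ne hij,
          Pi.mulSingle_eq_of_ne hij]
        decide
      · rcases eq_or_ne k j0 with rfl | h2
        · rw [Pi.mulSingle_eq_same, Pi.mulSingle_eq_same, Pi.mulSingle_eq_same,
            Pi.mulSingle_eq_of_ne h1, Pi.mulSingle_eq_of_ne h1, Pi.mulSingle_eq_of_ne h1,
            Pi.mulSingle_eq_of_ne h1]
          decide
        · rw [Pi.mulSingle_eq_of_ne h1, Pi.mulSingle_eq_of_ne h1, Pi.mulSingle_eq_of_ne h1,
            Pi.mulSingle_eq_of_ne h1, Pi.mulSingle_eq_of_ne h2, Pi.mulSingle_eq_of_ne h2,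
            Pi.mulSingle_eq_of_ne h2]
          simp
    rw [e]
    exact mul_mem (mul_mem (hH _ _ hij _) (hH _ _ hij _)) (hH _ _ hij _)
  have hred : ∀ s : Finset (Fin n), ∀ q : Fin n → QuaternionGroup 2,
      (∀ k, k ∉ s → k ≠ i0 → q k = 1) → ∃ g, q * Pi.mulSingle i0 g ∈ H := by
    intro s
    induction s using Finset.induction_on with
    | empty =>
      intro q hq
      refine ⟨(q i0)⁻¹, ?_⟩
      have e : q * Pi.mulSingle i0 (q i0)⁻¹ = 1 := by
        funext k
        rw [Pi.mul_apply]
        rcases eq_or_ne k i0 with rfl | h1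
        · rw [Pi.mulSingle_eq_same, mul_inv_cancel]
          rfl
        · rw [Pi.mulSingle_eq_of_ne h1, mul_one, hq k (Finset.notMem_empty _) h1]
          rfl
      rw [e]
      exact one_mem H
    | insert i s his ih =>
      intro q hq
      rcases eq_or_ne i i0 with rfl | hi
      · exact ih q fun k hk hk0 => hq k (by simp [hk, hk0]) hk0
      · obtain ⟨g, hg⟩ := ih ((Pi.mulSingle i (q i)⁻¹ * Pi.mulSingle i0 ((q i)⁻¹)⁻¹) * q) (by
          intro k hk hk0
          rw [Pi.mul_apply, Pi.mul_apply, Pi.mulSingle_eq_of_ne hk0, mul_one]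
          rcases eq_or_ne k i with rfl | hki
          · rw [Pi.mulSingle_eq_same, inv_mul_cancel]
          · rw [Pi.mulSingle_eq_of_ne hki, one_mul]
            exact hq k (by simp [hki, hk]) hk0)
        refine ⟨g, ?_⟩
        rw [mul_assoc] at hg
        exact (Subgroup.mul_mem_cancel_left H (hH i i0 hi _)).1 hg
  have hsur : Function.Surjective (fun p : ZMod 2 × ZMod 2 =>
      ((Pi.mulSingle i0 (lft p.1 p.2) : Fin n → QuaternionGroup 2) :
        (Fin n → QuaternionGroup 2) ⧸ H)) := by
    intro y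
    obtain ⟨q, rfl⟩ := QuotientGroup.mk_surjective y
    obtain ⟨g, hg⟩ := hred Finset.univ q⁻¹ (fun k hk => absurd (Finset.mem_univ _) hk)
    refine ⟨(cx g, cz g), ?_⟩
    show ((Pi.mulSingle i0 (lft (cx g) (cz g)) : Fin n → QuaternionGroup 2) :
        (Fin n → QuaternionGroup 2) ⧸ H) = _
    have h1 : (q : (Fin n → QuaternionGroup 2) ⧸ H) =
        ((Pi.mulSingle i0 g : Fin n → QuaternionGroup 2) : _ ⧸ H) := QuotientGroup.eq.2 hg
    rw [h1]
    apply QuotientGroup.eq.2
    rw [← Pi.mulSingle_inv, ← Pi.mulSingle_mul]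
    have h2 : ∀ g : Q8, (lft (cx g) (cz g))⁻¹ * g = 1 ∨
        (lft (cx g) (cz g))⁻¹ * g = QuaternionGroup.a 2 := by decide
    rcases h2 g with h3 | h3
    · rw [h3, Pi.mulSingle_one]
      exact one_mem H
    · rw [h3]
      exact hm
  have h4 := Nat.card_le_card_of_surjective _ hsur
  have h5 : Nat.card (ZMod 2 × ZMod 2) = 4 := by
    rw [Nat.card_eq_fintype_card]
    decide
  rw [h5] at h4
  exact h4

end Pool.Agent.Helper47.ZQ
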