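import Pool.Agent.Helper47.ZQ.Lat
import Pool.Agent.Helper47.ZQ.Block
import Pool.Graph.R_pool_sql_team_seeded_b677cdb8.E8helper86.ZB.Man2

/-!
# Actions of the elementary group of a ring containing the quaternion group
-/

set_option autoImplicit false

namespace Pool.Agent.Helper47.ZQ

open Module Pool.Agent.H185.ZM Matrix Pool.Agent.X183.ZM
open scoped Manifold ContDiff

variable {O : Type} [Ring O]

/-- the lifts of a matrix with entries modulo two to the block matrix with entries `0`, `1` -/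
def Bc (n k : ℕ) (O : Type) [Ring O] (c : Fin k × Fin k → Multiplicative (ZMod 2)) :
    Matrix (Fin n) (Fin n) O :=
  Matrix.of fun i j => if h : (i : ℕ) < k ∧ k ≤ (j : ℕ) ∧ (j : ℕ) - k < k then
    (((Multiplicative.toAdd (c (⟨i, h.1⟩, ⟨j - k, h.2.2⟩))).val : ℕ) : O) else 0

theorem Bc_bl (n k : ℕ) (c : Fin k × Fin k → Multiplicative (ZMod 2)) :
    IsBl k (Bc n k O c) := by
  intro i j h
  rw [Bc, Matrix.of_apply] at h
  split_ifs at h with h1
  · exact ⟨h1.1, h1.2.1⟩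
  · exact absurd rfl h

theorem Bc_one (n k : ℕ) : Bc n k O 1 = 0 := by
  ext i j
  rw [Bc, Matrix.of_apply]
  split_ifs with h1
  · simp
  · rfl

theorem msq : ∀ y : Multiplicative (ZMod 2), y ^ 2 = 1 := by decide

theorem mval : ∀ y : Multiplicative (ZMod 2), y ≠ 1 → (Multiplicative.toAdd y).val = 1 := by decide

theorem val_add2 : ∀ x y : ZMod 2, x.val + y.val = (x + y).val + 2 * (x.val * y.val) := by decide

theorem Bc_mul (n k : ℕ) (c d : Fin k × Fin k → Multiplicative (ZMod 2)) :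
    ∃ C : Matrix (Fin n) (Fin n) O, IsBl k C ∧ (∀ i j, ∃ x, C i j = 2 * x) ∧
      Bc n k O c + Bc n k O d = Bc n k O (c * d) + C := by
  refine ⟨Bc n k O c + Bc n k O d - Bc n k O (c * d), ?_, ?_, by abel⟩
  · intro i j h
    by_contra hcon
    apply h
    have h1 : ∀ c : Fin k × Fin k → Multiplicative (ZMod 2), Bc n k O c i j = 0 := by
      intro c
      by_contra h2
      exact hcon (Bc_bl n k c i j h2)
    rw [Matrix.sub_apply, Matrix.add_apply, h1, h1, h1]
    simp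
  · intro i j
    rw [Matrix.sub_apply, Matrix.add_apply, Bc, Bc, Bc, Matrix.of_apply, Matrix.of_apply,
      Matrix.of_apply]
    split_ifs with h1
    · refine ⟨(((Multiplicative.toAdd (c (⟨i, h1.1⟩, ⟨j - k, h1.2.2⟩))).val *
        (Multiplicative.toAdd (d (⟨i, h1.1⟩, ⟨j - k, h1.2.2⟩))).val : ℕ) : O), ?_⟩
      rw [← Nat.cast_add, val_add2, Nat.cast_add, Nat.cast_mul]
      show _ + (2 : ℕ) * _ - (((Multiplicative.toAdd (c (⟨i, h1.1⟩, ⟨j - k, h1.2.2⟩)) +
        Multiplicative.toAdd (d (⟨i, h1.1⟩, ⟨j - k, h1.2.2⟩))).val : ℕ) : O) = _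
      rw [add_sub_cancel_left]
      simp
    · exact ⟨0, by simp⟩

variable {E : Type} [NormedAddCommGroup E] [NormedSpace ℝ E] [FiniteDimensional ℝ E]
  {M : Type} [TopologicalSpace M] [ChartedSpace E M] [IsManifold 𝓘(ℝ, E) ∞ M]

theorem arith {n m b : ℕ} (h : m + 4 * K (b + 2) + 4 < 4 * n) :
    24 ≤ n ∧ m + b < (n / 2) * (n / 2) := by
  have h1 : 30 + b ≤ K (b + 2) := by
    unfold K KK
    have h2 := (Nat.lt_two_pow_self (n := b + 2)).le
    have h3 : 15 * (b + 2) * 1 ≤ 15 * (b + 2) * (8 * (b + 2) + 22 + 7 * 2 ^ (b + 2)) :=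
      Nat.mul_le_mul_left _ (by omega)
    omega
  have h4 : 24 ≤ n := by omega
  refine ⟨h4, ?_⟩
  have h5 : 12 * (n / 2) ≤ (n / 2) * (n / 2) := Nat.mul_le_mul_right _ (by omega)
  omega

/-- **The elementary group.** -/
theorem elem [CompactSpace M] [T2Space M] [ConnectedSpace M] {n : ℕ}
    (u : QuaternionGroup 2 →* O) (hz : u (QuaternionGroup.a 2) = -1)
    (Γ : Subgroup (Matrix (Fin n) (Fin n) O)ˣ) (hΓ : EL n O ≤ Γ)
    (hdim : finrank ℝ E + 4 * K (b2 M + 2) + 4 < 4 * n)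
    (α : Γ → (M ≃ₘ^∞⟮𝓘(ℝ, E), 𝓘(ℝ, E)⟯ M)) (hα : IsHom α)
    (g : (Matrix (Fin n) (Fin n) O)ˣ) (hg : g ∈ EL n O) (x : M) : α ⟨g, hΓ hg⟩ x = x := by
  obtain ⟨hn, hk⟩ := arith hdim
  set N : Subgroup (Matrix (Fin n) (Fin n) O)ˣ := (actKer hα.action).map Γ.subtype with hNd
  have hmem : ∀ g, g ∈ N ↔ ∃ h : g ∈ Γ, ∀ x, α ⟨g, h⟩ x = x := by
    intro g
    constructor
    · rintro ⟨γ, hγ, rfl⟩
      exact ⟨γ.2, hγ⟩
    · rintro ⟨h, h1⟩
      exact ⟨⟨g, h⟩, h1, rfl⟩
  have hNle : N ≤ Γ := by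
    rintro g hg
    exact ((hmem g).1 hg).1
  have hEN : ENorm N := by
    rintro g ⟨γ, hγ, rfl⟩ i j h x
    have h1 : El i j h x ∈ Γ := hΓ (El_mem h x)
    have h2 : (actKer hα.action).Normal := inferInstance
    have h3 := h2.conj_mem γ hγ (⟨El i j h x, h1⟩ : Γ)
    exact ⟨_, h3, rfl⟩
  -- the sign matrix
  let P : Subgroup (D n) := Γ.comap (quatDiag u n)
  have hP : P.index ≤ 2 ^ 2 := idx_le (by omega) P fun i j hij g => hΓ (wh u hij g)
  let φ : P →* Γ :=
    { toFun := fun q => ⟨quatDiag u n q, q.2⟩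
      map_one' := Subtype.ext (by simp)
      map_mul' := fun x y => Subtype.ext (by simp) }
  obtain ⟨p, h1, h2, i, j, h3⟩ := core (n := n) (e := 2) P.subtype P.subtype_injective
      (by rwa [Subgroup.range_subtype]) (hα.action.comp φ) hdim
  obtain ⟨ε, hε⟩ := exists_sgD h2
  have hε' : (p : D n) = sgD ε := hε
  have hij : ε i ≠ ε j := by
    intro h
    apply h3
    show (p : D n) i = (p : D n) j
    rw [hε']
    show sgn (ε i) = sgn (ε j)
    rw [h]
  have hs : quatDiag u n (fun k => sgn (ε k)) ∈ N := by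
    have : (fun k => sgn (ε k)) = (p : D n) := hε'.symm
    rw [this]
    exact (hmem _).2 ⟨p.2, h1⟩
  have hev := even u hz (by omega) hEN ε hij hs
  -- the block group
  have hB : ∀ c, UB (Bc n (n / 2) O c) (Bc_bl n (n / 2) c) ∈ Γ := fun c =>
    gen' Γ Set.univ (Set.mem_univ _) (fun i j hij y _ => hΓ (El_mem hij y)) _ _ fun _ _ =>
      Set.mem_univ _
  let a : (Fin (n / 2) × Fin (n / 2) → Multiplicative (ZMod 2)) → M → M := fun c =>
    α ⟨UB (Bc n (n / 2) O c) (Bc_bl n (n / 2) c), hB c⟩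
  have ha : SmoothAction E a :=
    { one := fun x => by
        show α ⟨UB (Bc n (n / 2) O 1) (Bc_bl n (n / 2) 1), hB 1⟩ x = x
        have h4 : (⟨UB (Bc n (n / 2) O 1) (Bc_bl n (n / 2) 1), hB 1⟩ : Γ) = 1 := by
          apply Subtype.ext
          apply Units.ext
          rw [UB_val, Bc_one]
          simp
        rw [h4]
        exact hα.action.one x
      mul := fun c d x => by
        obtain ⟨C, hC, hC2, hCe⟩ := Bc_mul (O := O) n (n / 2) c d
        have hCN : UB C hC ∈ N := by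
          refine gen' N {y | ∃ x, y = 2 * x} ⟨0, by simp⟩ ?_ C hC hC2
          rintro i j hij y ⟨x, rfl⟩
          exact hev i j hij x
        obtain ⟨hCΓ, hCx⟩ := (hmem _).1 hCN
        have h4 : (⟨UB (Bc n (n / 2) O c) (Bc_bl n (n / 2) c), hB c⟩ : Γ) *
            ⟨UB (Bc n (n / 2) O d) (Bc_bl n (n / 2) d), hB d⟩ =
            ⟨UB (Bc n (n / 2) O (c * d)) (Bc_bl n (n / 2) (c * d)), hB (c * d)⟩ *
              ⟨UB C hC, hCΓ⟩ := by
          apply Subtype.ext
          show UB _ (Bc_bl n (n / 2) c) * UB _ (Bc_bl n (n / 2) d) =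
            UB _ (Bc_bl n (n / 2) (c * d)) * UB C hC
          rw [← UB_add, ← UB_add]
          apply Units.ext
          rw [UB_val, UB_val, hCe]
        show α ⟨UB (Bc n (n / 2) O (c * d)) (Bc_bl n (n / 2) (c * d)), hB (c * d)⟩ x =
          α ⟨UB (Bc n (n / 2) O c) (Bc_bl n (n / 2) c), hB c⟩
            (α ⟨UB (Bc n (n / 2) O d) (Bc_bl n (n / 2) d), hB d⟩ x)
        rw [← hα, h4, hα, hCx]
      smooth := fun c => (α _).contMDiff }
  haveI : Fact (Nat.Prime 2) := ⟨Nat.prime_two⟩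
  have hpow : ∀ x : Fin (n / 2) × Fin (n / 2) → Multiplicative (ZMod 2), x ^ 2 = 1 := by
    intro x
    funext i
    show (x i) ^ 2 = 1
    exact msq _
  obtain ⟨_, hdv⟩ := Pool.Agent.E8helper86.ZB.manU 2 E M
    (Fin (n / 2) × Fin (n / 2) → Multiplicative (ZMod 2)) hpow a ha
  have hker : actKer ha ≠ ⊥ := by
    intro hbot
    rw [hbot, Subgroup.card_bot, one_mul] at hdv
    have hc : Nat.card (Fin (n / 2) × Fin (n / 2) → Multiplicative (ZMod 2)) =
        2 ^ ((n / 2) * (n / 2)) := by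
      have h5 : Nat.card (Multiplicative (ZMod 2)) = 2 := by
        rw [Nat.card_eq_fintype_card]
        decide
      rw [Nat.card_fun, h5]
      congr 1
      simp
    have h6 : Pool.Agent.E8helper2.ZB.cst 2 (finrank ℝ E) *
        2 ^ ((Pool.Agent.Helper381.totalBetti (ZMod 2) M).toNat - 1) = 2 ^ (finrank ℝ E + b2 M) := by
      unfold Pool.Agent.E8helper2.ZB.cst b2
      rw [if_pos rfl, ← pow_add]
    rw [hc, h6] at hdv
    have h7 := (Nat.pow_dvd_pow_iff_le_right (by norm_num : 1 < 2)).1 hdv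
    omega
  obtain ⟨c, hc, hc2⟩ : ∃ c ∈ actKer ha, c ≠ 1 := by
    by_contra hcon
    push Not at hcon
    exact hker ((Subgroup.eq_bot_iff_forall _).2 hcon)
  obtain ⟨⟨r, s⟩, hrs⟩ := Function.ne_iff.1 hc2
  have hX : UB (Bc n (n / 2) O c) (Bc_bl n (n / 2) c) ∈ N := (hmem _).2 ⟨hB _, hc⟩
  have hr := r.2
  have hs' := s.2
  have hall := all_of_block (by omega) (by omega) hEN _ (Bc_bl n (n / 2) c) hX
    (k := ⟨r, by omega⟩) (l := ⟨n / 2 + s, by omega⟩) hr (Nat.le_add_right _ _) (by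
      have h8 : (r : ℕ) < n / 2 ∧ n / 2 ≤ n / 2 + (s : ℕ) ∧ n / 2 + (s : ℕ) - n / 2 < n / 2 :=
        ⟨hr, by omega, by omega⟩
      rw [Bc, Matrix.of_apply]
      rw [dif_pos h8]
      have h9 : (⟨n / 2 + (s : ℕ) - n / 2, h8.2.2⟩ : Fin (n / 2)) = s := by
        apply Fin.ext
        show n / 2 + (s : ℕ) - n / 2 = s
        omega
      show (((Multiplicative.toAdd ((c : Fin (n / 2) × Fin (n / 2) → Multiplicative (ZMod 2))
        (⟨r, h8.1⟩, ⟨n / 2 + (s : ℕ) - n / 2, h8.2.2⟩))).val : ℕ) : O) = 1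
      rw [h9]
      rw [mval _ hrs]
      simp)
  have hle : EL n O ≤ N := by
    rw [EL, Subgroup.closure_le]
    rintro _ ⟨i, j, hij, y, rfl⟩
    exact hall i j hij y
  exact ((hmem g).1 (hle hg)).2 x

end Pool.Agent.Helper47.ZQ
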