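import Pool.Agent.Helper47.ZQ.Core
import Pool.Graph.R_seed8.H185.ZM.FI
import Pool.Graph.R_seed8.H185.ZM.Hom

/-!
# Lattices containing the `n`-th power of the quaternion group
-/

set_option autoImplicit false

namespace Pool.Agent.Helper47.ZQ

open Module Pool.Agent.H185.ZM Matrix
open scoped Manifold ContDiff

variable {E : Type} [NormedAddCommGroup E] [NormedSpace ℝ E] [FiniteDimensional ℝ E]
  {M : Type} [TopologicalSpace M] [ChartedSpace E M] [IsManifold 𝓘(ℝ, E) ∞ M]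

theorem card_D (n : ℕ) : Nat.card (D n) = 2 ^ (3 * n) := by
  have h : Nat.card Q8 = 8 := by
    rw [Nat.card_eq_fintype_card]
    decide
  rw [Nat.card_fun, h, Nat.card_eq_fintype_card, Fintype.card_fin,
    show (8 : ℕ) = 2 ^ 3 by norm_num, ← pow_mul]

/-- the abstract form -/
theorem lat [CompactSpace M] [T2Space M] [ConnectedSpace M] {G : Type} [Group G]
    (Γ Δ : Subgroup G) {n e : ℕ} (φ : D n →* G) (hφ : ∀ p, φ p ∈ Γ)
    (he : ¬ 2 ^ (e + 1) ∣ Δ.relIndex Γ)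
    (hdim : finrank ℝ E + 4 * K (b2 M + e) + 4 < 4 * n)
    (α : Δ → (M ≃ₘ^∞⟮𝓘(ℝ, E), 𝓘(ℝ, E)⟯ M)) (hα : IsHom α) :
    ∃ ε : Fin n → ZMod 2, (∃ i j, ε i ≠ ε j) ∧
      ∃ γ ∈ Γ, ∃ h : γ⁻¹ * φ (sgD ε) * γ ∈ Δ, ∀ x, α ⟨_, h⟩ x = x := by
  by_contra hcon
  push Not at hcon
  apply he
  have hne : Δ.relIndex Γ ≠ 0 := by
    intro h0
    exact he (h0 ▸ dvd_zero _)
  have hfi : Finite (Γ ⧸ Δ.subgroupOf Γ) := Nat.finite_of_card_ne_zero hne
  have hen : e + 1 ≤ 3 * n := by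
    have h1 : b2 M + e ≤ K (b2 M + e) := by
      unfold K KK
      have := (Nat.lt_two_pow_self (n := b2 M + e)).le
      omega
    omega
  let φ' : D n →* Γ := φ.codRestrict Γ hφ
  have key := fi_dvd (Δ.subgroupOf Γ) φ' (2 ^ (3 * n - (e + 1))) (fun γ Q hQ => by
    by_contra hnd
    have hc : Nat.card Q ∣ 2 ^ (3 * n) := card_D n ▸ Subgroup.card_subgroup_dvd_card Q
    obtain ⟨k, hk, hk2⟩ := (Nat.dvd_prime_pow Nat.prime_two).1 hc
    have hk3 : 3 * n - (e + 1) < k := by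
      by_contra h
      apply hnd
      rw [hk2]
      exact pow_dvd_pow 2 (not_lt.1 h)
    have hidx : Q.index ≤ 2 ^ e := by
      have h1 := Q.index_mul_card
      rw [hk2, card_D] at h1
      have h2 : Q.index * 2 ^ k = 2 ^ (3 * n - k) * 2 ^ k := by
        rw [h1, ← pow_add]
        congr 1
        omega
      have h3 : Q.index = 2 ^ (3 * n - k) := Nat.eq_of_mul_eq_mul_right (by positivity) h2
      rw [h3]
      exact Nat.pow_le_pow_right (by norm_num) (by omega)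
    let ψ : Q →* Δ :=
      { toFun := fun q => ⟨(γ : G)⁻¹ * φ q * γ, hQ q q.2⟩
        map_one' := Subtype.ext (by simp)
        map_mul' := fun x y => Subtype.ext (by simp [mul_assoc]) }
    obtain ⟨p, h1, h2, i, j, h3⟩ := core (n := n) (e := e) Q.subtype Q.subtype_injective
      (by rwa [Subgroup.range_subtype]) (hα.action.comp ψ) hdim
    obtain ⟨ε, hε⟩ := exists_sgD h2
    have hε' : (p : D n) = sgD ε := hε
    have hij : ∃ i j, ε i ≠ ε j := by
      refine ⟨i, j, fun h => h3 ?_⟩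
      show (p : D n) i = (p : D n) j
      rw [hε']
      show sgn (ε i) = sgn (ε j)
      rw [h]
    have hmem : (γ : G)⁻¹ * φ (sgD ε) * γ ∈ Δ := by
      rw [← hε']
      exact hQ p p.2
    obtain ⟨x, hx⟩ := hcon ε hij γ γ.2 hmem
    apply hx
    have h5 : (⟨(γ : G)⁻¹ * φ (sgD ε) * γ, hmem⟩ : Δ) = ψ p := by
      apply Subtype.ext
      show (γ : G)⁻¹ * φ (sgD ε) * γ = (γ : G)⁻¹ * φ (p : D n) * γ
      rw [hε']
    rw [h5]
    exact h1 x)
  rw [card_D] at key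
  have h6 : 2 ^ (3 * n - (e + 1)) * 2 ^ (e + 1) ∣ 2 ^ (3 * n - (e + 1)) *
      (Δ.subgroupOf Γ).index := by
    rw [← pow_add, show 3 * n - (e + 1) + (e + 1) = 3 * n by omega]
    exact key
  exact Nat.dvd_of_mul_dvd_mul_left (by positivity) h6

end Pool.Agent.Helper47.ZQ
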